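import Mathlib

namespace Pool.Agent.Helper4.PC

open Set MeasureTheory Filter Topology
open scoped FourierTransform

/-- the cosine transform -/
noncomputable def CT (A : ℝ → ℝ) (u : ℝ) : ℝ := ∫ ξ, A ξ * Real.cos (2 * Real.pi * u * ξ)

lemma norm_cos_le (x : ℝ) : ‖Real.cos x‖ ≤ 1 := Real.abs_cos_le_one x

lemma CT_int {A : ℝ → ℝ} (hA : Integrable A) (u : ℝ) :
    Integrable (fun ξ => A ξ * Real.cos (2 * Real.pi * u * ξ)) := by
  refine hA.norm.mono' (hA.aestronglyMeasurable.mul (by fun_prop)) ?_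
  filter_upwards with ξ
  rw [norm_mul]
  exact mul_le_of_le_one_right (norm_nonneg _) (norm_cos_le _)

lemma CS_int {A : ℝ → ℝ} (hA : Integrable A) (u : ℝ) :
    Integrable (fun ξ => A ξ * Real.sin (2 * Real.pi * u * ξ)) := by
  refine hA.norm.mono' (hA.aestronglyMeasurable.mul (by fun_prop)) ?_
  filter_upwards with ξ
  rw [norm_mul]
  exact mul_le_of_le_one_right (norm_nonneg _) (Real.abs_sin_le_one _)

lemma CT_cont {A : ℝ → ℝ} (hA : Integrable A) : Continuous (CT A) := by
  unfold CT
  apply continuous_of_dominated (bound := fun ξ => ‖A ξ‖)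
  · intro u; exact (CT_int hA u).aestronglyMeasurable
  · intro u
    filter_upwards with ξ
    rw [norm_mul]
    exact mul_le_of_le_one_right (norm_nonneg _) (norm_cos_le _)
  · exact hA.norm
  · filter_upwards with ξ
    fun_prop

lemma CT_even (A : ℝ → ℝ) (u : ℝ) : CT A (-u) = CT A u := by
  unfold CT
  congr 1; funext ξ
  rw [← Real.cos_neg]
  congr 2; ring

lemma CT_abs_le {A : ℝ → ℝ} (hA : Integrable A) (u : ℝ) : |CT A u| ≤ ∫ ξ, |A ξ| := by
  unfold CT
  have h0 := norm_integral_le_integral_norm (μ := volume) (fun ξ => A ξ * Real.cos (2 * Real.pi * u * ξ))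
  refine h0.trans ?_
  apply integral_mono_of_nonneg
  · filter_upwards with ξ; positivity
  · exact hA.abs
  · filter_upwards with ξ
    rw [norm_mul]
    exact mul_le_of_le_one_right (norm_nonneg _) (norm_cos_le _)

/-- for even functions the Fourier transform is the cosine transform -/
lemma fourier_eq_CT {A : ℝ → ℝ} (hA : Integrable A) (he : ∀ x, A (-x) = A x) (u : ℝ) :
    𝓕 (fun x => (A x : ℂ)) u = (CT A u : ℂ) := by
  rw [Real.fourier_real_eq_integral_exp_smul]
  set f : ℝ → ℂ := fun v => Complex.exp (↑(-2 * Real.pi * v * u) * Complex.I) • (A v : ℂ) with hf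
  have hfi : Integrable f := by
    refine hA.norm.mono' ?_ ?_
    · have m1 : AEStronglyMeasurable (fun v : ℝ => Complex.exp (↑(-2 * Real.pi * v * u) * Complex.I)) volume := by
        apply Continuous.aestronglyMeasurable; fun_prop
      have m2 : AEStronglyMeasurable (fun v : ℝ => (A v : ℂ)) volume :=
        Complex.continuous_ofReal.comp_aestronglyMeasurable hA.aestronglyMeasurable
      exact m1.smul m2
    · filter_upwards with v
      rw [hf]
      simp only
      rw [norm_smul, Complex.norm_exp_ofReal_mul_I, one_mul, Complex.norm_real]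
  have h1 : ∫ v, f v = ∫ v, f (-v) := (integral_neg_eq_self f volume).symm
  have h2 : 2 * ∫ v, f v = ∫ v, (f v + f (-v)) := by
    rw [integral_add hfi hfi.comp_neg, ← h1]; ring
  have h3 : ∀ v, f v + f (-v) = 2 * ((A v * Real.cos (2 * Real.pi * u * v) : ℝ) : ℂ) := by
    intro v
    rw [hf]
    simp only
    rw [he]
    push_cast
    rw [Complex.cos]
    simp only [smul_eq_mul]
    have e1 : -2 * (Real.pi:ℂ) * v * u * Complex.I = -(2 * Real.pi * u * v) * Complex.I := by ring
    have e2 : -2 * (Real.pi:ℂ) * -v * u * Complex.I = (2 * Real.pi * u * v) * Complex.I := by ring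
    rw [e1, e2]
    ring
  simp_rw [h3] at h2
  rw [integral_const_mul] at h2
  have h4 : (2:ℂ) ≠ 0 := two_ne_zero
  have h5 := mul_left_cancel₀ h4 h2
  rw [h5, integral_complex_ofReal]
  rfl

/-- inversion -/
lemma CT_CT {A : ℝ → ℝ} (hc : Continuous A) (hA : Integrable A) (he : ∀ x, A (-x) = A x)
    (hi : Integrable (CT A)) (x : ℝ) : CT (CT A) x = A x := by
  have h1 : 𝓕 (fun x => (A x : ℂ)) = fun u => (CT A u : ℂ) := by
    funext u; exact fourier_eq_CT hA he u
  have h2 : Continuous (fun x => (A x : ℂ)) := Complex.continuous_ofReal.comp hc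
  have h3 := h2.fourierInv_fourier_eq hA.ofReal (by rw [h1]; exact hi.ofReal)
  have h4 := congrFun h3 x
  rw [h1, Real.fourierInv_eq_fourier_neg, fourier_eq_CT hi (CT_even A), CT_even] at h4
  exact_mod_cast h4

/-- the transform of a product -/
lemma CT_mul_CT {A S : ℝ → ℝ} (hA : Integrable A) (hS : Integrable S) (u : ℝ) :
    CT (fun ξ => A ξ * CT S ξ) u = (1 / 2) * ((∫ s, S s * CT A (u - s)) + ∫ s, S s * CT A (-u - s)) := by
  have hprod : Integrable (fun p : ℝ × ℝ => S p.1 * A p.2) (volume.prod volume) := hS.mul_prod hA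
  have e1 : CT (fun ξ => A ξ * CT S ξ) u = ∫ ξ, ∫ s, S s * A ξ * (Real.cos (2 * Real.pi * ξ * s) * Real.cos (2 * Real.pi * u * ξ)) := by
    unfold CT
    congr 1; funext ξ
    simp only
    rw [← integral_const_mul, ← integral_mul_const]
    congr 1; funext s
    ring
  have hSA : ∀ v, Integrable (fun s => S s * CT A (v - s)) := by
    intro v
    refine (hS.norm.mul_const (∫ ξ, |A ξ|)).mono' (hS.aestronglyMeasurable.mul ((CT_cont hA).comp (by fun_prop)).aestronglyMeasurable) ?_
    filter_upwards with s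
    rw [norm_mul]
    exact mul_le_mul_of_nonneg_left (CT_abs_le hA _) (norm_nonneg _)
  rw [e1, ← integral_add (hSA u) (hSA (-u)), ← integral_const_mul, integral_integral_swap]
  · congr 1; funext s
    unfold CT
    have i1 := CT_int hA (u - s)
    have i2 := CT_int hA (-u - s)
    rw [← mul_add, ← integral_add i1 i2, ← integral_const_mul, ← integral_const_mul]
    congr 1; funext ξ
    have h1 : Real.cos (2 * Real.pi * (u - s) * ξ) = Real.cos (2 * Real.pi * u * ξ) * Real.cos (2 * Real.pi * ξ * s) + Real.sin (2 * Real.pi * u * ξ) * Real.sin (2 * Real.pi * ξ * s) := by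
      rw [← Real.cos_sub]; congr 1; ring
    have h2 : Real.cos (2 * Real.pi * (-u - s) * ξ) = Real.cos (2 * Real.pi * u * ξ) * Real.cos (2 * Real.pi * ξ * s) - Real.sin (2 * Real.pi * u * ξ) * Real.sin (2 * Real.pi * ξ * s) := by
      rw [← Real.cos_add, ← Real.cos_neg]; congr 1; ring
    rw [h1, h2]
    ring
  · have h0 : Integrable (fun p : ℝ × ℝ => A p.1 * S p.2) (volume.prod volume) := hA.mul_prod hS
    refine h0.norm.mono' ?_ ?_
    · have : (Function.uncurry fun (ξ s : ℝ) => S s * A ξ * (Real.cos (2 * Real.pi * ξ * s) * Real.cos (2 * Real.pi * u * ξ))) =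
        fun p : ℝ × ℝ => (A p.1 * S p.2) * (Real.cos (2 * Real.pi * p.1 * p.2) * Real.cos (2 * Real.pi * u * p.1)) := by
        funext p; simp only [Function.uncurry]; ring
      rw [this]
      exact h0.aestronglyMeasurable.mul (Continuous.aestronglyMeasurable (by fun_prop))
    · filter_upwards with p
      simp only [Function.uncurry]
      rw [norm_mul, norm_mul (Real.cos _), mul_comm (S p.2)]
      have h1 := norm_cos_le (2 * Real.pi * p.1 * p.2)
      have h2 := norm_cos_le (2 * Real.pi * u * p.1)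
      have h3 : ‖Real.cos (2 * Real.pi * p.1 * p.2)‖ * ‖Real.cos (2 * Real.pi * u * p.1)‖ ≤ 1 :=
        mul_le_one₀ h1 (norm_nonneg _) h2
      exact mul_le_of_le_one_right (norm_nonneg _) h3

/-- scaling -/
lemma CT_scale (A : ℝ → ℝ) {B : ℝ} (hB : 0 < B) (u : ℝ) :
    CT (fun ξ => A (B * ξ)) u = (1 / B) * CT A (u / B) := by
  unfold CT
  have h := Measure.integral_comp_mul_left (fun ξ => A ξ * Real.cos (2 * Real.pi * (u / B) * ξ)) B
  rw [abs_of_pos (inv_pos.mpr hB), smul_eq_mul] at h
  rw [one_div, ← h]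
  congr 1; funext ξ
  congr 2
  field_simp

lemma CT_const_mul (c : ℝ) (A : ℝ → ℝ) (u : ℝ) : CT (fun ξ => c * A ξ) u = c * CT A u := by
  unfold CT
  rw [← integral_const_mul]
  congr 1; funext ξ; ring

/-- modulation -/
lemma CT_mod {A : ℝ → ℝ} (hA : Integrable A) (v u : ℝ) :
    CT (fun ξ => A ξ * Real.cos (2 * Real.pi * v * ξ)) u = (1 / 2) * (CT A (u - v) + CT A (u + v)) := by
  unfold CT
  have i1 := CT_int hA (u - v)
  have i2 := CT_int hA (u + v)
  rw [← integral_add i1 i2, ← integral_const_mul]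
  congr 1; funext ξ
  have h1 : Real.cos (2 * Real.pi * (u - v) * ξ) = Real.cos (2 * Real.pi * u * ξ) * Real.cos (2 * Real.pi * v * ξ) + Real.sin (2 * Real.pi * u * ξ) * Real.sin (2 * Real.pi * v * ξ) := by
    rw [← Real.cos_sub]; congr 1; ring
  have h2 : Real.cos (2 * Real.pi * (u + v) * ξ) = Real.cos (2 * Real.pi * u * ξ) * Real.cos (2 * Real.pi * v * ξ) - Real.sin (2 * Real.pi * u * ξ) * Real.sin (2 * Real.pi * v * ξ) := by
    rw [← Real.cos_add]; congr 1; ring
  rw [h1, h2]
  ring

/-- integral of the transform -/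
lemma integral_CT_zero {A : ℝ → ℝ} (u : ℝ) (hu : u = 0) : CT A u = ∫ ξ, A ξ := by
  unfold CT
  rw [hu]
  simp

end Pool.Agent.Helper4.PC
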