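import Mathlib

namespace Pool.Agent.Helper4.PC

open Set MeasureTheory Filter Topology

/-- the average of φ over the window seen from x -/
noncomputable def gw (M : ℝ) (φ : ℝ → ℝ) (x : ℝ) : ℝ := ∫ y in Icc 0 M, φ (x - y)

lemma gw_eq {M : ℝ} (φ : ℝ → ℝ) (x : ℝ) : gw M φ x = ∫ s in Icc (x - M) x, φ s := by
  unfold gw
  have h : MeasurePreserving (fun y : ℝ => x - y) volume volume := Measure.measurePreserving_sub_left volume x
  have h2 := h.setIntegral_preimage_emb (MeasurableEquiv.subLeft x).measurableEmbedding φ (Icc (x - M) x)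
  rw [← h2]
  congr 2
  ext y
  simp only [mem_Icc, mem_preimage]
  constructor
  · rintro ⟨h1, h2⟩; constructor <;> linarith
  · rintro ⟨h1, h2⟩; constructor <;> linarith

lemma gw_diff {M : ℝ} {φ : ℝ → ℝ} (hφ : Integrable φ) (x : ℝ) :
    |gw M φ x - ∫ s, φ s| ≤ ∫ s in (Icc (x - M) x)ᶜ, |φ s| := by
  rw [gw_eq, ← integral_add_compl (measurableSet_Icc (a := x - M) (b := x)) hφ]
  have h : (∫ s in Icc (x - M) x, φ s) - ((∫ s in Icc (x - M) x, φ s) + ∫ s in (Icc (x - M) x)ᶜ, φ s) = - ∫ s in (Icc (x - M) x)ᶜ, φ s := by ring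
  rw [h, abs_neg]
  exact norm_integral_le_integral_norm (μ := volume.restrict (Icc (x - M) x)ᶜ) φ

lemma gw_diff_le {M : ℝ} {φ : ℝ → ℝ} (hφ : Integrable φ) (x : ℝ) :
    |gw M φ x - ∫ s, φ s| ≤ ∫ s, |φ s| := by
  refine (gw_diff hφ x).trans ?_
  exact setIntegral_le_integral hφ.abs (by filter_upwards with s; exact abs_nonneg _)

lemma gw_diff_mid {M K : ℝ} {φ : ℝ → ℝ} (hφ : Integrable φ) {x : ℝ} (hx : x ∈ Icc K (M - K)) :
    |gw M φ x - ∫ s, φ s| ≤ ∫ s in (Icc (-K) K)ᶜ, |φ s| := by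
  refine (gw_diff hφ x).trans ?_
  apply setIntegral_mono_set hφ.abs.integrableOn
  · filter_upwards with s; exact abs_nonneg _
  · apply LE.le.eventuallyLE
    apply compl_subset_compl.mpr
    intro s hs
    exact ⟨by linarith [hs.1, hx.2], by linarith [hs.2, hx.1]⟩

/-- tails -/
lemma exists_tail {φ : ℝ → ℝ} (hφ : Integrable φ) {τ : ℝ} (hτ : 0 < τ) : ∃ K : ℝ, 0 < K ∧ ∫ s in (Icc (-K) K)ᶜ, |φ s| ≤ τ := by
  have ht : Tendsto (fun R : ℝ => ∫ w in (-R)..R, |φ w|) atTop (𝓝 (∫ w, |φ w|)) :=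
    intervalIntegral_tendsto_integral hφ.abs tendsto_neg_atTop_atBot tendsto_id
  have h1 := ht.eventually (eventually_ge_nhds (show (∫ w, |φ w|) - τ < ∫ w, |φ w| by linarith))
  obtain ⟨K, hK, hK0⟩ := (h1.and (eventually_gt_atTop 0)).exists
  refine ⟨K, hK0, ?_⟩
  have h2 := integral_add_compl (measurableSet_Icc (a := -K) (b := K)) hφ.abs
  rw [intervalIntegral.integral_of_le (by linarith), ← integral_Icc_eq_integral_Ioc] at hK
  linarith

lemma gw_cont {M : ℝ} {φ : ℝ → ℝ} (hc : Continuous φ) {C : ℝ} (hb : ∀ x, |φ x| ≤ C) : Continuous (gw M φ) := by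
  unfold gw
  apply continuous_of_dominated (bound := fun _ => C)
  · intro u; apply Continuous.aestronglyMeasurable; fun_prop
  · intro u; filter_upwards with x; exact hb _
  · exact integrable_const _
  · filter_upwards with x; fun_prop

/-- the edge estimate for a finite measure -/
theorem edge {M K : ℝ} {φ : ℝ → ℝ} (hφ : Integrable φ) (hc : Continuous φ) {C : ℝ} (hb : ∀ x, |φ x| ≤ C)
    (μ : Measure ℝ) [IsFiniteMeasure μ] :
    |(∫ x, gw M φ x ∂μ) - μ.real univ * ∫ s, φ s| ≤ (∫ s in (Icc (-K) K)ᶜ, |φ s|) * μ.real univ +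
      (∫ s, |φ s|) * μ.real (Icc K (M - K))ᶜ := by
  classical
  set τ := ∫ s in (Icc (-K) K)ᶜ, |φ s| with hτ
  set N := ∫ s, |φ s| with hN
  set I := ∫ s, φ s with hI
  have hτ0 : 0 ≤ τ := integral_nonneg fun s => abs_nonneg _
  have hgi : Integrable (gw M φ) μ := by
    apply Integrable.of_bound (C := |I| + N) (gw_cont hc hb).aestronglyMeasurable
    filter_upwards with x
    have := gw_diff_le (M := M) hφ x
    rw [Real.norm_eq_abs]
    have h2 : gw M φ x = (gw M φ x - I) + I := by ring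
    rw [h2]
    refine (abs_add_le _ _).trans ?_
    linarith
  have h1 : (∫ x, gw M φ x ∂μ) - μ.real univ * I = ∫ x, (gw M φ x - I) ∂μ := by
    rw [integral_sub hgi (integrable_const _), integral_const, smul_eq_mul]
  rw [h1]
  have hm : MeasurableSet (Icc K (M - K))ᶜ := measurableSet_Icc.compl
  have hbi : Integrable (fun x => τ + (Icc K (M - K))ᶜ.indicator (fun _ => N) x) μ :=
    (integrable_const _).add ((integrable_const _).indicator hm)
  have h2 : ∫ x, |gw M φ x - I| ∂μ ≤ ∫ x, (τ + (Icc K (M - K))ᶜ.indicator (fun _ => N) x) ∂μ := by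
    apply integral_mono (hgi.sub (integrable_const _)).abs hbi
    intro x
    show |gw M φ x - I| ≤ τ + (Icc K (M - K))ᶜ.indicator (fun _ => N) x
    by_cases hx : x ∈ Icc K (M - K)
    · rw [indicator_of_notMem (by simpa using hx), add_zero]
      exact gw_diff_mid hφ hx
    · rw [indicator_of_mem (by simpa using hx)]
      have := gw_diff_le (M := M) hφ x
      linarith
  have h3 : ∫ x, (τ + (Icc K (M - K))ᶜ.indicator (fun _ => N) x) ∂μ = τ * μ.real univ + N * μ.real (Icc K (M - K))ᶜ := by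
    rw [integral_add (integrable_const _) ((integrable_const _).indicator hm), integral_const, integral_indicator hm,
      setIntegral_const, smul_eq_mul, smul_eq_mul]
    ring
  rw [← h3]
  exact (norm_integral_le_integral_norm (μ := μ) (fun x => gw M φ x - I)).trans h2

end Pool.Agent.Helper4.PC
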