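import Pool.Agent.Helper57.LH.Law
import Pool.Agent.Helper4.PC.CT

namespace Pool.Agent.Helper4.PC

open Set MeasureTheory Filter Topology
open Pool.Agent.Helper57.LH (sc sc_cont sc_even sc_integrable sc_nonneg sc_le_one sc_integral sc_eq sc_zero sc_decay Gm gs gs_eq)

/-- the triangle function -/
noncomputable def tri (ξ : ℝ) : ℝ := max 0 (1 - |ξ|)

lemma tri_cont : Continuous tri := by unfold tri; fun_prop
lemma tri_nonneg (ξ : ℝ) : 0 ≤ tri ξ := le_max_left _ _
lemma tri_le_one (ξ : ℝ) : tri ξ ≤ 1 := by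
  unfold tri
  apply max_le (by norm_num)
  linarith [abs_nonneg ξ]
lemma tri_even (ξ : ℝ) : tri (-ξ) = tri ξ := by unfold tri; rw [abs_neg]
lemma tri_zero_of {ξ : ℝ} (h : 1 ≤ |ξ|) : tri ξ = 0 := by
  unfold tri; rw [max_eq_left]; linarith
lemma tri_of {ξ : ℝ} (h : |ξ| ≤ 1) : tri ξ = 1 - |ξ| := by
  unfold tri; rw [max_eq_right]; linarith

lemma tri_compact : HasCompactSupport tri := by
  apply HasCompactSupport.of_support_subset_isCompact (isCompact_Icc (a := -1) (b := 1))
  intro x hx
  by_contra h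
  apply hx
  apply tri_zero_of
  by_contra h2
  push Not at h2
  exact h (abs_le.mp h2.le)

lemma tri_integrable : Integrable tri := tri_cont.integrable_of_hasCompactSupport tri_compact

lemma CT_tri (u : ℝ) : CT tri u = sc u := by
  unfold CT sc
  have h1 : (fun ξ => tri ξ * Real.cos (2 * Real.pi * u * ξ)) = fun ξ => (fun x => max 0 (1 - x) * Real.cos (2 * Real.pi * u * x)) |ξ| := by
    funext ξ
    unfold tri
    simp only
    congr 1
    rcases abs_choice ξ with h | h
    · rw [h]
    · rw [h, ← Real.cos_neg]; congr 1; ring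
  rw [h1, integral_comp_abs (f := fun x => max 0 (1 - x) * Real.cos (2 * Real.pi * u * x)), gs_eq]
  have h2 : ∫ x in Ioi (0:ℝ), max 0 (1 - x) * Real.cos (2 * Real.pi * u * x) = ∫ x in (0:ℝ)..1, (1 - x) * Real.cos (2 * Real.pi * u * x) := by
    rw [intervalIntegral.integral_of_le zero_le_one]
    rw [setIntegral_eq_of_subset_of_forall_sdiff_eq_zero (s := Ioc 0 1) measurableSet_Ioi Ioc_subset_Ioi_self]
    · apply setIntegral_congr_fun measurableSet_Ioc
      intro x hx
      simp only
      rw [max_eq_right (by linarith [hx.2])]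
    · intro x hx
      have h1 : 0 < x := hx.1
      have h3 : 1 < x := by
        by_contra h4
        push Not at h4
        exact hx.2 ⟨h1, h4⟩
      rw [max_eq_left (by linarith), zero_mul]
  rw [h2]
  have hpi : (2 * Real.pi) ≠ 0 := by positivity
  have h3 := intervalIntegral.integral_comp_mul_left (a := (0:ℝ)) (b := 1) (fun x => (1 - x / (2 * Real.pi)) * (Real.cosh (0 * x) * Real.cos (u * x))) hpi
  rw [mul_zero, mul_one, smul_eq_mul] at h3
  have h4 : ∫ x in (0:ℝ)..(2 * Real.pi), (1 - x / (2 * Real.pi)) * (Real.cosh (0 * x) * Real.cos (u * x)) =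
      (2 * Real.pi) * ∫ x in (0:ℝ)..1, (1 - x) * Real.cos (2 * Real.pi * u * x) := by
    have h5 : ∫ x in (0:ℝ)..1, (1 - x) * Real.cos (2 * Real.pi * u * x) = ∫ x in (0:ℝ)..1, (1 - (2 * Real.pi * x) / (2 * Real.pi)) * (Real.cosh (0 * (2 * Real.pi * x)) * Real.cos (u * (2 * Real.pi * x))) := by
      apply intervalIntegral.integral_congr
      intro x _
      simp only
      rw [zero_mul, Real.cosh_zero, one_mul, mul_div_cancel_left₀ _ hpi]
      congr 2; ring
    rw [h5, h3, ← mul_assoc, mul_inv_cancel₀ hpi, one_mul]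
  rw [h4, ← mul_assoc, div_mul_cancel₀ _ hpi]

lemma CT_tri_fun : CT tri = sc := funext CT_tri

lemma CT_sc (x : ℝ) : CT sc x = tri x := by
  have h := CT_CT tri_cont tri_integrable tri_even (by rw [CT_tri_fun]; exact sc_integrable) x
  rwa [CT_tri_fun] at h

lemma CT_sc_fun : CT sc = tri := funext CT_sc

lemma conv_even_eq {A S : ℝ → ℝ} (hA : Integrable A) (hS : Integrable S) (hSe : ∀ x, S (-x) = S x) (u : ℝ) :
    ∫ s, S s * CT A (u - s) = CT (fun ξ => A ξ * CT S ξ) u := by
  rw [CT_mul_CT hA hS]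
  have h : ∫ s, S s * CT A (-u - s) = ∫ s, S s * CT A (u - s) := by
    rw [← integral_neg_eq_self (fun s => S s * CT A (-u - s)) volume]
    congr 1; funext s
    rw [hSe, ← CT_even A (u - s)]
    congr 2; ring
  rw [h]; ring

lemma CT_tri_sq (y : ℝ) : CT (fun ξ => tri ξ ^ 2) y = Gm y := by
  have h := conv_even_eq tri_integrable sc_integrable sc_even y
  rw [CT_tri_fun, CT_sc_fun] at h
  unfold Gm
  rw [h]
  congr 1; funext ξ; ring

/-- convolution square of the triangle -/
noncomputable def tri2 (y : ℝ) : ℝ := ∫ s, tri s * tri (y - s)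

lemma scsq_integrable : Integrable (fun x => sc x ^ 2) := by
  refine sc_integrable.mono' (sc_cont.pow 2).aestronglyMeasurable ?_
  filter_upwards with x
  rw [Real.norm_of_nonneg (sq_nonneg _)]
  have := sc_le_one x
  have := sc_nonneg x
  nlinarith

lemma CT_scsq (y : ℝ) : CT (fun x => sc x ^ 2) y = tri2 y := by
  have h := conv_even_eq sc_integrable tri_integrable tri_even y
  rw [CT_tri_fun, CT_sc_fun] at h
  unfold tri2
  rw [h]
  congr 1; funext ξ; ring

lemma CT_scsq_fun : CT (fun x => sc x ^ 2) = tri2 := funext CT_scsq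

lemma tri2_nonneg (y : ℝ) : 0 ≤ tri2 y := integral_nonneg fun s => mul_nonneg (tri_nonneg _) (tri_nonneg _)

lemma tri2_zero_of {y : ℝ} (hy : 2 ≤ |y|) : tri2 y = 0 := by
  unfold tri2
  have : ∀ s, tri s * tri (y - s) = 0 := by
    intro s
    rcases le_or_gt 1 |s| with h | h
    · rw [tri_zero_of h, zero_mul]
    · have h2 : 1 ≤ |y - s| := by
        have := abs_sub_abs_le_abs_sub y s
        linarith
      rw [tri_zero_of h2, mul_zero]
  simp_rw [this]
  simp

lemma tri2_cont : Continuous tri2 := by rw [← CT_scsq_fun]; exact CT_cont scsq_integrable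

lemma tri2_compact : HasCompactSupport tri2 := by
  apply HasCompactSupport.of_support_subset_isCompact (isCompact_Icc (a := -2) (b := 2))
  intro x hx
  by_contra h
  apply hx
  apply tri2_zero_of
  by_contra h2
  push Not at h2
  exact h (abs_le.mp h2.le)

lemma tri2_integrable : Integrable tri2 := tri2_cont.integrable_of_hasCompactSupport tri2_compact

lemma tri2_even (y : ℝ) : tri2 (-y) = tri2 y := by rw [← CT_scsq_fun, CT_even]

lemma CT_tri2 (x : ℝ) : CT tri2 x = sc x ^ 2 := by
  have h := CT_CT (A := fun x => sc x ^ 2) (sc_cont.pow 2) scsq_integrable (fun x => by rw [sc_even]) (by rw [CT_scsq_fun]; exact tri2_integrable) x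
  rwa [CT_scsq_fun] at h

lemma tri_integral : ∫ ξ, tri ξ = 1 := by
  have h := CT_tri 0
  rw [sc_zero, integral_CT_zero 0 rfl] at h
  exact h

lemma tri2_le_one (y : ℝ) : tri2 y ≤ 1 := by
  unfold tri2
  rw [← tri_integral]
  apply integral_mono_of_nonneg
  · filter_upwards with s; exact mul_nonneg (tri_nonneg _) (tri_nonneg _)
  · exact tri_integrable
  · filter_upwards with s
    exact mul_le_of_le_one_right (tri_nonneg _) (tri_le_one _)

/-- the kernels B·tri(Bξ)² -/
noncomputable def gh (B ξ : ℝ) : ℝ := B * tri (B * ξ) ^ 2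

lemma gh_nonneg {B : ℝ} (hB : 0 ≤ B) (ξ : ℝ) : 0 ≤ gh B ξ := by unfold gh; positivity

lemma tri_sq_integrable : Integrable (fun ξ => tri ξ ^ 2) := by
  apply (tri_cont.pow 2).integrable_of_hasCompactSupport
  have := tri_compact.comp_left (g := fun x : ℝ => x ^ 2) (by simp)
  exact this

lemma gh_integrable {B : ℝ} (hB : 0 < B) : Integrable (gh B) := by
  unfold gh
  exact (tri_sq_integrable.comp_mul_left' hB.ne').const_mul B

lemma CT_gh {B : ℝ} (hB : 0 < B) (u : ℝ) : CT (gh B) u = Gm (u / B) := by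
  unfold gh
  rw [CT_const_mul, CT_scale (fun ξ => tri ξ ^ 2) hB, CT_tri_sq, ← mul_assoc, mul_one_div, div_self hB.ne', one_mul]

lemma gh_lower {B ξ : ℝ} (hB : 0 < B) (h : |ξ| ≤ 1 / (2 * B)) : B / 4 ≤ gh B ξ := by
  unfold gh
  have h1 : |B * ξ| ≤ 1 / 2 := by
    rw [abs_mul, abs_of_pos hB]
    calc B * |ξ| ≤ B * (1 / (2 * B)) := by gcongr
      _ = 1 / 2 := by field_simp
  have h2 : 1 / 2 ≤ tri (B * ξ) := by rw [tri_of (by linarith)]; linarith
  have h3 : (1 / 2 : ℝ) ^ 2 ≤ tri (B * ξ) ^ 2 := by gcongr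
  nlinarith

end Pool.Agent.Helper4.PC
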