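import Pool.Agent.Helper4.PC.Quad
import Pool.Agent.Helper4.PC.Edge
import Pool.Agent.Helper4.PC.Tri

namespace Pool.Agent.Helper4.PC

open Set MeasureTheory Filter Topology
open Pool.Agent.Helper57.Zeta
open Pool.Agent.Helper57.PC
open Pool.Agent.Helper57.LH (WP)

/-- rescaled ordinates -/
noncomputable def xp (T : ℝ) (ρ : ℂ) : ℝ := ρ.im * Real.log T / (2 * Real.pi)

lemma nd_eq (T : ℝ) (p : ℂ × ℂ) : nd T p = xp T p.1 - xp T p.2 := by
  unfold nd xp; ring

/-- the counting measure of the rescaled ordinates -/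
noncomputable def muT (T : ℝ) : Measure ℝ := ∑ ρ ∈ Zf T, (mult ρ : ENNReal) • Measure.dirac (xp T ρ)

lemma isFinite_smul_dirac (n : ℕ) (x : ℝ) : IsFiniteMeasure ((n : ENNReal) • Measure.dirac x) := by
  constructor
  simp

instance (T : ℝ) : IsFiniteMeasure (muT T) := by
  unfold muT
  constructor
  rw [Measure.coe_finsetSum, Finset.sum_apply]
  apply ENNReal.sum_lt_top.mpr
  intro ρ _
  exact (isFinite_smul_dirac (mult ρ) (xp T ρ)).measure_univ_lt_top

lemma integral_muT (T : ℝ) (f : ℝ → ℝ) : ∫ x, f x ∂(muT T) = ∑ ρ ∈ Zf T, (mult ρ : ℝ) * f (xp T ρ) := by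
  unfold muT
  rw [integral_finsetSum_measure]
  · apply Finset.sum_congr rfl
    intro ρ _
    rw [integral_smul_measure, integral_dirac, smul_eq_mul]
    simp
  · intro ρ _
    apply Integrable.smul_measure
    · exact integrable_dirac (by simp)
    · simp

lemma muT_real (T : ℝ) {s : Set ℝ} (hs : MeasurableSet s) : (muT T).real s = ∑ ρ ∈ Zf T, (mult ρ : ℝ) * s.indicator (fun _ => 1) (xp T ρ) := by
  rw [← integral_muT, integral_indicator hs, setIntegral_const]
  simp

lemma muT_univ (T : ℝ) : (muT T).real univ = NT T := by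
  rw [muT_real T MeasurableSet.univ]
  unfold NT
  simp

lemma II_muT (T : ℝ) (φ : ℝ → ℝ) : II (muT T) (muT T) φ = WP T φ := by
  unfold II WP
  simp_rw [integral_muT]
  rw [Finset.sum_product]
  apply Finset.sum_congr rfl
  intro ρ _
  rw [Finset.mul_sum]
  apply Finset.sum_congr rfl
  intro ρ' _
  rw [nd_eq]
  ring

/-- Lebesgue measure on [0, SN T] -/
noncomputable def nuT (T : ℝ) : Measure ℝ := volume.restrict (Icc 0 (SN T))

instance (T : ℝ) : IsFiniteMeasure (nuT T) := by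
  unfold nuT
  infer_instance

lemma II_mu_nu (T : ℝ) (φ : ℝ → ℝ) : II (muT T) (nuT T) φ = ∫ x, gw (SN T) φ x ∂(muT T) := rfl
lemma II_nu_nu (T : ℝ) (φ : ℝ → ℝ) : II (nuT T) (nuT T) φ = ∫ x, gw (SN T) φ x ∂(nuT T) := rfl

lemma nuT_univ {T : ℝ} (hT : 1 < T) : (nuT T).real univ = SN T := by
  unfold nuT
  have := SN_pos hT
  simp [Measure.real, this.le]

lemma nuT_edge {T K : ℝ} (hK : 0 < K) : (nuT T).real (Icc K (SN T - K))ᶜ ≤ 2 * K := by
  unfold nuT
  rw [measureReal_restrict_apply measurableSet_Icc.compl]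
  have h1 : (Icc K (SN T - K))ᶜ ∩ Icc 0 (SN T) ⊆ Icc 0 K ∪ Icc (SN T - K) (SN T) := by
    rintro x ⟨h1, h2⟩
    rw [mem_compl_iff, mem_Icc, not_and_or, not_le, not_le] at h1
    rcases h1 with h | h
    · left; exact ⟨h2.1, h.le⟩
    · right; exact ⟨h.le, h2.2⟩
  have h2 : volume.real (Icc 0 K ∪ Icc (SN T - K) (SN T)) ≤ volume.real (Icc 0 K) + volume.real (Icc (SN T - K) (SN T)) :=
    measureReal_union_le _ _
  have h3 : volume.real ((Icc K (SN T - K))ᶜ ∩ Icc 0 (SN T)) ≤ volume.real (Icc 0 K ∪ Icc (SN T - K) (SN T)) := by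
    exact measureReal_mono h1 (measure_union_lt_top measure_Icc_lt_top measure_Icc_lt_top).ne
  have h4 : volume.real (Icc 0 K) = K := by simp [Measure.real, hK.le]
  have h5 : volume.real (Icc (SN T - K) (SN T)) = K := by simp [Measure.real, hK.le]
  linarith

lemma SN_tendsto : Tendsto SN atTop atTop := by
  have h1 : Tendsto (fun T : ℝ => T * Real.log T) atTop atTop := tendsto_id.atTop_mul_atTop₀ Real.tendsto_log_atTop
  exact h1.atTop_div_const (by positivity)

lemma SN_sub_one {ε : ℝ} (hε : 0 < ε) : ∀ᶠ T : ℝ in atTop, (1 - ε) * SN T ≤ SN (T - 1) := by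
  filter_upwards [eventually_ge_atTop 4, eventually_ge_atTop (3 / ε)] with T h1 h2
  have hT : 0 < T := by linarith
  have hl1 : 1 ≤ Real.log T := by
    have h5 : Real.log (Real.exp 1) ≤ Real.log T := by
      apply Real.log_le_log (Real.exp_pos 1)
      have := Real.exp_one_lt_d9; linarith
    rwa [Real.log_exp] at h5
  have h3 : Real.log T - 2 / T ≤ Real.log (T - 1) := by
    have h4 : T - 1 = T * (1 - 1 / T) := by field_simp
    have h5 : 0 < 1 - 1 / T := by
      rw [sub_pos, div_lt_one hT]; linarith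
    rw [h4, Real.log_mul hT.ne' h5.ne']
    have h6 := Real.one_sub_inv_le_log_of_pos h5
    have h7 : 1 - (1 - 1 / T)⁻¹ = - (1 / (T - 1)) := by
      have : T - 1 ≠ 0 := by linarith
      rw [show (1 - 1 / T) = (T - 1) / T by field_simp, inv_div]
      field_simp
      ring
    have h8 : 1 / (T - 1) ≤ 2 / T := by
      rw [div_le_div_iff₀ (by linarith) hT]; linarith
    linarith
  unfold SN
  have hpi := Real.pi_pos
  rw [← mul_div_assoc]
  apply div_le_div_of_nonneg_right _ (by positivity)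
  have h4 : (T - 1) * (Real.log T - 2 / T) ≤ (T - 1) * Real.log (T - 1) := by
    apply mul_le_mul_of_nonneg_left h3; linarith
  refine le_trans ?_ h4
  have h5 : (T - 1) * (Real.log T - 2 / T) = T * Real.log T - Real.log T - 2 + 2 / T := by
    field_simp; ring
  rw [h5]
  have h6 : 0 < 2 / T := by positivity
  rw [div_le_iff₀ hε] at h2
  nlinarith

/-- the number of zeros near the two ends is negligible -/
lemma muT_edge {K : ℝ} {δ : ℝ} (hδ : 0 < δ) : ∀ᶠ T : ℝ in atTop, (muT T).real (Icc K (SN T - K))ᶜ ≤ δ * SN T := by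
  obtain ⟨T1, hT1⟩ := NT_upper (δ / 4) (by positivity)
  obtain ⟨T2, hT2⟩ := NT_lower (δ / 4) (by positivity)
  have hpi := Real.pi_pos
  filter_upwards [eventually_ge_atTop T1, eventually_ge_atTop (T2 + 1), eventually_ge_atTop 3,
    Real.tendsto_log_atTop.eventually_ge_atTop (2 * Real.pi * K), SN_sub_one (show 0 < δ / 4 by positivity),
    SN_tendsto.eventually_ge_atTop (4 * NT 1 / δ)] with T h1 h2 h3 h4 h5 h6
  have hlog : 0 < Real.log T := Real.log_pos (by linarith)
  have e1 := hT1 T h1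
  have e2 := hT2 (T - 1) (by linarith)
  change NT T ≤ (1 + δ / 4) * SN T at e1
  change (1 - δ / 4) * SN (T - 1) ≤ NT (T - 1) at e2
  have hS : 0 < SN T := SN_pos (by linarith)
  have hS1 : 0 < SN (T - 1) := SN_pos (by linarith)
  have e3 : NT 1 ≤ δ / 4 * SN T := by
    rw [div_le_iff₀ hδ] at h6; linarith
  -- the edge sum
  have e4 : (muT T).real (Icc K (SN T - K))ᶜ ≤ NT 1 + (NT T - NT (T - 1)) := by
    classical
    rw [muT_real T measurableSet_Icc.compl]
    have s1 : Zf 1 ⊆ Zf T := by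
      intro ρ hρ
      rw [mem_Zf] at hρ ⊢
      exact ⟨hρ.1, hρ.2.1, by linarith [hρ.2.2]⟩
    have s2 : Zf (T - 1) ⊆ Zf T := by
      intro ρ hρ
      rw [mem_Zf] at hρ ⊢
      exact ⟨hρ.1, hρ.2.1, by linarith [hρ.2.2]⟩
    have f1 : NT 1 = ∑ ρ ∈ Zf T, (mult ρ : ℝ) * (if ρ ∈ Zf 1 then 1 else 0) := by
      unfold NT
      rw [← Finset.sum_subset s1 (f := fun ρ => (mult ρ : ℝ) * (if ρ ∈ Zf 1 then 1 else 0))]
      · apply Finset.sum_congr rfl
        intro ρ hρ
        rw [if_pos hρ, mul_one]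
      · intro ρ _ hρ
        rw [if_neg hρ, mul_zero]
    have f2 : NT (T - 1) = ∑ ρ ∈ Zf T, (mult ρ : ℝ) * (if ρ ∈ Zf (T - 1) then 1 else 0) := by
      unfold NT
      rw [← Finset.sum_subset s2 (f := fun ρ => (mult ρ : ℝ) * (if ρ ∈ Zf (T - 1) then 1 else 0))]
      · apply Finset.sum_congr rfl
        intro ρ hρ
        rw [if_pos hρ, mul_one]
      · intro ρ _ hρ
        rw [if_neg hρ, mul_zero]
    rw [f1, f2]
    unfold NT
    rw [← Finset.sum_sub_distrib, ← Finset.sum_add_distrib]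
    apply Finset.sum_le_sum
    intro ρ hρ
    have hm : (0:ℝ) ≤ mult ρ := Nat.cast_nonneg _
    have key : (Icc K (SN T - K))ᶜ.indicator (fun _ => (1:ℝ)) (xp T ρ) ≤ (if ρ ∈ Zf 1 then 1 else 0) + (1 - (if ρ ∈ Zf (T - 1) then 1 else 0)) := by
      rw [mem_Zf] at hρ
      by_cases hx : xp T ρ ∈ (Icc K (SN T - K))ᶜ
      · rw [indicator_of_mem hx]
        rw [mem_compl_iff, mem_Icc, not_and_or, not_le, not_le] at hx
        rcases hx with h | h
        · have hρ1 : ρ.im ≤ 1 := by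
            unfold xp at h
            rw [div_lt_iff₀ (by positivity)] at h
            by_contra hc
            push Not at hc
            nlinarith
          rw [if_pos (mem_Zf.mpr ⟨hρ.1, hρ.2.1, hρ1⟩)]
          split_ifs <;> norm_num
        · have hρ1 : ¬ ρ.im ≤ T - 1 := by
            intro hc
            unfold xp SN at h
            have h7 : ρ.im * Real.log T / (2 * Real.pi) ≤ (T - 1) * Real.log T / (2 * Real.pi) := by gcongr
            have h8 : (T - 1) * Real.log T / (2 * Real.pi) = T * Real.log T / (2 * Real.pi) - Real.log T / (2 * Real.pi) := by ring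
            have h9 : K ≤ Real.log T / (2 * Real.pi) := by
              rw [le_div_iff₀ (by positivity)]; linarith
            linarith
          rw [if_neg (fun h => hρ1 (mem_Zf.mp h).2.2)]
          split_ifs <;> norm_num
      · rw [indicator_of_notMem hx]
        split_ifs <;> norm_num
    calc (mult ρ : ℝ) * (Icc K (SN T - K))ᶜ.indicator (fun _ => (1:ℝ)) (xp T ρ) ≤ (mult ρ : ℝ) * ((if ρ ∈ Zf 1 then 1 else 0) + (1 - (if ρ ∈ Zf (T - 1) then 1 else 0))) := by gcongr
      _ = _ := by ring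
  rcases le_or_gt 1 (δ / 4) with hd | hd
  · have h7 := NT_nonneg (T - 1)
    nlinarith
  · have h7 : (1 - δ / 4) * ((1 - δ / 4) * SN T) ≤ (1 - δ / 4) * SN (T - 1) := by
      apply mul_le_mul_of_nonneg_left h5; linarith
    nlinarith [sq_nonneg (δ / 4)]

/-- The quadratic form is the pair sum minus its mean value, up to o(SN T). -/
theorem QQ_asymp {φ : ℝ → ℝ} (hφ : Integrable φ) (hc : Continuous φ) {C : ℝ} (hb : ∀ x, |φ x| ≤ C) {δ : ℝ} (hδ : 0 < δ) :
    ∀ᶠ T : ℝ in atTop, |QQ (muT T) (nuT T) φ - (WP T φ - SN T * ∫ s, φ s)| ≤ δ * SN T := by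
  set N := ∫ s, |φ s| with hN
  have hN0 : 0 ≤ N := integral_nonneg fun s => abs_nonneg _
  have hI : |∫ s, φ s| ≤ N := norm_integral_le_integral_norm (μ := volume) φ
  set I := ∫ s, φ s with hIdef
  obtain ⟨K, hK, hKt⟩ := exists_tail hφ (show 0 < δ / 20 by positivity)
  set ε := min 1 (δ / (16 * (N + 1))) with hε
  have hε0 : 0 < ε := by rw [hε]; positivity
  have hε1 : ε ≤ 1 := min_le_left _ _
  have hε2 : ε * N ≤ δ / 16 := by
    have : ε ≤ δ / (16 * (N + 1)) := min_le_right _ _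
    rw [le_div_iff₀ (by positivity)] at this
    nlinarith
  obtain ⟨T1, hT1⟩ := NT_upper ε hε0
  obtain ⟨T2, hT2⟩ := NT_lower ε hε0
  filter_upwards [eventually_ge_atTop T1, eventually_ge_atTop T2, eventually_gt_atTop 1, muT_edge (K := K) hε0,
    SN_tendsto.eventually_ge_atTop (16 * K * N / δ)] with T h1 h2 h3 h4 h5
  have e1 := hT1 T h1
  have e2 := hT2 T h2
  change NT T ≤ (1 + ε) * SN T at e1
  change (1 - ε) * SN T ≤ NT T at e2
  have hS := SN_pos h3
  have hNT := NT_nonneg T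
  set M := SN T with hM
  set τ := ∫ s in (Icc (-K) K)ᶜ, |φ s| with hτ
  have hτ0 : 0 ≤ τ := integral_nonneg fun s => abs_nonneg _
  have hE1 := edge (M := M) (K := K) hφ hc hb (muT T)
  have hE2 := edge (M := M) (K := K) hφ hc hb (nuT T)
  rw [muT_univ] at hE1
  rw [nuT_univ h3] at hE2
  have h6 := nuT_edge (T := T) hK
  rw [← hM] at h6
  rw [← hτ, ← hN, ← hIdef] at hE1 hE2
  have hE1' : |(∫ x, gw M φ x ∂(muT T)) - NT T * I| ≤ δ / 10 * M + δ / 16 * M := by
    refine hE1.trans ?_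
    have a1 : τ * NT T ≤ δ / 20 * (2 * M) := by
      apply mul_le_mul hKt _ hNT (by positivity)
      nlinarith
    have a2 : N * (muT T).real (Icc K (M - K))ᶜ ≤ N * (ε * M) := by gcongr
    have a3 : N * (ε * M) = (ε * N) * M := by ring
    have a4 : (ε * N) * M ≤ δ / 16 * M := by gcongr
    linarith
  have hE2' : |(∫ x, gw M φ x ∂(nuT T)) - M * I| ≤ δ / 20 * M + δ / 8 * M := by
    refine hE2.trans ?_
    have a1 : τ * M ≤ δ / 20 * M := by gcongr
    have a2 : N * (nuT T).real (Icc K (M - K))ᶜ ≤ N * (2 * K) := by gcongr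
    have a3 : N * (2 * K) ≤ δ / 8 * M := by
      rw [div_le_iff₀ hδ] at h5; linarith
    linarith
  have hE3 : |(NT T - M) * I| ≤ δ / 16 * M := by
    rw [abs_mul]
    have a1 : |NT T - M| ≤ ε * M := by rw [abs_le]; constructor <;> linarith
    calc |NT T - M| * |I| ≤ (ε * M) * N := by gcongr
      _ = (ε * N) * M := by ring
      _ ≤ _ := by gcongr
  unfold QQ
  rw [II_muT, II_mu_nu, II_nu_nu, ← hM]
  have e3 : WP T φ - 2 * (∫ x, gw M φ x ∂(muT T)) + (∫ x, gw M φ x ∂(nuT T)) - (WP T φ - M * I) =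
      -2 * ((∫ x, gw M φ x ∂(muT T)) - NT T * I) + ((∫ x, gw M φ x ∂(nuT T)) - M * I) - 2 * ((NT T - M) * I) := by ring
  rw [e3]
  have a := abs_le.mp hE1'
  have b := abs_le.mp hE2'
  have c := abs_le.mp hE3
  rw [abs_le]
  have hdM : 0 < δ * M := by positivity
  constructor
  · nlinarith [a.1, a.2, b.1, b.2, c.1, c.2]
  · nlinarith [a.1, a.2, b.1, b.2, c.1, c.2]

end Pool.Agent.Helper4.PC
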