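import Pool.Agent.Helper4.PC.Win
import Pool.Agent.Helper4.PC.Meas

namespace Pool.Agent.Helper4.PC

open Set MeasureTheory Filter Topology
open Pool.Agent.Helper57.LH (Gm Gm_nonneg Gm_even Gm_integral Gm_integrable ic ic_apply ic_nonneg WP WP_mono WP_nonneg WP_add WP_smul WP_neg WP_sum gB gB_cont gB_le gB_nonneg pair_bound pairCount_WP)
open Pool.Agent.Helper57.PC
open Pool.Agent.Helper57.Zeta

lemma CT_gh_fun {B : ℝ} (hB : 0 < B) : CT (gh B) = gB B := funext (CT_gh hB)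

lemma gB_integral {B : ℝ} (hB : 0 < B) : ∫ u, gB B u = B := by
  unfold gB
  rw [Measure.integral_comp_div (fun x => Gm x) B, abs_of_pos hB, smul_eq_mul, Gm_integral, mul_one]

lemma gB_integrable {B : ℝ} (hB : 0 < B) : Integrable (gB B) := by
  unfold gB
  exact Gm_integrable.comp_div hB.ne'

/-- translated kernels are dominated by the central one -/
theorem WP_shift {B : ℝ} (hB : 0 < B) (T v : ℝ) : WP T (fun u => Gm ((u - v) / B)) ≤ WP T (gB B) := by
  have hA : Integrable (fun ξ => gh B ξ * Real.cos (2 * Real.pi * v * ξ)) := CT_int (gh_integrable hB) v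
  have h := II_dom (muT T) hA (gh_integrable hB) (fun ξ => by
    rw [abs_mul, abs_of_nonneg (gh_nonneg hB.le ξ)]
    exact mul_le_of_le_one_right (gh_nonneg hB.le ξ) (Real.abs_cos_le_one _))
  rw [II_muT, II_muT, CT_gh_fun hB] at h
  have h2 : CT (fun ξ => gh B ξ * Real.cos (2 * Real.pi * v * ξ)) = fun u => (1 / 2) * (Gm ((u - v) / B) + Gm ((u + v) / B)) := by
    funext u
    rw [CT_mod (gh_integrable hB), CT_gh hB, CT_gh hB]
  rw [h2, WP_smul, WP_add] at h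
  have h3 : WP T (fun u => Gm ((u + v) / B)) = WP T (fun u => Gm ((u - v) / B)) := by
    rw [← WP_neg T (fun u => Gm ((u + v) / B))]
    congr 1; funext u
    rw [← Gm_even]
    congr 1; ring
  rw [h3] at h
  have h4 := le_abs_self (1 / 2 * (WP T (fun u => Gm ((u - v) / B)) + WP T (fun u => Gm ((u - v) / B))))
  linarith

/-- low frequencies of the discrepancy -/
lemma QQ_gB {C₀ : ℝ} (hpb : ∀ B : ℝ, 9600 ≤ B → ∀ᶠ T : ℝ in atTop, WP T (gB B) ≤ SN T * (B + C₀ / B))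
    {B : ℝ} (hB : 9600 ≤ B) {δ : ℝ} (hδ : 0 < δ) :
    ∀ᶠ T : ℝ in atTop, QQ (muT T) (nuT T) (gB B) ≤ SN T * (C₀ / B + δ) := by
  have hB0 : 0 < B := by linarith
  have h1 := QQ_asymp (φ := gB B) (gB_integrable hB0) (gB_cont B) (C := Gm 0) (fun x => by
    rw [abs_of_nonneg (gB_nonneg B x)]; exact gB_le B x) hδ
  filter_upwards [h1, hpb B hB] with T h2 h3
  rw [gB_integral hB0] at h2
  have h4 := (abs_le.mp h2).2
  linarith

lemma sum_geom (c : ℝ) (hc : 0 ≤ c) (J : ℕ) : ∑ i ∈ Finset.range (J + 1), c / (2 ^ i) ≤ 2 * c := by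
  have h : ∀ J : ℕ, ∑ i ∈ Finset.range (J + 1), c / (2 ^ i) = 2 * c - c / 2 ^ J := by
    intro J
    induction J with
    | zero => simp; ring
    | succ J ih =>
      rw [Finset.sum_range_succ, ih, pow_succ]
      field_simp
      ring
  rw [h]
  have : 0 ≤ c / 2 ^ J := by positivity
  linarith

lemma QQ_sum (μ ν : Measure ℝ) {ι : Type*} (s : Finset ι) [IsFiniteMeasure μ] [IsFiniteMeasure ν] (c : ℝ) (A : ι → ℝ → ℝ) (hA : ∀ i ∈ s, Integrable (A i)) :
    QQ μ ν (CT (fun ξ => ∑ i ∈ s, c * A i ξ)) = ∑ i ∈ s, c * QQ μ ν (CT (A i)) := by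
  rw [QQ_eq μ ν (integrable_finsetSum _ fun i hi => (hA i hi).const_mul c)]
  have h1 : ∀ i ∈ s, c * QQ μ ν (CT (A i)) = ∫ ξ, c * (A i ξ * DD μ ν ξ) := by
    intro i hi
    rw [QQ_eq μ ν (hA i hi), integral_const_mul]
  rw [Finset.sum_congr rfl h1, ← integral_finsetSum _ (fun i hi => (DD_int μ ν (hA i hi)).const_mul c)]
  congr 1; funext ξ
  rw [Finset.sum_mul]
  apply Finset.sum_congr rfl
  intro i _
  ring

/-- The bounded error law for all windows. -/
theorem bounded_error : ∃ C : ℝ, 0 < C ∧ ∀ α β : ℝ, α ≤ β → ∀ᶠ T : ℝ in atTop,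
    |pairCount T α β - (β - α) * SN T| ≤ C * SN T := by
  obtain ⟨C₀, hC₀, hpb⟩ := pair_bound
  have hpb' : ∀ B : ℝ, 9600 ≤ B → ∀ᶠ T : ℝ in atTop, WP T (gB B) ≤ SN T * (B + C₀ / B) := hpb
  set B₀ : ℝ := 9600 with hB₀
  have hB0 : 0 < B₀ := by rw [hB₀]; norm_num
  have hB4 : 0 < 4 * B₀ := by positivity
  have hg := g0_pos
  have hc3 := C3_pos
  refine ⟨2 * C3 * (4 * B₀ + C₀ / (4 * B₀)) + (8 / g0) * (2 * (C₀ / B₀)) + 2, by positivity, fun α β hab => ?_⟩
  obtain ⟨J, hJ⟩ := exists_nat_gt (β - α)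
  have hJ' : β - α ≤ 2 * (2 ^ J * B₀) := by
    have h1 : (J:ℝ) ≤ 2 ^ J := by exact_mod_cast (Nat.lt_two_pow_self).le
    have h2 : (0:ℝ) < 2 ^ J := by positivity
    rw [hB₀]
    nlinarith
  have hpos : ∀ i : ℕ, 0 < 2 ^ i * B₀ := fun i => by positivity
  have hge : ∀ i : ℕ, 9600 ≤ 2 ^ i * B₀ := by
    intro i
    have : (1:ℝ) ≤ 2 ^ i := one_le_pow₀ (by norm_num)
    rw [hB₀]; linarith
  set δ : ℝ := 1 / ((8 / g0) * (J + 1)) with hδ
  have hδ0 : 0 < δ := by rw [hδ]; positivity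
  have hW1 := QQ_asymp (φ := CT (Aw (4 * B₀) α β)) (CT_Aw_integrable hB4 α β) (CT_cont (Aw_integrable hB4 α β))
    (CT_abs_le (Aw_integrable hB4 α β)) one_pos
  have hall : ∀ᶠ T : ℝ in atTop, ∀ i ∈ Finset.range (J + 1), QQ (muT T) (nuT T) (gB (2 ^ i * B₀)) ≤ SN T * (C₀ / (2 ^ i * B₀) + δ) := by
    rw [Filter.eventually_all_finset]
    intro i _
    exact QQ_gB hpb' (hge i) hδ0
  filter_upwards [hW1, hall, hpb' (4 * B₀) (by rw [hB₀]; norm_num), eventually_gt_atTop 1] with T h1 h2 h3 hT1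
  have hS := SN_pos hT1
  rw [CT_Aw_integral hB4 hab] at h1
  -- the smooth part
  have h4 : |QQ (muT T) (nuT T) (CT (Aw (4 * B₀) α β))| ≤ ∑ i ∈ Finset.range (J + 1), (8 / g0) * QQ (muT T) (nuT T) (gB (2 ^ i * B₀)) := by
    have h5 := QQ_dom (muT T) (nuT T) (Aw_integrable hB4 α β)
      (A' := fun ξ => ∑ i ∈ Finset.range (J + 1), (8 / g0) * gh (2 ^ i * B₀) ξ)
      (integrable_finsetSum _ fun i _ => (gh_integrable (hpos i)).const_mul _) (Aw_dom hB0 hab J hJ')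
    rw [QQ_sum _ _ _ _ _ (fun i _ => gh_integrable (hpos i))] at h5
    refine h5.trans (le_of_eq ?_)
    apply Finset.sum_congr rfl
    intro i _
    rw [CT_gh_fun (hpos i)]
  have h5 : ∑ i ∈ Finset.range (J + 1), (8 / g0) * QQ (muT T) (nuT T) (gB (2 ^ i * B₀)) ≤ ((8 / g0) * (2 * (C₀ / B₀)) + 1) * SN T := by
    calc ∑ i ∈ Finset.range (J + 1), (8 / g0) * QQ (muT T) (nuT T) (gB (2 ^ i * B₀))
        ≤ ∑ i ∈ Finset.range (J + 1), (8 / g0) * (SN T * (C₀ / (2 ^ i * B₀) + δ)) := by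
          apply Finset.sum_le_sum
          intro i hi
          have := h2 i hi
          gcongr
      _ = (8 / g0) * SN T * (∑ i ∈ Finset.range (J + 1), (C₀ / B₀) / 2 ^ i) + (8 / g0) * (J + 1) * δ * SN T := by
          rw [Finset.mul_sum]
          have : (8 / g0) * (J + 1) * δ * SN T = ∑ i ∈ Finset.range (J + 1), (8 / g0) * δ * SN T := by
            rw [Finset.sum_const, Finset.card_range, nsmul_eq_mul]; push_cast; ring
          rw [this, ← Finset.sum_add_distrib]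
          apply Finset.sum_congr rfl
          intro i _
          have : C₀ / (2 ^ i * B₀) = (C₀ / B₀) / 2 ^ i := by field_simp
          rw [this]; ring
      _ ≤ (8 / g0) * SN T * (2 * (C₀ / B₀)) + 1 * SN T := by
          have e1 : (8 / g0) * ((J:ℝ) + 1) * δ = 1 := by
            rw [hδ]; field_simp
          rw [e1]
          have := sum_geom (C₀ / B₀) (by positivity) J
          gcongr
      _ = _ := by ring
  have h6 : WP T (CT (Aw (4 * B₀) α β)) = WP T (Wf (4 * B₀) α β) := by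
    have e : CT (Aw (4 * B₀) α β) = fun u => (1 / 2) * (Wf (4 * B₀) α β u + Wf (4 * B₀) α β (-u)) := funext (CT_Aw hB4 α β)
    rw [e, WP_smul, WP_add, WP_neg]; ring
  -- the sharp part
  have h7 : |WP T (ic (Icc α β)) - WP T (Wf (4 * B₀) α β)| ≤ 2 * C3 * (SN T * (4 * B₀ + C₀ / (4 * B₀))) := by
    have e1 : WP T (ic (Icc α β)) - WP T (Wf (4 * B₀) α β) = WP T (fun u => ic (Icc α β) u - Wf (4 * B₀) α β u) := by
      have := WP_add T (fun u => ic (Icc α β) u) (fun u => (-1) * Wf (4 * B₀) α β u)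
      rw [WP_smul] at this
      have e2 : (fun u => ic (Icc α β) u - Wf (4 * B₀) α β u) = fun u => ic (Icc α β) u + (-1) * Wf (4 * B₀) α β u := by
        funext u; ring
      rw [e2, this]; ring
    have e3 : WP T (fun u => C3 * Gm ((u - α) / (4 * B₀)) + C3 * Gm ((u - β) / (4 * B₀))) ≤ 2 * C3 * (SN T * (4 * B₀ + C₀ / (4 * B₀))) := by
      rw [WP_add, WP_smul, WP_smul]
      have a1 := (WP_shift hB4 T α).trans h3
      have a2 := (WP_shift hB4 T β).trans h3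
      have a3 : C3 * WP T (fun u => Gm ((u - α) / (4 * B₀))) ≤ C3 * (SN T * (4 * B₀ + C₀ / (4 * B₀))) := by gcongr
      have a4 : C3 * WP T (fun u => Gm ((u - β) / (4 * B₀))) ≤ C3 * (SN T * (4 * B₀ + C₀ / (4 * B₀))) := by gcongr
      linarith
    rw [e1]
    have hcl := Wf_close hB4 α β
    rw [abs_le]
    constructor
    · have a1 : WP T (fun u => -(C3 * Gm ((u - α) / (4 * B₀)) + C3 * Gm ((u - β) / (4 * B₀)))) ≤ WP T (fun u => ic (Icc α β) u - Wf (4 * B₀) α β u) :=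
        WP_mono (fun u => (abs_le.mp (hcl u)).1)
      have a2 : WP T (fun u => -(C3 * Gm ((u - α) / (4 * B₀)) + C3 * Gm ((u - β) / (4 * B₀)))) = - WP T (fun u => C3 * Gm ((u - α) / (4 * B₀)) + C3 * Gm ((u - β) / (4 * B₀))) := by
        have := WP_smul T (-1) (fun u => C3 * Gm ((u - α) / (4 * B₀)) + C3 * Gm ((u - β) / (4 * B₀)))
        simp only [neg_mul, one_mul] at this
        exact this
      linarith
    · exact (WP_mono (fun u => (abs_le.mp (hcl u)).2)).trans e3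
  rw [pairCount_WP]
  rw [h6] at h1
  have b1 := abs_le.mp h1
  have b2 := abs_le.mp (h4.trans h5)
  have b3 := abs_le.mp h7
  obtain ⟨c1, hc1⟩ : ∃ c, c = 2 * C3 * (4 * B₀ + C₀ / (4 * B₀)) := ⟨_, rfl⟩
  obtain ⟨c2, hc2⟩ : ∃ c, c = (8 / g0) * (2 * (C₀ / B₀)) := ⟨_, rfl⟩
  have hc1' : 2 * C3 * (SN T * (4 * B₀ + C₀ / (4 * B₀))) = c1 * SN T := by rw [hc1]; ring
  rw [hc1'] at b3
  rw [← hc2] at b2
  rw [← hc1, ← hc2]
  rw [abs_le]
  constructor
  · linarith [b1.1, b1.2, b2.1, b2.2, b3.1, b3.2]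
  · linarith [b1.1, b1.2, b2.1, b2.2, b3.1, b3.2]

end Pool.Agent.Helper4.PC
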