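import Pool.Agent.Helper4.PC.Main

namespace Pool.Agent.Helper4.PC

open Set MeasureTheory Filter Topology
open Pool.Agent.Helper57.LH (sc sc_cont sc_even sc_integrable sc_nonneg sc_le_one sc_integral sc_eq sc_zero sc_decay)

/-- the primitive of t·tri(t)² -/
noncomputable def pp (v : ℝ) : ℝ := ∫ t in (0:ℝ)..v, t * tri t ^ 2

lemma pp_integrand_cont : Continuous (fun t : ℝ => t * tri t ^ 2) := by
  have := tri_cont
  fun_prop

lemma pp_nonneg {v : ℝ} (hv : 0 ≤ v) : 0 ≤ pp v :=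
  intervalIntegral.integral_nonneg hv fun t ht => mul_nonneg ht.1 (sq_nonneg _)

lemma pp_le {v : ℝ} (hv : 0 ≤ v) : pp v ≤ v ^ 2 / 2 := by
  have h : pp v ≤ ∫ t in (0:ℝ)..v, t := by
    apply intervalIntegral.integral_mono_on hv (pp_integrand_cont.intervalIntegrable _ _) (continuous_id.intervalIntegrable _ _)
    intro t ht
    have h1 := tri_nonneg t
    have h2 := tri_le_one t
    have h3 : tri t ^ 2 ≤ 1 := by nlinarith
    simp only [id]
    nlinarith [ht.1]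
  rw [integral_id] at h
  linarith

lemma pp_one : pp 1 = 1 / 12 := by
  have h : pp 1 = ∫ t in (0:ℝ)..1, (t - 2 * t ^ 2 + t ^ 3) := by
    unfold pp
    apply intervalIntegral.integral_congr
    intro t ht
    rw [uIcc_of_le zero_le_one] at ht
    simp only
    rw [tri_of (by rw [abs_of_nonneg ht.1]; exact ht.2), abs_of_nonneg ht.1]
    ring
  rw [h]
  rw [intervalIntegral.integral_add, intervalIntegral.integral_sub, intervalIntegral.integral_const_mul, integral_id, integral_pow, integral_pow]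
  · norm_num
  · exact Continuous.intervalIntegrable (by fun_prop) _ _
  · exact Continuous.intervalIntegrable (by fun_prop) _ _
  · exact Continuous.intervalIntegrable (by fun_prop) _ _
  · exact Continuous.intervalIntegrable (by fun_prop) _ _

lemma pp_of_one_le {v : ℝ} (hv : 1 ≤ v) : pp v = 1 / 12 := by
  rw [← pp_one]
  unfold pp
  rw [← intervalIntegral.integral_add_adjacent_intervals (b := 1) (pp_integrand_cont.intervalIntegrable _ _) (pp_integrand_cont.intervalIntegrable _ _)]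
  have h : ∫ t in (1:ℝ)..v, t * tri t ^ 2 = 0 := by
    have h2 : ∫ t in (1:ℝ)..v, t * tri t ^ 2 = ∫ t in (1:ℝ)..v, (0:ℝ) := by
      apply intervalIntegral.integral_congr
      intro t ht
      rw [uIcc_of_le hv] at ht
      simp only
      rw [tri_zero_of (by rw [abs_of_nonneg (by linarith [ht.1])]; exact ht.1)]
      ring
    rw [h2]; simp
  rw [h, add_zero]

/-- superposition of the kernels -/
noncomputable def SX (b₀ X ξ : ℝ) : ℝ := ∫ b in b₀..X, gh b ξ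

lemma gh_cont_b (ξ : ℝ) : Continuous (fun b => gh b ξ) := by
  unfold gh
  have := tri_cont
  fun_prop

lemma gh_abs (b ξ : ℝ) : gh b |ξ| = gh b ξ := by
  unfold gh
  rcases abs_choice ξ with h | h
  · rw [h]
  · rw [h, mul_neg, tri_even]

lemma SX_abs (b₀ X ξ : ℝ) : SX b₀ X |ξ| = SX b₀ X ξ := by
  unfold SX
  simp_rw [gh_abs]

lemma SX_mul_sq {b₀ X y : ℝ} (hy : 0 < y) : SX b₀ X y * y ^ 2 = pp (X * y) - pp (b₀ * y) := by
  unfold SX pp
  rw [intervalIntegral.integral_interval_sub_left (pp_integrand_cont.intervalIntegrable _ _) (pp_integrand_cont.intervalIntegrable _ _)]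
  have h := intervalIntegral.integral_comp_mul_right (a := b₀) (b := X) (fun t => t * tri t ^ 2) hy.ne'
  rw [smul_eq_mul] at h
  have h2 : ∫ t in (b₀ * y)..(X * y), t * tri t ^ 2 = y * ∫ b in b₀..X, (b * y) * tri (b * y) ^ 2 := by
    rw [h, ← mul_assoc, mul_inv_cancel₀ hy.ne', one_mul]
  rw [h2, ← intervalIntegral.integral_const_mul, ← intervalIntegral.integral_mul_const]
  apply intervalIntegral.integral_congr
  intro b _
  simp only
  unfold gh
  ring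

lemma SX_nonneg {b₀ X : ℝ} (hb : 0 ≤ b₀) (hX : b₀ ≤ X) (ξ : ℝ) : 0 ≤ SX b₀ X ξ :=
  intervalIntegral.integral_nonneg hX fun b hb' => gh_nonneg (hb.trans hb'.1) ξ

lemma gh_le {b : ℝ} (hb : 0 ≤ b) (ξ : ℝ) : gh b ξ ≤ b := by
  unfold gh
  have h1 := tri_nonneg (b * ξ)
  have h2 := tri_le_one (b * ξ)
  have h3 : tri (b * ξ) ^ 2 ≤ 1 := by nlinarith
  nlinarith

lemma gh_zero_of {b ξ : ℝ} (hb : 0 < b) (h : 1 / b ≤ |ξ|) : gh b ξ = 0 := by
  unfold gh
  rw [tri_zero_of, zero_pow two_ne_zero, mul_zero]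
  rw [abs_mul, abs_of_pos hb]
  rw [div_le_iff₀ hb] at h
  linarith

lemma SX_le {b₀ X : ℝ} (hb : 0 ≤ b₀) (hX : b₀ ≤ X) (ξ : ℝ) : SX b₀ X ξ ≤ X ^ 2 / 2 := by
  have h : SX b₀ X ξ ≤ ∫ b in b₀..X, b := by
    apply intervalIntegral.integral_mono_on hX ((gh_cont_b ξ).intervalIntegrable _ _) (continuous_id.intervalIntegrable _ _)
    intro b hb'
    exact gh_le (hb.trans hb'.1) ξ
  rw [integral_id] at h
  nlinarith [sq_nonneg b₀]

lemma SX_zero_of {b₀ X ξ : ℝ} (hb : 0 < b₀) (hX : b₀ ≤ X) (h : 1 / b₀ ≤ |ξ|) : SX b₀ X ξ = 0 := by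
  unfold SX
  have h2 : ∫ b in b₀..X, gh b ξ = ∫ b in b₀..X, (0:ℝ) := by
    apply intervalIntegral.integral_congr
    intro b hb'
    rw [uIcc_of_le hX] at hb'
    simp only
    apply gh_zero_of (lt_of_lt_of_le hb hb'.1)
    refine le_trans ?_ h
    exact one_div_le_one_div_of_le hb hb'.1
  rw [h2]; simp

lemma tri2_le_g0 (y : ℝ) : tri2 y ≤ g0 := by
  rw [← CT_scsq]
  refine (le_abs_self _).trans ((CT_abs_le scsq_integrable y).trans (le_of_eq ?_))
  unfold g0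
  congr 1; funext x
  exact abs_of_nonneg (sq_nonneg _)

lemma Ak_nonneg (B ξ : ℝ) : 0 ≤ Ak B ξ := by
  have := g0_pos
  have := tri2_nonneg (B * ξ)
  unfold Ak; positivity

lemma Ak_le_one (B ξ : ℝ) : Ak B ξ ≤ 1 := by
  have := g0_pos
  unfold Ak
  rw [one_div, ← div_eq_inv_mul, div_le_one this]
  exact tri2_le_g0 _

lemma sq_sc_le (x : ℝ) : x ^ 2 * sc x ≤ 1 / Real.pi ^ 2 := by
  have h := sc_mul x
  have h2 : Real.sin (Real.pi * x) ^ 2 ≤ 1 := Real.sin_sq_le_one _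
  rw [le_div_iff₀ (by positivity)]
  calc x ^ 2 * sc x * Real.pi ^ 2 = sc x * (Real.pi * x) ^ 2 := by ring
    _ ≤ 1 := by rw [h]; exact h2

/-- the smoothing kernel is close to one near zero -/
lemma one_sub_Ak (B ξ : ℝ) : 1 - Ak B ξ ≤ 2 * B ^ 2 * ξ ^ 2 / g0 := by
  have hg := g0_pos
  have hpi := Real.pi_pos
  have e1 : Ak B ξ = (1 / g0) * ∫ x, sc x ^ 2 * Real.cos (2 * Real.pi * (B * ξ) * x) := by
    unfold Ak
    rw [← CT_scsq]
    rfl
  have e2 : (1:ℝ) = (1 / g0) * ∫ x, sc x ^ 2 := by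
    change 1 = (1 / g0) * g0
    field_simp
  have i1 := CT_int scsq_integrable (B * ξ)
  have e3 : 1 - Ak B ξ = (1 / g0) * ∫ x, (sc x ^ 2 - sc x ^ 2 * Real.cos (2 * Real.pi * (B * ξ) * x)) := by
    rw [integral_sub scsq_integrable i1, mul_sub, ← e1, ← e2]
  rw [e3]
  have h1 : ∫ x, (sc x ^ 2 - sc x ^ 2 * Real.cos (2 * Real.pi * (B * ξ) * x)) ≤ ∫ x, (2 * B ^ 2 * ξ ^ 2) * sc x := by
    apply integral_mono (scsq_integrable.sub i1) (sc_integrable.const_mul _)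
    intro x
    simp only
    have h2 := Real.one_sub_sq_div_two_le_cos (x := 2 * Real.pi * (B * ξ) * x)
    have h3 := sq_sc_le x
    have h4 := sc_nonneg x
    have h5 : sc x ^ 2 - sc x ^ 2 * Real.cos (2 * Real.pi * (B * ξ) * x) ≤ sc x ^ 2 * ((2 * Real.pi * (B * ξ) * x) ^ 2 / 2) := by
      have : 0 ≤ sc x ^ 2 := sq_nonneg _
      nlinarith
    refine h5.trans ?_
    calc sc x ^ 2 * ((2 * Real.pi * (B * ξ) * x) ^ 2 / 2) = (2 * B ^ 2 * ξ ^ 2) * sc x * (Real.pi ^ 2 * (x ^ 2 * sc x)) := by ring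
      _ ≤ (2 * B ^ 2 * ξ ^ 2) * sc x * (Real.pi ^ 2 * (1 / Real.pi ^ 2)) := by gcongr
      _ = _ := by field_simp
  rw [integral_const_mul, sc_integral, mul_one] at h1
  calc (1 / g0) * ∫ x, (sc x ^ 2 - sc x ^ 2 * Real.cos (2 * Real.pi * (B * ξ) * x)) ≤ (1 / g0) * (2 * B ^ 2 * ξ ^ 2) := by gcongr
    _ = _ := by ring

/-- Fourier side of the smoothed triangle -/
noncomputable def AX (B X ξ : ℝ) : ℝ := Ak B ξ * (X ^ 2 * sc (X * ξ))

noncomputable def Rm (b₀ X ξ : ℝ) : ℝ := AX (2 * b₀) X ξ - (6 / Real.pi ^ 2) * ((1 - Real.cos (2 * Real.pi * X * ξ)) * SX b₀ X ξ)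

noncomputable def CR (b₀ : ℝ) : ℝ := 2 * ((2 * b₀) ^ 2 / (Real.pi ^ 2 * g0) + 3 * b₀ ^ 2 / Real.pi ^ 2)

lemma CR_nonneg (b₀ : ℝ) : 0 ≤ CR b₀ := by
  have := g0_pos
  unfold CR; positivity

lemma Rm_bound {b₀ X : ℝ} (hb : 0 < b₀) (hX : b₀ ≤ X) (ξ : ℝ) :
    |Rm b₀ X ξ| ≤ (8 * CR b₀ / b₀) * gh (b₀ / 2) ξ + (16 * X) * gh (X / 2) ξ := by
  have hg := g0_pos
  have hpi := Real.pi_pos
  have hpi2 : 6 / Real.pi ^ 2 ≤ 1 := by
    rw [div_le_one (by positivity)]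
    nlinarith [Real.pi_gt_three]
  have hX0 : 0 < X := by linarith
  have hCR := CR_nonneg b₀
  have hc1 := Real.cos_le_one (2 * Real.pi * X * ξ)
  have hc2 := Real.neg_one_le_cos (2 * Real.pi * X * ξ)
  have hG1 := gh_nonneg (show 0 ≤ b₀ / 2 by positivity) ξ
  have hG2 := gh_nonneg (show 0 ≤ X / 2 by positivity) ξ
  have hA0 := Ak_nonneg (2 * b₀) ξ
  have hA1 := Ak_le_one (2 * b₀) ξ
  have hS0 := SX_nonneg hb.le hX ξ
  have hS1 := SX_le hb.le hX ξ
  rcases le_or_gt |ξ| (1 / X) with h1 | h1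
  · -- low frequencies
    have h2 := gh_lower (B := X / 2) (ξ := ξ) (by positivity) (by rw [mul_div_cancel₀ _ (two_ne_zero)]; exact h1)
    have h3 : |AX (2 * b₀) X ξ| ≤ X ^ 2 := by
      unfold AX
      have := sc_nonneg (X * ξ)
      have := sc_le_one (X * ξ)
      rw [abs_of_nonneg (by positivity)]
      calc Ak (2 * b₀) ξ * (X ^ 2 * sc (X * ξ)) ≤ 1 * (X ^ 2 * 1) := by gcongr
        _ = _ := by ring
    have h4 : |(6 / Real.pi ^ 2) * ((1 - Real.cos (2 * Real.pi * X * ξ)) * SX b₀ X ξ)| ≤ X ^ 2 := by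
      rw [abs_of_nonneg (by apply mul_nonneg (by positivity); exact mul_nonneg (by linarith) hS0)]
      calc (6 / Real.pi ^ 2) * ((1 - Real.cos (2 * Real.pi * X * ξ)) * SX b₀ X ξ) ≤ 1 * (2 * (X ^ 2 / 2)) := by
            gcongr
            · linarith
        _ = _ := by ring
    have h5 : |Rm b₀ X ξ| ≤ 2 * X ^ 2 := by
      unfold Rm
      refine (abs_sub _ _).trans ?_
      linarith
    have h6 : 2 * X ^ 2 ≤ (16 * X) * gh (X / 2) ξ := by
      calc 2 * X ^ 2 = (16 * X) * (X / 2 / 4) := by ring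
        _ ≤ _ := by gcongr
    have h7 : 0 ≤ (8 * CR b₀ / b₀) * gh (b₀ / 2) ξ := by positivity
    linarith
  · rcases le_or_gt |ξ| (1 / b₀) with h2 | h2
    · -- middle frequencies
      have hy : 0 < |ξ| := lt_trans (by positivity) h1
      have hξ : ξ ≠ 0 := abs_pos.mp hy
      have e1 : SX b₀ X ξ * ξ ^ 2 = 1 / 12 - pp (b₀ * |ξ|) := by
        have h3 := SX_mul_sq (b₀ := b₀) (X := X) hy
        rw [SX_abs, sq_abs, pp_of_one_le] at h3
        · exact h3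
        · rw [div_lt_iff₀ hX0] at h1; linarith
      have e2 : AX (2 * b₀) X ξ * ξ ^ 2 = Ak (2 * b₀) ξ * ((1 - Real.cos (2 * Real.pi * X * ξ)) / (2 * Real.pi ^ 2)) := by
        unfold AX
        have h3 := sc_mul (X * ξ)
        have h4 : Real.sin (Real.pi * (X * ξ)) ^ 2 = (1 - Real.cos (2 * Real.pi * X * ξ)) / 2 := by
          rw [Real.sin_sq_eq_half_sub]
          have : 2 * (Real.pi * (X * ξ)) = 2 * Real.pi * X * ξ := by ring
          rw [this]; ring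
        rw [h4] at h3
        have h5 : X ^ 2 * sc (X * ξ) * ξ ^ 2 = (1 - Real.cos (2 * Real.pi * X * ξ)) / (2 * Real.pi ^ 2) := by
          rw [eq_div_iff (by positivity)]
          calc X ^ 2 * sc (X * ξ) * ξ ^ 2 * (2 * Real.pi ^ 2) = 2 * (sc (X * ξ) * (Real.pi * (X * ξ)) ^ 2) := by ring
            _ = _ := by rw [h3]; ring
        rw [mul_assoc, h5]
      have e3 : Rm b₀ X ξ * ξ ^ 2 = (1 - Real.cos (2 * Real.pi * X * ξ)) * ((Ak (2 * b₀) ξ - 1) / (2 * Real.pi ^ 2) + 6 / Real.pi ^ 2 * pp (b₀ * |ξ|)) := by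
        unfold Rm
        have : (AX (2 * b₀) X ξ - (6 / Real.pi ^ 2) * ((1 - Real.cos (2 * Real.pi * X * ξ)) * SX b₀ X ξ)) * ξ ^ 2 =
          AX (2 * b₀) X ξ * ξ ^ 2 - (6 / Real.pi ^ 2) * ((1 - Real.cos (2 * Real.pi * X * ξ)) * (SX b₀ X ξ * ξ ^ 2)) := by ring
        rw [this, e1, e2]
        field_simp
        ring
      have h3 := one_sub_Ak (2 * b₀) ξ
      have h4 := pp_le (v := b₀ * |ξ|) (by positivity)
      have h5 := pp_nonneg (v := b₀ * |ξ|) (by positivity)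
      have h6 : |(Ak (2 * b₀) ξ - 1) / (2 * Real.pi ^ 2) + 6 / Real.pi ^ 2 * pp (b₀ * |ξ|)| ≤ ((2 * b₀) ^ 2 / (Real.pi ^ 2 * g0) + 3 * b₀ ^ 2 / Real.pi ^ 2) * ξ ^ 2 := by
        refine (abs_add_le _ _).trans ?_
        have a1 : |(Ak (2 * b₀) ξ - 1) / (2 * Real.pi ^ 2)| ≤ (2 * b₀) ^ 2 / (Real.pi ^ 2 * g0) * ξ ^ 2 := by
          rw [abs_div, abs_of_pos (show 0 < 2 * Real.pi ^ 2 by positivity), abs_sub_comm, abs_of_nonneg (by linarith)]
          rw [div_le_iff₀ (by positivity)]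
          refine h3.trans (le_of_eq ?_)
          field_simp
        have a2 : |6 / Real.pi ^ 2 * pp (b₀ * |ξ|)| ≤ 3 * b₀ ^ 2 / Real.pi ^ 2 * ξ ^ 2 := by
          rw [abs_of_nonneg (by positivity)]
          calc 6 / Real.pi ^ 2 * pp (b₀ * |ξ|) ≤ 6 / Real.pi ^ 2 * ((b₀ * |ξ|) ^ 2 / 2) := by gcongr
            _ = _ := by rw [mul_pow, sq_abs]; ring
        linarith
      have h7 : |Rm b₀ X ξ| * ξ ^ 2 ≤ CR b₀ * ξ ^ 2 := by
        rw [← abs_of_nonneg (sq_nonneg ξ), ← abs_mul, e3, abs_mul, abs_of_nonneg (sq_nonneg ξ)]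
        have h8 : |1 - Real.cos (2 * Real.pi * X * ξ)| ≤ 2 := by rw [abs_le]; constructor <;> linarith
        calc |1 - Real.cos (2 * Real.pi * X * ξ)| * |(Ak (2 * b₀) ξ - 1) / (2 * Real.pi ^ 2) + 6 / Real.pi ^ 2 * pp (b₀ * |ξ|)|
            ≤ 2 * (((2 * b₀) ^ 2 / (Real.pi ^ 2 * g0) + 3 * b₀ ^ 2 / Real.pi ^ 2) * ξ ^ 2) := by gcongr
          _ = _ := by unfold CR; ring
      have h8 : |Rm b₀ X ξ| ≤ CR b₀ := le_of_mul_le_mul_right h7 (by positivity)
      have h9 := gh_lower (B := b₀ / 2) (ξ := ξ) (by positivity) (by rw [mul_div_cancel₀ _ (two_ne_zero)]; exact h2)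
      have h10 : CR b₀ ≤ (8 * CR b₀ / b₀) * gh (b₀ / 2) ξ := by
        calc CR b₀ = (8 * CR b₀ / b₀) * (b₀ / 2 / 4) := by field_simp; ring
          _ ≤ _ := by gcongr
      have h11 : 0 ≤ (16 * X) * gh (X / 2) ξ := by positivity
      linarith
    · -- high frequencies
      have h3 : Rm b₀ X ξ = 0 := by
        unfold Rm AX Ak
        rw [SX_zero_of hb hX h2.le, tri2_zero_of]
        · ring
        · rw [abs_mul, abs_of_pos (by positivity)]
          rw [div_lt_iff₀ hb] at h2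
          linarith
      rw [h3, abs_zero]
      positivity

end Pool.Agent.Helper4.PC
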