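import Pool.Agent.Helper4.PC.NVa

namespace Pool.Agent.Helper4.PC

open Set MeasureTheory Filter Topology
open Pool.Agent.Helper57.LH (sc sc_cont sc_even sc_integrable sc_nonneg sc_le_one sc_integral sc_eq sc_zero sc_decay sc_ae
  Gm Gm_nonneg Gm_even Gm_integral Gm_integrable Gm_cont Gm_le WP WP_mono WP_nonneg WP_add WP_smul WP_neg WP_sum gB gB_cont gB_le gB_nonneg pair_bound)
open Pool.Agent.Helper57.PC
open Pool.Agent.Helper57.Zeta

/-- deviation of a pair sum (diagonal included) from the prediction -/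
noncomputable def EE (T : ℝ) (φ : ℝ → ℝ) : ℝ := WP T φ - SN T * (φ 0 + ∫ u, φ u * pcDensity u)

lemma pcDensity_measurable : Measurable pcDensity := by
  have : pcDensity = fun u => 1 - Pool.Agent.Helper57.PC.sq u := by funext u; exact pcDensity_eq u
  rw [this]
  exact measurable_const.sub measurable_sq

lemma phiF_int {φ : ℝ → ℝ} (hφ : Integrable φ) : Integrable (fun u => φ u * pcDensity u) := by
  refine hφ.norm.mono' (hφ.aestronglyMeasurable.mul pcDensity_measurable.aestronglyMeasurable) ?_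
  filter_upwards with u
  rw [norm_mul, Real.norm_of_nonneg (pcDensity_nonneg u)]
  exact mul_le_of_le_one_right (norm_nonneg _) (pcDensity_le_one u)

lemma EE_add (T : ℝ) {φ ψ : ℝ → ℝ} (hφ : Integrable φ) (hψ : Integrable ψ) :
    EE T (fun u => φ u + ψ u) = EE T φ + EE T ψ := by
  unfold EE
  rw [WP_add]
  have : ∫ u, (φ u + ψ u) * pcDensity u = (∫ u, φ u * pcDensity u) + ∫ u, ψ u * pcDensity u := by
    rw [← integral_add (phiF_int hφ) (phiF_int hψ)]
    congr 1; funext u; ring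
  rw [this]; ring

lemma EE_smul (T c : ℝ) (φ : ℝ → ℝ) : EE T (fun u => c * φ u) = c * EE T φ := by
  unfold EE
  rw [WP_smul]
  have : ∫ u, (c * φ u) * pcDensity u = c * ∫ u, φ u * pcDensity u := by
    rw [← integral_const_mul]
    congr 1; funext u; ring
  rw [this]; ring

lemma EE_zero (T : ℝ) : EE T (fun _ => 0) = 0 := by
  have := EE_smul T 0 (fun _ => 0)
  simpa using this

lemma EE_sum (T : ℝ) {ι : Type*} (s : Finset ι) (φ : ι → ℝ → ℝ) (h : ∀ i ∈ s, Integrable (φ i)) :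
    EE T (fun u => ∑ i ∈ s, φ i u) = ∑ i ∈ s, EE T (φ i) := by
  classical
  induction s using Finset.induction_on with
  | empty => simp only [Finset.sum_empty]; exact EE_zero T
  | insert a s ha ih =>
    simp only [Finset.sum_insert ha]
    rw [EE_add T (h a (Finset.mem_insert_self a s)) (integrable_finsetSum _ fun i hi => h i (Finset.mem_insert_of_mem hi)),
      ih (fun i hi => h i (Finset.mem_insert_of_mem hi))]

/-- Parseval for the form factor -/
lemma CT_sc_pair {A : ℝ → ℝ} (hA : Integrable A) : ∫ u, CT A u * sc u = ∫ ξ, A ξ * tri ξ := by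
  have h0 : Integrable (fun p : ℝ × ℝ => sc p.1 * A p.2) (volume.prod volume) := sc_integrable.mul_prod hA
  have e1 : ∀ u, CT A u * sc u = ∫ ξ, sc u * A ξ * Real.cos (2 * Real.pi * u * ξ) := by
    intro u
    unfold CT
    rw [← integral_mul_const]
    congr 1; funext ξ; ring
  have e2 : ∀ ξ, A ξ * tri ξ = ∫ u, sc u * A ξ * Real.cos (2 * Real.pi * u * ξ) := by
    intro ξ
    rw [← CT_sc]
    unfold CT
    rw [← integral_const_mul]
    congr 1; funext u
    have : 2 * Real.pi * ξ * u = 2 * Real.pi * u * ξ := by ring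
    rw [this]; ring
  simp_rw [e1, e2]
  apply integral_integral_swap
  refine h0.norm.mono' ?_ ?_
  · have : (Function.uncurry fun (u ξ : ℝ) => sc u * A ξ * Real.cos (2 * Real.pi * u * ξ)) =
      fun p : ℝ × ℝ => (sc p.1 * A p.2) * Real.cos (2 * Real.pi * p.1 * p.2) := by
      funext p; simp only [Function.uncurry]
    rw [this]
    exact h0.aestronglyMeasurable.mul (Continuous.aestronglyMeasurable (by fun_prop))
  · filter_upwards with p
    simp only [Function.uncurry]
    rw [norm_mul]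
    exact mul_le_of_le_one_right (norm_nonneg _) (norm_cos_le _)

lemma tri_mul_int {A : ℝ → ℝ} (hA : Integrable A) : Integrable (fun ξ => A ξ * tri ξ) := by
  refine hA.norm.mono' (hA.aestronglyMeasurable.mul tri_cont.aestronglyMeasurable) ?_
  filter_upwards with u
  rw [norm_mul, Real.norm_of_nonneg (tri_nonneg u)]
  exact mul_le_of_le_one_right (norm_nonneg _) (tri_le_one u)

/-- the prediction in terms of the form factor -/
lemma pred_eq {A : ℝ → ℝ} (hA : Integrable A) (hC : Integrable (CT A)) :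
    CT A 0 + ∫ u, CT A u * pcDensity u = (∫ u, CT A u) + ∫ ξ, A ξ * (1 - tri ξ) := by
  have h1 : ∫ u, CT A u * pcDensity u = (∫ u, CT A u) - ∫ u, CT A u * sc u := by
    have hs : Integrable (fun u => CT A u * sc u) := by
      refine hC.norm.mono' (hC.aestronglyMeasurable.mul sc_cont.aestronglyMeasurable) ?_
      filter_upwards with u
      rw [norm_mul, Real.norm_of_nonneg (sc_nonneg u)]
      exact mul_le_of_le_one_right (norm_nonneg _) (sc_le_one u)
    rw [← integral_sub hC hs]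
    apply integral_congr_ae
    filter_upwards [sc_ae] with u hu
    rw [pcDensity_eq, hu]; ring
  have h2 : ∫ ξ, A ξ * (1 - tri ξ) = (∫ ξ, A ξ) - ∫ ξ, A ξ * tri ξ := by
    rw [← integral_sub hA (tri_mul_int hA)]
    congr 1; funext ξ; ring
  rw [h1, h2, CT_sc_pair hA, integral_CT_zero 0 rfl]
  ring

/-- EE in terms of the quadratic form -/
lemma EE_QQ {A : ℝ → ℝ} (hA : Integrable A) (hC : Integrable (CT A)) {δ : ℝ} (hδ : 0 < δ) :
    ∀ᶠ T : ℝ in atTop, |EE T (CT A)| ≤ |QQ (muT T) (nuT T) (CT A)| + SN T * |∫ ξ, A ξ * (1 - tri ξ)| + δ * SN T := by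
  filter_upwards [QQ_asymp hC (CT_cont hA) (CT_abs_le hA) hδ, eventually_gt_atTop 1] with T h1 hT1
  have hS := SN_pos hT1
  unfold EE
  rw [pred_eq hA hC]
  set Q := QQ (muT T) (nuT T) (CT A)
  set I := ∫ ξ, A ξ * (1 - tri ξ)
  have e : WP T (CT A) - SN T * ((∫ u, CT A u) + I) = -(Q - (WP T (CT A) - SN T * ∫ s, CT A s)) + Q + -(SN T * I) := by ring
  rw [e]
  refine (abs_add_le _ _).trans ?_
  have h2 := abs_add_le (-(Q - (WP T (CT A) - SN T * ∫ s, CT A s))) Q
  rw [abs_neg] at h2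
  rw [abs_neg, abs_mul, abs_of_pos hS]
  linarith

lemma gh_integral {b : ℝ} (hb : 0 < b) : ∫ ξ, gh b ξ = Gm 0 := by
  have h := CT_gh hb 0
  rw [integral_CT_zero 0 rfl, zero_div] at h
  exact h

lemma Gm_zero_le_one : Gm 0 ≤ 1 := by
  rw [← g0_eq]
  unfold g0
  rw [← sc_integral]
  apply integral_mono scsq_integrable sc_integrable
  intro x
  have := sc_nonneg x
  have := sc_le_one x
  simp only
  nlinarith

lemma one_sub_tri (ξ : ℝ) : 1 - tri ξ ≤ |ξ| := by
  unfold tri
  have := le_max_right 0 (1 - |ξ|)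
  linarith

lemma gh_form {b : ℝ} (hb : 0 < b) (ξ : ℝ) : gh b ξ * (1 - tri ξ) ≤ (1 / b) * gh b ξ := by
  have h0 := gh_nonneg hb.le ξ
  rcases le_or_gt (1 / b) |ξ| with h | h
  · rw [gh_zero_of hb h]; simp
  · have := one_sub_tri ξ
    calc gh b ξ * (1 - tri ξ) ≤ gh b ξ * (1 / b) := by gcongr; linarith
      _ = _ := by ring

lemma form_dom {A A' : ℝ → ℝ} (hA : Integrable A) (hA' : Integrable A') (h : ∀ ξ, |A ξ| ≤ A' ξ) :
    |∫ ξ, A ξ * (1 - tri ξ)| ≤ ∫ ξ, A' ξ * (1 - tri ξ) := by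
  have i1 : ∀ {B : ℝ → ℝ}, Integrable B → Integrable (fun ξ => B ξ * (1 - tri ξ)) := by
    intro B hB
    have := hB.sub (tri_mul_int hB)
    refine this.congr ?_
    filter_upwards with ξ
    simp only [Pi.sub_apply]
    ring
  have h0 := norm_integral_le_integral_norm (μ := volume) (fun ξ => A ξ * (1 - tri ξ))
  refine h0.trans ?_
  apply integral_mono (i1 hA).norm (i1 hA')
  intro ξ
  simp only
  have := tri_le_one ξ
  rw [norm_mul, Real.norm_of_nonneg (show 0 ≤ 1 - tri ξ by linarith)]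
  exact mul_le_mul_of_nonneg_right (h ξ) (by linarith)

/-- domination for EE by two kernels -/
theorem EE_dom {C₀ : ℝ} (hpb : ∀ B : ℝ, 9600 ≤ B → ∀ᶠ T : ℝ in atTop, WP T (gB B) ≤ SN T * (B + C₀ / B))
    {A : ℝ → ℝ} (hA : Integrable A) (hC : Integrable (CT A)) {c c' b b' : ℝ} (hb : 9600 ≤ b) (hb' : 9600 ≤ b') (hc : 0 ≤ c) (hc' : 0 ≤ c')
    (h : ∀ ξ, |A ξ| ≤ c * gh b ξ + c' * gh b' ξ) {δ : ℝ} (hδ : 0 < δ) :
    ∀ᶠ T : ℝ in atTop, |EE T (CT A)| ≤ SN T * (c * (C₀ + 1) / b + c' * (C₀ + 1) / b' + δ) := by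
  have hb0 : 0 < b := by linarith
  have hb0' : 0 < b' := by linarith
  set δ' := δ / (c + c' + 1) with hδ'
  have hd0 : 0 < δ' := by rw [hδ']; positivity
  have hA' : Integrable (fun ξ => c * gh b ξ + c' * gh b' ξ) := ((gh_integrable hb0).const_mul c).add ((gh_integrable hb0').const_mul c')
  filter_upwards [EE_QQ hA hC hd0, QQ_gB hpb hb hd0, QQ_gB hpb hb' hd0, eventually_gt_atTop 1] with T h1 h2 h3 hT1
  have hS := SN_pos hT1
  have h4 := QQ_dom (muT T) (nuT T) hA hA' h
  have h5 : QQ (muT T) (nuT T) (CT (fun ξ => c * gh b ξ + c' * gh b' ξ)) = c * QQ (muT T) (nuT T) (gB b) + c' * QQ (muT T) (nuT T) (gB b') := by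
    rw [QQ_eq _ _ hA', ← CT_gh_fun hb0, ← CT_gh_fun hb0', QQ_eq _ _ (gh_integrable hb0), QQ_eq _ _ (gh_integrable hb0'),
      ← integral_const_mul, ← integral_const_mul, ← integral_add ((DD_int _ _ (gh_integrable hb0)).const_mul c) ((DD_int _ _ (gh_integrable hb0')).const_mul c')]
    congr 1; funext ξ; ring
  rw [h5] at h4
  have h6 := form_dom hA hA' h
  have h7 : ∫ ξ, (c * gh b ξ + c' * gh b' ξ) * (1 - tri ξ) ≤ c / b + c' / b' := by
    have i2 : Integrable (fun ξ => (c / b) * gh b ξ + (c' / b') * gh b' ξ) := ((gh_integrable hb0).const_mul _).add ((gh_integrable hb0').const_mul _)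
    have h8 : ∫ ξ, (c * gh b ξ + c' * gh b' ξ) * (1 - tri ξ) ≤ ∫ ξ, ((c / b) * gh b ξ + (c' / b') * gh b' ξ) := by
      apply integral_mono_of_nonneg
      · filter_upwards with ξ
        have := tri_le_one ξ
        have := gh_nonneg hb0.le ξ
        have := gh_nonneg hb0'.le ξ
        apply mul_nonneg (by positivity) (by linarith)
      · exact i2
      · filter_upwards with ξ
        have a1 := gh_form hb0 ξ
        have a2 := gh_form hb0' ξ
        calc (c * gh b ξ + c' * gh b' ξ) * (1 - tri ξ) = c * (gh b ξ * (1 - tri ξ)) + c' * (gh b' ξ * (1 - tri ξ)) := by ring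
          _ ≤ c * ((1 / b) * gh b ξ) + c' * ((1 / b') * gh b' ξ) := by gcongr
          _ = _ := by ring
    rw [integral_add ((gh_integrable hb0).const_mul _) ((gh_integrable hb0').const_mul _), integral_const_mul, integral_const_mul,
      gh_integral hb0, gh_integral hb0'] at h8
    have hG := Gm_zero_le_one
    have a1 : c / b * Gm 0 ≤ c / b * 1 := by gcongr
    have a2 : c' / b' * Gm 0 ≤ c' / b' * 1 := by gcongr
    linarith
  have h8 : |QQ (muT T) (nuT T) (CT A)| ≤ c * (SN T * (C₀ / b + δ')) + c' * (SN T * (C₀ / b' + δ')) := by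
    refine h4.trans ?_
    gcongr
  have h9 : SN T * |∫ ξ, A ξ * (1 - tri ξ)| ≤ SN T * (c / b + c' / b') := by
    gcongr
    exact h6.trans h7
  refine h1.trans ?_
  have h10 : (c + c' + 1) * δ' = δ := by rw [hδ']; field_simp
  calc |QQ (muT T) (nuT T) (CT A)| + SN T * |∫ ξ, A ξ * (1 - tri ξ)| + δ' * SN T
      ≤ (c * (SN T * (C₀ / b + δ')) + c' * (SN T * (C₀ / b' + δ'))) + SN T * (c / b + c' / b') + δ' * SN T := by linarith
    _ = SN T * (c * (C₀ + 1) / b + c' * (C₀ + 1) / b' + (c + c' + 1) * δ') := by ring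
    _ = _ := by rw [h10]

/-- the kernel law with shifts -/
def KernelLaw (C₁ : ℝ) : Prop := ∀ B : ℝ, 9600 ≤ B → ∀ v : ℝ, ∀ᶠ T : ℝ in atTop, |EE T (fun u => Gm ((u - v) / B))| ≤ SN T * (C₁ / B ^ 2)

lemma Gs_integrable {B : ℝ} (hB : 0 < B) (v : ℝ) : Integrable (fun u => Gm ((u - v) / B)) :=
  (Gm_integrable.comp_div hB.ne').comp_sub_right v

/-- modulated kernels -/
lemma law_mod {C₁ : ℝ} (hK : KernelLaw C₁) {B : ℝ} (hB : 9600 ≤ B) (X : ℝ) :
    ∀ᶠ T : ℝ in atTop, |EE T (CT (fun ξ => (1 - Real.cos (2 * Real.pi * X * ξ)) * gh B ξ))| ≤ SN T * (2 * C₁ / B ^ 2) := by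
  have hB0 : 0 < B := by linarith
  filter_upwards [hK B hB 0, hK B hB X, hK B hB (-X)] with T h1 h2 h3
  have e : CT (fun ξ => (1 - Real.cos (2 * Real.pi * X * ξ)) * gh B ξ) = fun u => (Gm ((u - 0) / B) + (-(1 / 2)) * Gm ((u - X) / B)) + (-(1 / 2)) * Gm ((u - -X) / B) := by
    funext u
    have i1 := gh_integrable hB0
    have i2 := CT_int i1 X
    have e1 : CT (fun ξ => (1 - Real.cos (2 * Real.pi * X * ξ)) * gh B ξ) u = CT (gh B) u - CT (fun ξ => gh B ξ * Real.cos (2 * Real.pi * X * ξ)) u := by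
      unfold CT
      rw [← integral_sub (CT_int i1 u) (CT_int i2 u)]
      congr 1; funext ξ; ring
    rw [e1, CT_mod i1, CT_gh hB0, CT_gh hB0, CT_gh hB0, sub_zero, sub_neg_eq_add]
    ring
  have i0 : Integrable (fun u => Gm ((u - 0) / B) + (-(1 / 2)) * Gm ((u - X) / B)) :=
    (Gs_integrable hB0 0).add ((Gs_integrable hB0 X).const_mul _)
  rw [e, EE_add T i0 ((Gs_integrable hB0 (-X)).const_mul _),
    EE_add T (Gs_integrable hB0 0) ((Gs_integrable hB0 X).const_mul _), EE_smul, EE_smul]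
  have a1 := abs_le.mp h1
  have a2 := abs_le.mp h2
  have a3 := abs_le.mp h3
  have e2 : SN T * (2 * C₁ / B ^ 2) = 2 * (SN T * (C₁ / B ^ 2)) := by ring
  rw [e2, abs_le]
  constructor <;> linarith [a1.1, a1.2, a2.1, a2.2, a3.1, a3.2]

end Pool.Agent.Helper4.PC
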