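import Pool.Agent.Helper4.PC.NVb

namespace Pool.Agent.Helper4.PC

open Set MeasureTheory Filter Topology
open scoped Convolution
open Pool.Agent.Helper57.LH (sc sc_cont sc_even sc_integrable sc_nonneg sc_le_one sc_integral sc_eq sc_zero sc_decay sc_ae
  Gm Gm_nonneg Gm_even Gm_integral Gm_integrable Gm_cont Gm_le WP WP_mono WP_nonneg WP_add WP_smul WP_neg WP_sum gB gB_cont gB_le gB_nonneg pair_bound)
open Pool.Agent.Helper57.PC
open Pool.Agent.Helper57.Zeta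

lemma tri_lip (x y : ℝ) : |tri x - tri y| ≤ |x - y| := by
  unfold tri
  have h2 : |max 0 (1 - |x|) - max 0 (1 - |y|)| ≤ |(1 - |x|) - (1 - |y|)| := abs_max_sub_max_le_max 0 (1 - |x|) 0 (1 - |y|) |>.trans (by simp)
  refine h2.trans ?_
  have : (1 - |x|) - (1 - |y|) = |y| - |x| := by ring
  rw [this]
  refine (abs_abs_sub_abs_le_abs_sub _ _).trans ?_
  rw [abs_sub_comm]

lemma gh_lip_aux {b b' : ℝ} (hb : 0 < b) (hbb : b ≤ b') (ξ : ℝ) : |gh b' ξ - gh b ξ| ≤ 3 * (b' - b) := by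
  have hb' : 0 < b' := by linarith
  rcases le_or_gt (1 / b) |ξ| with h | h
  · rw [gh_zero_of hb h, gh_zero_of hb' ((one_div_le_one_div_of_le hb hbb).trans h)]
    simp only [sub_zero, abs_zero]
    linarith
  · have hbx : b * |ξ| ≤ 1 := by
      rw [lt_div_iff₀ hb] at h; linarith
    unfold gh
    have h1 := tri_lip (b' * ξ) (b * ξ)
    have h2 : |b' * ξ - b * ξ| = (b' - b) * |ξ| := by
      rw [← sub_mul, abs_mul, abs_of_nonneg (by linarith)]
    rw [h2] at h1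
    have t1 := tri_nonneg (b' * ξ)
    have t2 := tri_le_one (b' * ξ)
    have t3 := tri_nonneg (b * ξ)
    have t4 := tri_le_one (b * ξ)
    have e : b' * tri (b' * ξ) ^ 2 - b * tri (b * ξ) ^ 2 = (b' - b) * tri (b' * ξ) ^ 2 + b * ((tri (b' * ξ) - tri (b * ξ)) * (tri (b' * ξ) + tri (b * ξ))) := by ring
    rw [e]
    refine (abs_add_le _ _).trans ?_
    have a1 : |(b' - b) * tri (b' * ξ) ^ 2| ≤ b' - b := by
      rw [abs_of_nonneg (mul_nonneg (by linarith) (sq_nonneg _))]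
      apply mul_le_of_le_one_right (by linarith)
      nlinarith
    have a2 : |b * ((tri (b' * ξ) - tri (b * ξ)) * (tri (b' * ξ) + tri (b * ξ)))| ≤ 2 * (b' - b) := by
      rw [abs_mul, abs_mul, abs_of_pos hb, abs_of_nonneg (show 0 ≤ tri (b' * ξ) + tri (b * ξ) by linarith)]
      calc b * (|tri (b' * ξ) - tri (b * ξ)| * (tri (b' * ξ) + tri (b * ξ))) ≤ b * (((b' - b) * |ξ|) * 2) := by
            gcongr
            linarith
        _ = (b * |ξ|) * (2 * (b' - b)) := by ring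
        _ ≤ 1 * (2 * (b' - b)) := by
            apply mul_le_mul_of_nonneg_right hbx; linarith
        _ = _ := by ring
    linarith

/-- Riemann sums -/
noncomputable def An (b₀ Δ : ℝ) (n : ℕ) (ξ : ℝ) : ℝ := ∑ j ∈ Finset.range n, Δ * gh (b₀ + (j + 1) * Δ) ξ

lemma An_close {b₀ Δ : ℝ} (hb : 0 < b₀) (hΔ : 0 ≤ Δ) (n : ℕ) (ξ : ℝ) :
    |SX b₀ (b₀ + n * Δ) ξ - An b₀ Δ n ξ| ≤ n * (3 * Δ ^ 2) := by
  induction n with
  | zero => unfold SX An; simp
  | succ n ih =>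
    have e1 : SX b₀ (b₀ + ((n + 1 : ℕ) : ℝ) * Δ) ξ = SX b₀ (b₀ + n * Δ) ξ + ∫ b in (b₀ + n * Δ)..(b₀ + ((n + 1 : ℕ) : ℝ) * Δ), gh b ξ := by
      unfold SX
      rw [intervalIntegral.integral_add_adjacent_intervals ((gh_cont_b ξ).intervalIntegrable _ _) ((gh_cont_b ξ).intervalIntegrable _ _)]
    have e2 : An b₀ Δ (n + 1) ξ = An b₀ Δ n ξ + Δ * gh (b₀ + (n + 1) * Δ) ξ := by
      unfold An
      rw [Finset.sum_range_succ]
    have hnn : (0:ℝ) ≤ n := Nat.cast_nonneg n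
    have hle : b₀ + n * Δ ≤ b₀ + ((n + 1 : ℕ) : ℝ) * Δ := by push_cast; nlinarith
    have e3 : |(∫ b in (b₀ + n * Δ)..(b₀ + ((n + 1 : ℕ) : ℝ) * Δ), gh b ξ) - Δ * gh (b₀ + (n + 1) * Δ) ξ| ≤ 3 * Δ ^ 2 := by
      have e4 : Δ * gh (b₀ + (n + 1) * Δ) ξ = ∫ b in (b₀ + n * Δ)..(b₀ + ((n + 1 : ℕ) : ℝ) * Δ), gh (b₀ + (n + 1) * Δ) ξ := by
        rw [intervalIntegral.integral_const, smul_eq_mul]
        push_cast; ring
      rw [e4, ← intervalIntegral.integral_sub ((gh_cont_b ξ).intervalIntegrable _ _) intervalIntegrable_const]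
      have h := intervalIntegral.norm_integral_le_of_norm_le_const (a := b₀ + n * Δ) (b := b₀ + ((n + 1 : ℕ) : ℝ) * Δ)
        (f := fun b => gh b ξ - gh (b₀ + (n + 1) * Δ) ξ) (C := 3 * Δ) (by
          intro b hb2
          rw [uIoc_of_le hle] at hb2
          have hb3 := hb2.2
          push_cast at hb3
          have h5 := gh_lip_aux (b := b) (b' := b₀ + (n + 1) * Δ) (lt_of_le_of_lt (by nlinarith) hb2.1) hb3 ξ
          rw [Real.norm_eq_abs, abs_sub_comm]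
          have := hb2.1
          linarith)
      refine h.trans (le_of_eq ?_)
      rw [abs_of_nonneg (by linarith)]
      push_cast; ring
    rw [e1, e2]
    have e5 : SX b₀ (b₀ + n * Δ) ξ + (∫ b in (b₀ + n * Δ)..(b₀ + ((n + 1 : ℕ) : ℝ) * Δ), gh b ξ) - (An b₀ Δ n ξ + Δ * gh (b₀ + (n + 1) * Δ) ξ) =
      (SX b₀ (b₀ + n * Δ) ξ - An b₀ Δ n ξ) + ((∫ b in (b₀ + n * Δ)..(b₀ + ((n + 1 : ℕ) : ℝ) * Δ), gh b ξ) - Δ * gh (b₀ + (n + 1) * Δ) ξ) := by ring
    rw [e5]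
    refine (abs_add_le _ _).trans ?_
    have e6 : ((n + 1 : ℕ) : ℝ) * (3 * Δ ^ 2) = n * (3 * Δ ^ 2) + 3 * Δ ^ 2 := by push_cast; ring
    rw [e6]
    exact add_le_add ih e3

lemma An_zero_of {b₀ Δ ξ : ℝ} (hb : 0 < b₀) (hΔ : 0 ≤ Δ) (n : ℕ) (h : 1 / b₀ ≤ |ξ|) : An b₀ Δ n ξ = 0 := by
  unfold An
  apply Finset.sum_eq_zero
  intro j _
  have hj : (0:ℝ) ≤ j := Nat.cast_nonneg j
  have h1 : b₀ ≤ b₀ + (j + 1) * Δ := by nlinarith
  rw [gh_zero_of (lt_of_lt_of_le hb h1) ((one_div_le_one_div_of_le hb h1).trans h), mul_zero]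

lemma sum_inv_sq {b₀ Δ : ℝ} (hb : 0 < b₀) (hΔ : 0 ≤ Δ) (n : ℕ) :
    ∑ j ∈ Finset.range n, Δ / (b₀ + (j + 1) * Δ) ^ 2 ≤ 1 / b₀ - 1 / (b₀ + n * Δ) := by
  induction n with
  | zero => simp
  | succ n ih =>
    rw [Finset.sum_range_succ]
    have hn : (0:ℝ) ≤ n := Nat.cast_nonneg n
    have h1 : 0 < b₀ + n * Δ := by positivity
    have h2 : 0 < b₀ + ((n:ℝ) + 1) * Δ := by positivity
    have h3 : Δ / (b₀ + ((n:ℝ) + 1) * Δ) ^ 2 ≤ 1 / (b₀ + n * Δ) - 1 / (b₀ + ((n:ℝ) + 1) * Δ) := by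
      rw [div_sub_div _ _ h1.ne' h2.ne', div_le_div_iff₀ (by positivity) (by positivity)]
      have e : (1 * (b₀ + ((n:ℝ) + 1) * Δ) - (b₀ + n * Δ) * 1) = Δ := by ring
      rw [e]
      have h4 : b₀ + n * Δ ≤ b₀ + ((n:ℝ) + 1) * Δ := by nlinarith
      nlinarith [mul_nonneg hΔ h2.le]
    push_cast
    linarith

/-- the triangle -/
noncomputable def Tr (X u : ℝ) : ℝ := X * tri (u / X)

lemma Tr_integrable {X : ℝ} (hX : 0 < X) : Integrable (Tr X) := (tri_integrable.comp_div hX.ne').const_mul X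

lemma CT_Tr {X : ℝ} (hX : 0 < X) (ξ : ℝ) : CT (Tr X) ξ = X ^ 2 * sc (X * ξ) := by
  have h := CT_scale tri (B := 1 / X) (by positivity) ξ
  have e : (fun ξ => tri (1 / X * ξ)) = fun ξ => tri (ξ / X) := by funext ξ; congr 1; ring
  rw [e] at h
  unfold Tr
  rw [CT_const_mul, h, CT_tri, one_div_one_div, div_div_eq_mul_div, div_one, mul_comm ξ X]
  ring

lemma Tr_even (X u : ℝ) : Tr X (-u) = Tr X u := by unfold Tr; rw [neg_div, tri_even]

lemma AX_eq {B X : ℝ} (hX : 0 < X) : AX B X = fun ξ => Ak B ξ * CT (Tr X) ξ := by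
  funext ξ
  unfold AX
  rw [CT_Tr hX]

lemma AX_integrable {B X : ℝ} (hB : 0 < B) (hX : 0 < X) : Integrable (AX B X) := by
  rw [AX_eq hX]
  refine ((Ak_integrable hB).norm.mul_const (∫ ξ, |Tr X ξ|)).mono'
    ((Ak_integrable hB).aestronglyMeasurable.mul (CT_cont (Tr_integrable hX)).aestronglyMeasurable) ?_
  filter_upwards with ξ
  rw [norm_mul]
  exact mul_le_mul_of_nonneg_left (CT_abs_le (Tr_integrable hX) _) (norm_nonneg _)

lemma CT_AX {B X : ℝ} (hB : 0 < B) (hX : 0 < X) (u : ℝ) : CT (AX B X) u = ∫ s, Tr X s * kk B (u - s) := by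
  rw [AX_eq hX, ← conv_even_eq (Ak_integrable hB) (Tr_integrable hX) (Tr_even X), CT_Ak_fun hB]

lemma CT_AX_integrable {B X : ℝ} (hB : 0 < B) (hX : 0 < X) : Integrable (CT (AX B X)) := by
  have h : CT (AX B X) = (Tr X ⋆[ContinuousLinearMap.mul ℝ ℝ, volume] kk B) := by
    funext u
    rw [CT_AX hB hX, convolution_def]
    rfl
  rw [h]
  exact Integrable.integrable_convolution _ (Tr_integrable hX) (kk_integrable hB)

lemma CT_add {A A' : ℝ → ℝ} (hA : Integrable A) (hA' : Integrable A') (u : ℝ) : CT (fun ξ => A ξ + A' ξ) u = CT A u + CT A' u := by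
  unfold CT
  rw [← integral_add (CT_int hA u) (CT_int hA' u)]
  congr 1; funext ξ; ring

lemma CT_sum {ι : Type*} (s : Finset ι) (A : ι → ℝ → ℝ) (hA : ∀ i ∈ s, Integrable (A i)) (u : ℝ) :
    CT (fun ξ => ∑ i ∈ s, A i ξ) u = ∑ i ∈ s, CT (A i) u := by
  unfold CT
  rw [← integral_finsetSum s (fun i hi => CT_int (hA i hi) u)]
  congr 1; funext ξ
  rw [Finset.sum_mul]

/-- one modulated kernel -/
noncomputable def Mk (X B ξ : ℝ) : ℝ := (1 - Real.cos (2 * Real.pi * X * ξ)) * gh B ξ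

lemma Mk_integrable {X B : ℝ} (hB : 0 < B) : Integrable (Mk X B) := by
  have h := (gh_integrable hB).sub (CT_int (gh_integrable hB) X)
  refine h.congr ?_
  filter_upwards with ξ
  simp only [Pi.sub_apply]
  unfold Mk
  ring

lemma CT_Mk {X B : ℝ} (hB : 0 < B) (u : ℝ) : CT (Mk X B) u = Gm (u / B) - (1 / 2) * (Gm ((u - X) / B) + Gm ((u + X) / B)) := by
  have i1 := gh_integrable hB
  have i2 := CT_int i1 X
  have e1 : CT (Mk X B) u = CT (gh B) u - CT (fun ξ => gh B ξ * Real.cos (2 * Real.pi * X * ξ)) u := by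
    unfold CT Mk
    rw [← integral_sub (CT_int i1 u) (CT_int i2 u)]
    congr 1; funext ξ; ring
  rw [e1, CT_mod i1, CT_gh hB, CT_gh hB, CT_gh hB]

lemma CT_Mk_integrable {X B : ℝ} (hB : 0 < B) : Integrable (CT (Mk X B)) := by
  have h : CT (Mk X B) = fun u => Gm (u / B) - (1 / 2) * (Gm ((u - X) / B) + Gm ((u + X) / B)) := funext (CT_Mk hB)
  rw [h]
  have i3 : Integrable (fun u => Gm ((u + X) / B)) := (Gm_integrable.comp_div hB.ne').comp_add_right X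
  exact (Gm_integrable.comp_div hB.ne').sub (((Gs_integrable hB X).add i3).const_mul _)

/-- The law for the smoothed triangle. -/
theorem smooth_law {C₀ C₁ : ℝ} (hC₀ : 0 < C₀) (hC₁ : 0 < C₁) (hpb : ∀ B : ℝ, 9600 ≤ B → ∀ᶠ T : ℝ in atTop, WP T (gB B) ≤ SN T * (B + C₀ / B))
    (hK : KernelLaw C₁) {X : ℝ} (hX : 19200 < X) :
    ∀ᶠ T : ℝ in atTop, |EE T (CT (AX (2 * 19200) X))| ≤
      SN T * (2 * C₁ / 19200 + (1 + 8 * CR 19200 / 19200) * (C₀ + 1) / 9600 + 32 * (C₀ + 1) + 1) := by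
  set b₀ : ℝ := 19200 with hb₀
  have hb0 : 0 < b₀ := by rw [hb₀]; norm_num
  have hX0 : 0 < X := by linarith
  have hXb : b₀ ≤ X := hX.le
  have hCR := CR_nonneg b₀
  have hpi := Real.pi_pos
  have hpi2 : 6 / Real.pi ^ 2 ≤ 1 := by
    rw [div_le_one (by positivity)]
    nlinarith [Real.pi_gt_three]
  obtain ⟨n, hn⟩ := exists_nat_gt (48 * (X - b₀) ^ 2 / b₀)
  have hn0 : (0:ℝ) < n := lt_of_le_of_lt (by positivity) hn
  set Δ := (X - b₀) / n with hΔ
  have hΔ0 : 0 ≤ Δ := div_nonneg (by linarith) hn0.le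
  have hnΔ : b₀ + n * Δ = X := by rw [hΔ]; field_simp; ring
  have hbj : ∀ j : ℕ, b₀ ≤ b₀ + ((j:ℝ) + 1) * Δ := by
    intro j
    have : (0:ℝ) ≤ j := Nat.cast_nonneg j
    nlinarith
  have hbj0 : ∀ j : ℕ, 0 < b₀ + ((j:ℝ) + 1) * Δ := fun j => lt_of_lt_of_le hb0 (hbj j)
  -- the two parts
  set c : ℝ := 6 / Real.pi ^ 2 with hc
  have hc0 : 0 < c := by rw [hc]; positivity
  set A1 : ℝ → ℝ := fun ξ => ∑ j ∈ Finset.range n, (c * Δ) * Mk X (b₀ + (j + 1) * Δ) ξ with hA1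
  set A2 : ℝ → ℝ := fun ξ => AX (2 * b₀) X ξ - A1 ξ with hA2
  have iM : ∀ j ∈ Finset.range n, Integrable (fun ξ => (c * Δ) * Mk X (b₀ + (j + 1) * Δ) ξ) := fun j _ => (Mk_integrable (hbj0 j)).const_mul _
  have i1 : Integrable A1 := integrable_finsetSum _ iM
  have iX : Integrable (AX (2 * b₀) X) := AX_integrable (by positivity) hX0
  have i2 : Integrable A2 := iX.sub i1
  have eA1 : ∀ ξ, A1 ξ = c * ((1 - Real.cos (2 * Real.pi * X * ξ)) * An b₀ Δ n ξ) := by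
    intro ξ
    rw [hA1]
    simp only
    unfold An Mk
    rw [Finset.mul_sum, Finset.mul_sum]
    apply Finset.sum_congr rfl
    intro j _
    ring
  have hC1 : CT A1 = fun u => ∑ j ∈ Finset.range n, (c * Δ) * CT (Mk X (b₀ + (j + 1) * Δ)) u := by
    funext u
    rw [hA1, CT_sum _ _ iM]
    apply Finset.sum_congr rfl
    intro j _
    rw [CT_const_mul]
  have iC1 : Integrable (CT A1) := by
    rw [hC1]
    exact integrable_finsetSum _ fun j _ => (CT_Mk_integrable (hbj0 j)).const_mul _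
  have hsplit : CT (AX (2 * b₀) X) = fun u => CT A1 u + CT A2 u := by
    funext u
    rw [← CT_add i1 i2]
    congr 1
    funext ξ
    rw [hA2]; ring
  have iCX := CT_AX_integrable (B := 2 * b₀) (by positivity) hX0
  have iC2 : Integrable (CT A2) := by
    have : CT A2 = fun u => CT (AX (2 * b₀) X) u - CT A1 u := by
      funext u
      rw [hsplit]; ring
    rw [this]
    exact iCX.sub iC1
  -- domination of the second part
  have hdom : ∀ ξ, |A2 ξ| ≤ (1 + 8 * CR b₀ / b₀) * gh (b₀ / 2) ξ + (16 * X) * gh (X / 2) ξ := by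
    intro ξ
    have e1 : A2 ξ = Rm b₀ X ξ + c * ((1 - Real.cos (2 * Real.pi * X * ξ)) * (SX b₀ X ξ - An b₀ Δ n ξ)) := by
      rw [hA2]
      simp only
      rw [eA1]
      unfold Rm
      ring
    have h1 := Rm_bound hb0 hXb ξ
    have h2 : |c * ((1 - Real.cos (2 * Real.pi * X * ξ)) * (SX b₀ X ξ - An b₀ Δ n ξ))| ≤ gh (b₀ / 2) ξ := by
      have hg := gh_nonneg (show 0 ≤ b₀ / 2 by positivity) ξ
      rcases le_or_gt (1 / b₀) |ξ| with h3 | h3
      · rw [SX_zero_of hb0 hXb h3, An_zero_of hb0 hΔ0 n h3]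
        simpa using hg
      · have h4 := An_close hb0 hΔ0 n ξ
        rw [hnΔ] at h4
        have h5 : (n:ℝ) * (3 * Δ ^ 2) ≤ b₀ / 16 := by
          rw [hΔ]
          have : (n:ℝ) * (3 * ((X - b₀) / n) ^ 2) = 3 * (X - b₀) ^ 2 / n := by field_simp
          rw [this, div_le_iff₀ hn0]
          rw [div_lt_iff₀ hb0] at hn
          nlinarith
        have h6 := gh_lower (B := b₀ / 2) (ξ := ξ) (by positivity) (by rw [mul_div_cancel₀ _ (two_ne_zero)]; exact h3.le)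
        have h7 : |1 - Real.cos (2 * Real.pi * X * ξ)| ≤ 2 := by
          have := Real.cos_le_one (2 * Real.pi * X * ξ)
          have := Real.neg_one_le_cos (2 * Real.pi * X * ξ)
          rw [abs_le]; constructor <;> linarith
        rw [abs_mul, abs_mul, abs_of_pos hc0]
        calc c * (|1 - Real.cos (2 * Real.pi * X * ξ)| * |SX b₀ X ξ - An b₀ Δ n ξ|) ≤ 1 * (2 * (b₀ / 16)) := by
              gcongr
              exact h4.trans h5
          _ = b₀ / 2 / 4 := by ring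
          _ ≤ _ := h6
    rw [e1]
    refine (abs_add_le _ _).trans ?_
    linarith
  have hE2 := EE_dom hpb i2 iC2 (c := 1 + 8 * CR b₀ / b₀) (c' := 16 * X) (b := b₀ / 2) (b' := X / 2) (by rw [hb₀]; norm_num) (by rw [hb₀] at hXb; linarith) (by positivity) (by positivity) hdom one_pos
  have hE1 : ∀ᶠ T : ℝ in atTop, ∀ j ∈ Finset.range n, |EE T (CT (Mk X (b₀ + (j + 1) * Δ)))| ≤ SN T * (2 * C₁ / (b₀ + (j + 1) * Δ) ^ 2) := by
    rw [Filter.eventually_all_finset]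
    intro j _
    exact law_mod hK (le_trans (by rw [hb₀]; norm_num) (hbj j)) X
  filter_upwards [hE1, hE2, eventually_gt_atTop 1] with T h1 h2 hT1
  have hS := SN_pos hT1
  rw [hsplit, EE_add T iC1 iC2]
  refine (abs_add_le _ _).trans ?_
  have h3 : |EE T (CT A1)| ≤ SN T * (2 * C₁ / b₀) := by
    rw [hC1, EE_sum T _ _ (fun j _ => (CT_Mk_integrable (hbj0 j)).const_mul _)]
    refine (Finset.abs_sum_le_sum_abs _ _).trans ?_
    calc ∑ j ∈ Finset.range n, |EE T (fun u => (c * Δ) * CT (Mk X (b₀ + (j + 1) * Δ)) u)|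
        ≤ ∑ j ∈ Finset.range n, (SN T * (2 * C₁)) * (Δ / (b₀ + (j + 1) * Δ) ^ 2) := by
          apply Finset.sum_le_sum
          intro j hj
          rw [EE_smul, abs_mul, abs_of_nonneg (by positivity)]
          have h4 := h1 j hj
          calc c * Δ * |EE T (CT (Mk X (b₀ + (j + 1) * Δ)))| ≤ 1 * Δ * (SN T * (2 * C₁ / (b₀ + (j + 1) * Δ) ^ 2)) := by gcongr
            _ = _ := by ring
      _ = (SN T * (2 * C₁)) * ∑ j ∈ Finset.range n, (Δ / (b₀ + (j + 1) * Δ) ^ 2) := by rw [Finset.mul_sum]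
      _ ≤ (SN T * (2 * C₁)) * (1 / b₀) := by
          have h5 := sum_inv_sq hb0 hΔ0 n
          have h6 : 0 ≤ 1 / (b₀ + n * Δ) := by rw [hnΔ]; positivity
          gcongr
          linarith
      _ = _ := by ring
  have h4 : (1 + 8 * CR b₀ / b₀) * (C₀ + 1) / (b₀ / 2) + 16 * X * (C₀ + 1) / (X / 2) + 1 = (1 + 8 * CR b₀ / b₀) * (C₀ + 1) / 9600 + 32 * (C₀ + 1) + 1 := by
    have e1 : b₀ / 2 = 9600 := by rw [hb₀]; norm_num
    have e2 : 16 * X * (C₀ + 1) / (X / 2) = 32 * (C₀ + 1) := by field_simp; ring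
    rw [e1, e2]
  rw [h4] at h2
  have h5 : SN T * (2 * C₁ / b₀ + (1 + 8 * CR b₀ / b₀) * (C₀ + 1) / 9600 + 32 * (C₀ + 1) + 1) =
    SN T * (2 * C₁ / b₀) + SN T * ((1 + 8 * CR b₀ / b₀) * (C₀ + 1) / 9600 + 32 * (C₀ + 1) + 1) := by ring
  rw [h5]
  linarith

end Pool.Agent.Helper4.PC
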