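import Pool.Agent.Helper4.PC.Main

namespace Pool.Agent.Helper4.PC

open Set MeasureTheory Filter Topology
open Pool.Agent.Helper57.LH (Gm ic ic_apply ic_nonneg ic_le_one WP WP_mono WP_nonneg WP_add WP_smul pairCount_WP int_F_le int_sq_le_half)
open Pool.Agent.Helper57.PC
open Pool.Agent.Helper57.Zeta

/-- uniform version -/
theorem bounded_error_unif : ∃ C : ℝ, 0 < C ∧ ∀ R : ℝ, ∀ᶠ T : ℝ in atTop, ∀ α β : ℝ, -R ≤ α → α ≤ β → β ≤ R →
    |pairCount T α β - (β - α) * SN T| ≤ C * SN T := by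
  obtain ⟨C, hC, h⟩ := bounded_error
  refine ⟨C + 2, by linarith, fun R => ?_⟩
  obtain ⟨n, hn⟩ := exists_nat_gt R
  have hall : ∀ᶠ T : ℝ in atTop, ∀ i ∈ Finset.Icc (-(n:ℤ) - 1) (n + 1), ∀ j ∈ Finset.Icc (-(n:ℤ) - 1) (n + 1), (i:ℝ) ≤ j →
      |pairCount T i j - ((j:ℝ) - i) * SN T| ≤ C * SN T := by
    rw [Filter.eventually_all_finset]
    intro i _
    rw [Filter.eventually_all_finset]
    intro j _
    by_cases hij : (i:ℝ) ≤ j
    · filter_upwards [h i j hij] with T hT _ using hT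
    · filter_upwards with T hT using absurd hT hij
  filter_upwards [hall, eventually_gt_atTop 1] with T hT hT1 α β hα hαβ hβ
  have hS := SN_pos hT1
  have m1 : ⌊α⌋ ∈ Finset.Icc (-(n:ℤ) - 1) (n + 1) := by
    rw [Finset.mem_Icc]
    constructor
    · rw [Int.le_floor]; push_cast; linarith
    · have : (⌊α⌋:ℝ) ≤ ((n:ℤ) + 1 : ℤ) := by push_cast; linarith [Int.floor_le α]
      exact_mod_cast this
  have m2 : ⌈β⌉ ∈ Finset.Icc (-(n:ℤ) - 1) (n + 1) := by
    rw [Finset.mem_Icc]
    constructor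
    · have : ((-(n:ℤ) - 1 : ℤ) : ℝ) ≤ (⌈β⌉:ℝ) := by push_cast; linarith [Int.le_ceil β]
      exact_mod_cast this
    · rw [Int.ceil_le]; push_cast; linarith
  have m3 : ⌈α⌉ ∈ Finset.Icc (-(n:ℤ) - 1) (n + 1) := by
    rw [Finset.mem_Icc]
    constructor
    · have : ((-(n:ℤ) - 1 : ℤ) : ℝ) ≤ (⌈α⌉:ℝ) := by push_cast; linarith [Int.le_ceil α]
      exact_mod_cast this
    · rw [Int.ceil_le]; push_cast; linarith
  have m4 : ⌊β⌋ ∈ Finset.Icc (-(n:ℤ) - 1) (n + 1) := by
    rw [Finset.mem_Icc]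
    constructor
    · rw [Int.le_floor]; push_cast; linarith
    · have : (⌊β⌋:ℝ) ≤ ((n:ℤ) + 1 : ℤ) := by push_cast; linarith [Int.floor_le β]
      exact_mod_cast this
  have f1 := Int.floor_le α
  have f2 := Int.lt_floor_add_one α
  have f3 := Int.le_ceil β
  have f4 := Int.ceil_lt_add_one β
  have f5 := Int.le_ceil α
  have f6 := Int.ceil_lt_add_one α
  have f7 := Int.floor_le β
  have f8 := Int.lt_floor_add_one β
  have hup : pairCount T α β ≤ ((β - α) + 2 + C) * SN T := by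
    have h1 := hT _ m1 _ m2 (by linarith)
    have h2 := pairCount_mono T f1 f3
    have h3 := (abs_le.mp h1).2
    have h4 : ((⌈β⌉:ℝ) - ⌊α⌋) * SN T ≤ ((β - α) + 2) * SN T := by
      apply mul_le_mul_of_nonneg_right _ hS.le
      linarith
    linarith
  have hlo : ((β - α) - 2 - C) * SN T ≤ pairCount T α β := by
    by_cases hc : (⌈α⌉:ℝ) ≤ ⌊β⌋
    · have h1 := hT _ m3 _ m4 hc
      have h2 := pairCount_mono T f5 f7
      have h3 := (abs_le.mp h1).1
      have h4 : ((β - α) - 2) * SN T ≤ ((⌊β⌋:ℝ) - ⌈α⌉) * SN T := by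
        apply mul_le_mul_of_nonneg_right _ hS.le
        linarith
      linarith
    · push Not at hc
      have h1 : β - α < 2 := by linarith
      have h2 := pairCount_nonneg T α β
      have h3 : ((β - α) - 2 - C) * SN T ≤ 0 := by
        apply mul_nonpos_of_nonpos_of_nonneg _ hS.le
        linarith
      linarith
  rw [abs_le]
  constructor <;> nlinarith

lemma int_F_close {α β : ℝ} (hα : 0 ≤ α) (hαβ : α ≤ β) : |(∫ u in α..β, pcDensity u) - (β - α)| ≤ 1 / 2 := by
  have h1 := int_sq_le_half hα hαβ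
  have h2 : ∫ u in α..β, pcDensity u = (β - α) - ∫ u in α..β, Pool.Agent.Helper57.PC.sq u := by
    have h3 : ∫ u in α..β, pcDensity u = ∫ u in α..β, (1 - Pool.Agent.Helper57.PC.sq u) := by
      apply intervalIntegral.integral_congr
      intro u _
      exact pcDensity_eq u
    rw [h3, intervalIntegral.integral_sub intervalIntegrable_const (intervalIntegrable_sq α β)]
    simp
  have h4 : 0 ≤ ∫ u in α..β, Pool.Agent.Helper57.PC.sq u := intervalIntegral.integral_nonneg hαβ fun u _ => Pool.Agent.Helper57.PC.sq_nonneg' u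
  rw [h2, abs_le]
  constructor <;> linarith

/-! averages over the position of the window -/

lemma ic_shift (s ℓ u : ℝ) : ic (Icc s (s + ℓ)) u = ic (Icc 0 ℓ) (u - s) := by
  classical
  rw [ic_apply, ic_apply]
  congr 1
  rw [eq_iff_iff, mem_Icc, mem_Icc]
  constructor
  · rintro ⟨h1, h2⟩; constructor <;> linarith
  · rintro ⟨h1, h2⟩; constructor <;> linarith

lemma ic_measurable {a b : ℝ} : Measurable (ic (Icc a b)) := measurable_const.indicator measurableSet_Icc

lemma ic_ii {a b : ℝ} (u c d : ℝ) : IntervalIntegrable (fun s => ic (Icc a b) (u - s)) volume c d := by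
  rw [intervalIntegrable_iff]
  unfold uIoc
  apply Integrable.of_bound (C := 1)
  · exact (ic_measurable.comp (by fun_prop)).aestronglyMeasurable
  · filter_upwards with x
    rw [Real.norm_of_nonneg (ic_nonneg _ _)]
    exact ic_le_one _ _

lemma ii_eq {a b : ℝ} (hab : a ≤ b) (g : ℝ → ℝ) : ∫ s in a..b, g s = ∫ s, ic (Icc a b) s * g s := by
  classical
  rw [intervalIntegral.integral_of_le hab, ← integral_Icc_eq_integral_Ioc, ← integral_indicator measurableSet_Icc]
  congr 1; funext s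
  rw [ic_apply, indicator_apply]
  split_ifs <;> simp

lemma swap_len {a X ℓ : ℝ} (hX : 0 ≤ X) (hℓ : 0 ≤ ℓ) (u : ℝ) :
    ∫ s in a..(a + X), ic (Icc s (s + ℓ)) u = ∫ s in (0:ℝ)..ℓ, ic (Icc (a + s) (a + s + X)) u := by
  have e1 : ∀ s, ic (Icc s (s + ℓ)) u = ic (Icc 0 ℓ) (u - s) := fun s => ic_shift s ℓ u
  have e2 : ∀ s, ic (Icc (a + s) (a + s + X)) u = ic (Icc a (a + X)) (u - s) := by
    intro s
    classical
    rw [ic_apply, ic_apply]
    congr 1
    rw [eq_iff_iff, mem_Icc, mem_Icc]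
    constructor
    · rintro ⟨h1, h2⟩; constructor <;> linarith
    · rintro ⟨h1, h2⟩; constructor <;> linarith
  simp_rw [e1, e2]
  rw [ii_eq (by linarith), ii_eq hℓ]
  rw [← integral_sub_left_eq_self (fun s => ic (Icc 0 ℓ) s * ic (Icc a (a + X)) (u - s)) volume u]
  congr 1; funext s
  rw [sub_sub_cancel]; ring

lemma integral_WP (T : ℝ) {c d : ℝ} (f : ℝ → ℝ → ℝ) (hf : ∀ u, IntervalIntegrable (fun s => f s u) volume c d) :
    ∫ s in c..d, WP T (f s) = WP T (fun u => ∫ s in c..d, f s u) := by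
  unfold Pool.Agent.Helper57.LH.WP
  rw [intervalIntegral.integral_finsetSum]
  · apply Finset.sum_congr rfl
    intro p _
    rw [intervalIntegral.integral_const_mul]
  · intro p _
    exact (hf _).const_mul _

lemma swap_pair {a X ℓ : ℝ} (hX : 0 ≤ X) (hℓ : 0 ≤ ℓ) (T : ℝ) :
    ∫ s in a..(a + X), pairCount T s (s + ℓ) = ∫ s in (0:ℝ)..ℓ, pairCount T (a + s) (a + s + X) := by
  have e1 : ∀ s, pairCount T s (s + ℓ) = WP T (fun u => ic (Icc s (s + ℓ)) u) := fun s => pairCount_WP T s (s + ℓ)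
  have e2 : ∀ s, pairCount T (a + s) (a + s + X) = WP T (fun u => ic (Icc (a + s) (a + s + X)) u) := fun s => pairCount_WP T _ _
  simp_rw [e1, e2]
  rw [integral_WP T (fun s u => ic (Icc s (s + ℓ)) u), integral_WP T (fun s u => ic (Icc (a + s) (a + s + X)) u)]
  · congr 1; funext u
    exact swap_len hX hℓ u
  · intro u
    have e : (fun s => ic (Icc (a + s) (a + s + X)) u) = fun s => ic (Icc 0 X) ((u - a) - s) := by
      funext s
      rw [ic_shift]
      congr 1; ring
    rw [e]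
    exact ic_ii _ _ _
  · intro u
    have e : (fun s => ic (Icc s (s + ℓ)) u) = fun s => ic (Icc 0 ℓ) (u - s) := by
      funext s
      rw [ic_shift]
    rw [e]
    exact ic_ii _ _ _

lemma mean_F {a X ℓ : ℝ} (ha : 0 ≤ a) (hX : 0 ≤ X) (hℓ : 0 ≤ ℓ) :
    |(∫ s in a..(a + X), ∫ u in s..(s + ℓ), pcDensity u) - X * ℓ| ≤ ℓ := by
  have e1 : ∀ s : ℝ, ∫ u in s..(s + ℓ), pcDensity u = ℓ - ∫ t in (0:ℝ)..ℓ, Pool.Agent.Helper57.LH.sc (s + t) := by
    intro s
    rw [integral_pcDensity, ← Pool.Agent.Helper57.LH.sc_interval]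
    have := intervalIntegral.integral_comp_add_left (a := (0:ℝ)) (b := ℓ) (fun x => Pool.Agent.Helper57.LH.sc x) s
    rw [this, add_zero]
    ring
  have hc := Pool.Agent.Helper57.LH.sc_cont
  have hsw : ∫ s in a..(a + X), ∫ t in (0:ℝ)..ℓ, Pool.Agent.Helper57.LH.sc (s + t) = ∫ t in (0:ℝ)..ℓ, ∫ s in a..(a + X), Pool.Agent.Helper57.LH.sc (s + t) := by
    apply intervalIntegral_intervalIntegral_swap
    have : Continuous (Function.uncurry fun s t : ℝ => Pool.Agent.Helper57.LH.sc (s + t)) := by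
      apply hc.comp; fun_prop
    have h2 := this.continuousOn.integrableOn_compact (μ := volume) ((isCompact_uIcc (a := a) (b := a + X)).prod (isCompact_uIcc (a := (0:ℝ)) (b := ℓ)))
    exact h2.mono_set (prod_mono uIoc_subset_uIcc uIoc_subset_uIcc)
  have hin : ∀ t ∈ Icc (0:ℝ) ℓ, (∫ s in a..(a + X), Pool.Agent.Helper57.LH.sc (s + t)) ≤ 1 / 2 ∧ 0 ≤ (∫ s in a..(a + X), Pool.Agent.Helper57.LH.sc (s + t)) := by
    intro t ht
    have h1 := intervalIntegral.integral_comp_add_right (a := a) (b := a + X) (fun x => Pool.Agent.Helper57.LH.sc x) t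
    rw [h1, Pool.Agent.Helper57.LH.sc_interval]
    refine ⟨int_sq_le_half (by linarith [ht.1]) (by linarith), ?_⟩
    exact intervalIntegral.integral_nonneg (by linarith) fun u _ => Pool.Agent.Helper57.PC.sq_nonneg' u
  have hcont : Continuous (fun t => ∫ s in a..(a + X), Pool.Agent.Helper57.LH.sc (s + t)) := by
    apply intervalIntegral.continuous_parametric_intervalIntegral_of_continuous'
    apply hc.comp; fun_prop
  have hcont2 : Continuous (fun s => ∫ t in (0:ℝ)..ℓ, Pool.Agent.Helper57.LH.sc (s + t)) := by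
    apply intervalIntegral.continuous_parametric_intervalIntegral_of_continuous'
    apply hc.comp; fun_prop
  have hle : ∫ t in (0:ℝ)..ℓ, ∫ s in a..(a + X), Pool.Agent.Helper57.LH.sc (s + t) ≤ ∫ t in (0:ℝ)..ℓ, (1/2 : ℝ) :=
    intervalIntegral.integral_mono_on hℓ (hcont.intervalIntegrable _ _) intervalIntegrable_const (fun t ht => (hin t ht).1)
  have hge : 0 ≤ ∫ t in (0:ℝ)..ℓ, ∫ s in a..(a + X), Pool.Agent.Helper57.LH.sc (s + t) :=
    intervalIntegral.integral_nonneg hℓ fun t ht => (hin t ht).2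
  rw [intervalIntegral.integral_const, smul_eq_mul] at hle
  simp_rw [e1]
  rw [intervalIntegral.integral_sub intervalIntegrable_const (hcont2.intervalIntegrable _ _), hsw, intervalIntegral.integral_const, smul_eq_mul]
  rw [abs_le]
  constructor
  · linarith
  · linarith

/-- the final statement -/
theorem final : ∃ C : ℝ, 0 < C ∧
    (∀ R : ℝ, ∀ᶠ T : ℝ in atTop, ∀ α β : ℝ, 0 < α → α < β → β ≤ R →
      |pairCount T α β - SN T * ∫ u in α..β, pcDensity u| ≤ C * SN T) ∧
    (∀ R : ℝ, ∀ᶠ T : ℝ in atTop, ∀ a X ℓ : ℝ, 0 < a → 0 < X → 0 < ℓ → a + X + ℓ ≤ R →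
      |(∫ s in a..(a + X), pairCount T s (s + ℓ)) / X -
        SN T * ((∫ s in a..(a + X), ∫ u in s..(s + ℓ), pcDensity u) / X)| ≤ C * (ℓ / X) * SN T) := by
  obtain ⟨C, hC, h⟩ := bounded_error_unif
  refine ⟨C + 1, by linarith, fun R => ?_, fun R => ?_⟩
  · filter_upwards [h R, eventually_gt_atTop 1] with T hT hT1 α β hα hαβ hβ
    have hS := SN_pos hT1
    have h1 := abs_le.mp (hT α β (by linarith) hαβ.le hβ)
    have h2 := abs_le.mp (int_F_close hα.le hαβ.le)
    rw [abs_le]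
    constructor
    · nlinarith [h1.1, h1.2, h2.1, h2.2]
    · nlinarith [h1.1, h1.2, h2.1, h2.2]
  · filter_upwards [h R, eventually_gt_atTop 1] with T hT hT1 a X ℓ ha hX hℓ hR
    have hS := SN_pos hT1
    rw [swap_pair hX.le hℓ.le]
    have h2 := abs_le.mp (mean_F ha.le hX.le hℓ.le)
    have hi : ∀ c d : ℝ, IntervalIntegrable (fun s => pairCount T (a + s) (a + s + X)) volume c d := by
      intro c d
      have e2 : (fun s => pairCount T (a + s) (a + s + X)) = fun s => ∑ p ∈ Zf T ×ˢ Zf T, (mult p.1 : ℝ) * (mult p.2 : ℝ) * ic (Icc 0 X) ((nd T p - a) - s) := by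
        funext s
        rw [pairCount_WP]
        unfold Pool.Agent.Helper57.LH.WP
        apply Finset.sum_congr rfl
        intro p _
        rw [ic_shift]
        congr 2; ring
      rw [e2]
      have h5 := IntervalIntegrable.sum (μ := volume) (a := c) (b := d) (Zf T ×ˢ Zf T) (f := fun (p : ℂ × ℂ) (s : ℝ) => (mult p.1 : ℝ) * (mult p.2 : ℝ) * ic (Icc 0 X) ((nd T p - a) - s))
        (fun p _ => (ic_ii _ _ _).const_mul _)
      refine h5.congr ?_
      intro s _
      simp
    have hb : ∀ s ∈ Icc (0:ℝ) ℓ, (X - C) * SN T ≤ pairCount T (a + s) (a + s + X) ∧ pairCount T (a + s) (a + s + X) ≤ (X + C) * SN T := by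
      intro s hs
      have h3 := abs_le.mp (hT (a + s) (a + s + X) (by linarith [hs.1]) (by linarith) (by linarith [hs.2]))
      have h4 : a + s + X - (a + s) = X := by ring
      rw [h4] at h3
      constructor <;> linarith [h3.1, h3.2]
    have hup : ∫ s in (0:ℝ)..ℓ, pairCount T (a + s) (a + s + X) ≤ ∫ s in (0:ℝ)..ℓ, (X + C) * SN T :=
      intervalIntegral.integral_mono_on hℓ.le (hi _ _) intervalIntegrable_const (fun s hs => (hb s hs).2)
    have hlo : ∫ s in (0:ℝ)..ℓ, (X - C) * SN T ≤ ∫ s in (0:ℝ)..ℓ, pairCount T (a + s) (a + s + X) :=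
      intervalIntegral.integral_mono_on hℓ.le intervalIntegrable_const (hi _ _) (fun s hs => (hb s hs).1)
    rw [intervalIntegral.integral_const, smul_eq_mul, sub_zero] at hup hlo
    set I := ∫ s in (0:ℝ)..ℓ, pairCount T (a + s) (a + s + X) with hI
    set J := ∫ s in a..(a + X), ∫ u in s..(s + ℓ), pcDensity u with hJ
    have e3 : I / X - SN T * (J / X) = (I - SN T * J) / X := by ring
    rw [e3, abs_div, abs_of_pos hX]
    have e4 : (C + 1) * (ℓ / X) * SN T = ((C + 1) * ℓ * SN T) / X := by ring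
    rw [e4]
    apply div_le_div_of_nonneg_right _ hX.le
    rw [abs_le]
    have a1 : SN T * (J - X * ℓ) ≤ SN T * ℓ := by gcongr; exact h2.2
    have a2 : SN T * (-ℓ) ≤ SN T * (J - X * ℓ) := by gcongr; exact h2.1
    constructor
    · nlinarith
    · nlinarith

end Pool.Agent.Helper4.PC
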