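import Pool.Agent.Helper4.PC.NVc
import Pool.Agent.Helper4.PC.Unif

namespace Pool.Agent.Helper4.PC

open Set MeasureTheory Filter Topology
open scoped Convolution
open Pool.Agent.Helper57.LH (sc sc_cont sc_even sc_integrable sc_nonneg sc_le_one sc_integral sc_eq sc_zero sc_decay sc_ae
  Gm Gm_nonneg Gm_even Gm_integral Gm_integrable Gm_cont Gm_le WP WP_mono WP_nonneg WP_add WP_smul WP_neg WP_sum gB gB_cont gB_le gB_nonneg pair_bound ic ic_apply ic_nonneg ic_le_one pairCount_WP)
open Pool.Agent.Helper57.PC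
open Pool.Agent.Helper57.Zeta

lemma kk_le {B : ℝ} (hB : 0 < B) (s : ℝ) : kk B s ≤ (25 / (g0 * B)) * (1 + (s / B) ^ 2)⁻¹ ^ 2 := by
  have hg := g0_pos
  have hpi := Real.pi_gt_three
  unfold kk
  have h1 : sc (s / B) ≤ 5 * (1 + (s / B) ^ 2)⁻¹ := by
    refine (sc_decay _).trans ?_
    unfold Pool.Agent.Helper57.LH.Kd
    have h3 : (s / B) ^ 2 ≤ (2 * Real.pi * (s / B)) ^ 2 := by
      rw [mul_pow]
      have : 1 ≤ (2 * Real.pi) ^ 2 := by nlinarith
      nlinarith [sq_nonneg (s / B)]
    gcongr
  have h2 := sc_nonneg (s / B)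
  calc 1 / (g0 * B) * sc (s / B) ^ 2 ≤ 1 / (g0 * B) * (5 * (1 + (s / B) ^ 2)⁻¹) ^ 2 := by gcongr
    _ = _ := by ring

/-- antiderivative of the majorant -/
lemma hasDeriv_maj {B : ℝ} (hB : 0 < B) (s : ℝ) :
    HasDerivAt (fun s => -(25 * B / (2 * g0)) * (1 + (s / B) ^ 2)⁻¹) (s * ((25 / (g0 * B)) * (1 + (s / B) ^ 2)⁻¹ ^ 2)) s := by
  have hg := g0_pos
  have h0 : (1 + (s / B) ^ 2) ≠ 0 := by positivity
  have h1 : HasDerivAt (fun s : ℝ => 1 + (s / B) ^ 2) (2 * (s / B) * (1 / B)) s := by
    have := (((hasDerivAt_id s).div_const B).pow 2).const_add 1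
    refine this.congr_deriv ?_
    simp
  have h2 := (h1.inv h0).const_mul (-(25 * B / (2 * g0)))
  refine h2.congr_deriv ?_
  field_simp

lemma maj_tendsto {B : ℝ} (hB : 0 < B) : Tendsto (fun s : ℝ => -(25 * B / (2 * g0)) * (1 + (s / B) ^ 2)⁻¹) atTop (𝓝 0) := by
  have h1 : Tendsto (fun s : ℝ => 1 + (s / B) ^ 2) atTop atTop := by
    apply tendsto_atTop_add_const_left
    exact (tendsto_pow_atTop two_ne_zero).comp (tendsto_id.atTop_div_const hB)
  have := h1.inv_tendsto_atTop.const_mul (-(25 * B / (2 * g0)))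
  simpa using this

lemma skk_tail {B : ℝ} (hB : 0 < B) {d : ℝ} (hd : 0 ≤ d) :
    IntegrableOn (fun s => s * kk B s) (Ioi d) ∧ ∫ s in Ioi d, s * kk B s ≤ (25 * B * Real.pi ^ 4 / (2 * g0)) * Gm (d / B) := by
  have hg := g0_pos
  have hnn : ∀ s ∈ Ioi d, 0 ≤ s * ((25 / (g0 * B)) * (1 + (s / B) ^ 2)⁻¹ ^ 2) := by
    intro s hs
    have : 0 < s := lt_of_le_of_lt hd hs
    positivity
  have i1 := integrableOn_Ioi_deriv_of_nonneg' (fun s _ => hasDeriv_maj hB s) hnn (maj_tendsto hB)
  have v1 := integral_Ioi_of_hasDerivAt_of_nonneg' (fun s _ => hasDeriv_maj hB s) hnn (maj_tendsto hB)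
  have i2 : IntegrableOn (fun s => s * kk B s) (Ioi d) := by
    refine i1.mono' (continuous_id.mul (kk_cont B)).aestronglyMeasurable.restrict ?_
    rw [ae_restrict_iff' measurableSet_Ioi]
    filter_upwards with s hs
    have hs0 : 0 < s := lt_of_le_of_lt hd hs
    rw [Real.norm_of_nonneg (mul_nonneg hs0.le (kk_nonneg hB s))]
    exact mul_le_mul_of_nonneg_left (kk_le hB s) hs0.le
  refine ⟨i2, ?_⟩
  have h1 : ∫ s in Ioi d, s * kk B s ≤ ∫ s in Ioi d, s * ((25 / (g0 * B)) * (1 + (s / B) ^ 2)⁻¹ ^ 2) := by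
    apply setIntegral_mono_on i2 i1 measurableSet_Ioi
    intro s hs
    have hs0 : 0 < s := lt_of_le_of_lt hd hs
    exact mul_le_mul_of_nonneg_left (kk_le hB s) hs0.le
  rw [v1] at h1
  refine h1.trans ?_
  have h2 := Gm_lower (d / B)
  calc 0 - -(25 * B / (2 * g0)) * (1 + (d / B) ^ 2)⁻¹ = (25 * B * Real.pi ^ 4 / (2 * g0)) * (1 / (Real.pi ^ 4 * (1 + (d / B) ^ 2))) := by
        have hpi := Real.pi_pos
        field_simp
        ring
    _ ≤ _ := by gcongr

lemma abs_kk_integrable {B : ℝ} (hB : 0 < B) : Integrable (fun s => |s| * kk B s) := by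
  have h1 := (skk_tail hB le_rfl).1
  have h2 : IntegrableOn (fun s => |s| * kk B s) (Ioi 0) := by
    refine h1.congr_fun ?_ measurableSet_Ioi
    intro s hs
    simp only
    rw [abs_of_pos hs]
  have h3 : IntegrableOn (fun s => |s| * kk B s) (Iic 0) := by
    have h4 : IntegrableOn (fun s => |-s| * kk B (-s)) (Iio 0) := by
      have h5 := h2
      rw [← neg_zero] at h5
      exact h5.comp_neg_Iio
    rw [integrableOn_Iic_iff_integrableOn_Iio]
    refine h4.congr_fun ?_ measurableSet_Iio
    intro s _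
    simp only
    rw [abs_neg, kk_even]
  have h6 := h3.union h2
  rw [Iic_union_Ioi, integrableOn_univ] at h6
  exact h6

/-- the first moment of the kernel beyond |u| -/
noncomputable def rr (B u : ℝ) : ℝ := ∫ s, (|u - s| - |u|) * kk B s

lemma rr_int {B : ℝ} (hB : 0 < B) (u : ℝ) : Integrable (fun s => (|u - s| - |u|) * kk B s) := by
  refine (abs_kk_integrable hB).mono' ((by fun_prop : Continuous fun s => |u - s| - |u|).mul (kk_cont B)).aestronglyMeasurable ?_
  filter_upwards with s
  rw [norm_mul, Real.norm_of_nonneg (kk_nonneg hB s)]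
  apply mul_le_mul_of_nonneg_right _ (kk_nonneg hB s)
  have := abs_abs_sub_abs_le_abs_sub (u - s) u
  rw [Real.norm_eq_abs]
  refine this.trans (le_of_eq ?_)
  rw [sub_sub_cancel_left, abs_neg]

noncomputable def C4 (B : ℝ) : ℝ := 25 * B * Real.pi ^ 4 / g0

lemma C4_pos {B : ℝ} (hB : 0 < B) : 0 < C4 B := by
  have := g0_pos
  unfold C4
  positivity

lemma rr_bound {B : ℝ} (hB : 0 < B) (u : ℝ) : |rr B u| ≤ C4 B * Gm (u / B) := by
  have hk := kk_nonneg hB
  -- symmetrise
  have e1 : rr B u = (1 / 2) * ∫ s, (|u - s| + |u + s| - 2 * |u|) * kk B s := by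
    have h1 : rr B u = ∫ s, (|u + s| - |u|) * kk B s := by
      unfold rr
      rw [← integral_neg_eq_self (fun s => (|u - s| - |u|) * kk B s) volume]
      congr 1; funext s
      rw [kk_even, sub_neg_eq_add]
    have i2 : Integrable (fun s => (|u + s| - |u|) * kk B s) := by
      have := (rr_int hB u).comp_neg
      refine this.congr ?_
      filter_upwards with s
      rw [kk_even, sub_neg_eq_add]
    have h2 : rr B u + rr B u = ∫ s, (|u - s| + |u + s| - 2 * |u|) * kk B s := by
      nth_rewrite 2 [h1]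
      unfold rr
      rw [← integral_add (rr_int hB u) i2]
      congr 1; funext s; ring
    linarith
  have hpt : ∀ s, 0 ≤ |u - s| + |u + s| - 2 * |u| ∧ |u - s| + |u + s| - 2 * |u| ≤ 2 * ((Ioi |u|).indicator (fun s => s) |s|) := by
    intro s
    constructor
    · have := abs_add_le (u - s) (u + s)
      have e : u - s + (u + s) = 2 * u := by ring
      rw [e, abs_mul, abs_of_pos (show (0:ℝ) < 2 by norm_num)] at this
      linarith
    · by_cases h : |u| < |s|
      · rw [indicator_of_mem (by exact h)]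
        have h1 := abs_sub u s
        have h2 := abs_add_le u s
        linarith
      · rw [indicator_of_notMem (by exact h), mul_zero]
        push Not at h
        rcases abs_cases u with ⟨h1, h2⟩ | ⟨h1, h2⟩ <;> rcases abs_cases s with ⟨h3, h4⟩ | ⟨h3, h4⟩ <;>
          rcases abs_cases (u - s) with ⟨h5, h6⟩ | ⟨h5, h6⟩ <;> rcases abs_cases (u + s) with ⟨h7, h8⟩ | ⟨h7, h8⟩ <;> linarith
  have hnn : 0 ≤ ∫ s, (|u - s| + |u + s| - 2 * |u|) * kk B s := integral_nonneg fun s => mul_nonneg (hpt s).1 (hk s)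
  rw [e1, abs_of_nonneg (by positivity)]
  have h1 : ∫ s, (|u - s| + |u + s| - 2 * |u|) * kk B s ≤ ∫ s, 2 * ((Ioi |u|).indicator (fun s => s * kk B s) |s|) := by
    apply integral_mono_of_nonneg
    · filter_upwards with s; exact mul_nonneg (hpt s).1 (hk s)
    · apply Integrable.const_mul
      have h2 : (fun s : ℝ => (Ioi |u|).indicator (fun s => s * kk B s) |s|) = fun s => (Ioi |u|).indicator (fun s => |s| * kk B s) s + (Iio (-|u|)).indicator (fun s => |s| * kk B s) s := by
        funext s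
        by_cases h3 : s ∈ Ioi |u|
        · have h4 : s ∉ Iio (-|u|) := by
            intro h5
            have h3' : |u| < s := h3
            have h5' : s < -|u| := h5
            linarith [abs_nonneg u]
          have hs : 0 < s := lt_of_le_of_lt (abs_nonneg u) h3
          rw [indicator_of_mem h3, indicator_of_notMem h4, indicator_of_mem (by rw [abs_of_pos hs]; exact h3), abs_of_pos hs, add_zero]
        · by_cases h4 : s ∈ Iio (-|u|)
          · have hs : s < 0 := lt_of_lt_of_le h4 (by simp)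
            have h4' : s < -|u| := h4
            rw [indicator_of_notMem h3, indicator_of_mem h4, indicator_of_mem (by rw [abs_of_neg hs]; simp only [mem_Ioi]; linarith), abs_of_neg hs, kk_even, zero_add]
          · rw [indicator_of_notMem h3, indicator_of_notMem h4, indicator_of_notMem, add_zero]
            intro h5
            have h5' : |u| < |s| := h5
            simp only [mem_Ioi, not_lt] at h3
            simp only [mem_Iio, not_lt] at h4
            have : |s| ≤ |u| := abs_le.mpr ⟨h4, h3⟩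
            linarith
      rw [h2]
      exact ((abs_kk_integrable hB).indicator measurableSet_Ioi).add ((abs_kk_integrable hB).indicator measurableSet_Iio)
    · filter_upwards with s
      have h3 := (hpt s).2
      have h4 := hk s
      have h5 : kk B |s| = kk B s := by
        rcases abs_choice s with h | h
        · rw [h]
        · rw [h, kk_even]
      by_cases h6 : |s| ∈ Ioi |u|
      · rw [indicator_of_mem h6] at h3 ⊢
        rw [h5]
        nlinarith
      · rw [indicator_of_notMem h6] at h3 ⊢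
        nlinarith
  rw [integral_const_mul, integral_comp_abs (f := (Ioi |u|).indicator (fun s => s * kk B s)), setIntegral_indicator measurableSet_Ioi,
    inter_eq_right.mpr (Ioi_subset_Ioi (abs_nonneg u))] at h1
  have h2 := (skk_tail hB (abs_nonneg u)).2
  have h3 : Gm (|u| / B) = Gm (u / B) := by
    rcases abs_choice u with h | h
    · rw [h]
    · rw [h, neg_div, Gm_even]
  rw [h3] at h2
  unfold C4
  calc 1 / 2 * ∫ s, (|u - s| + |u + s| - 2 * |u|) * kk B s ≤ 1 / 2 * (2 * (2 * ∫ s in Ioi |u|, s * kk B s)) := by gcongr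
    _ = 2 * ∫ s in Ioi |u|, s * kk B s := by ring
    _ ≤ 2 * (25 * B * Real.pi ^ 4 / (2 * g0) * Gm (u / B)) := by gcongr
    _ = _ := by ring

lemma Tr_formula {X : ℝ} (hX : 0 < X) (u : ℝ) : Tr X u = (1 / 2) * (|u - X| + |u + X|) - |u| := by
  unfold Tr tri
  have e : |u / X| = |u| / X := by rw [abs_div, abs_of_pos hX]
  rw [e, mul_max_of_nonneg _ _ hX.le, mul_zero, mul_sub, mul_one, mul_div_cancel₀ _ hX.ne']
  rcases abs_cases u with ⟨h1, h2⟩ | ⟨h1, h2⟩ <;> rcases abs_cases (u - X) with ⟨h3, h4⟩ | ⟨h3, h4⟩ <;>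
    rcases abs_cases (u + X) with ⟨h5, h6⟩ | ⟨h5, h6⟩ <;> rcases max_cases 0 (X - |u|) with ⟨h7, h8⟩ | ⟨h7, h8⟩ <;> linarith

/-- difference between the triangle and its smoothing -/
lemma Tr_close {B X : ℝ} (hB : 0 < B) (hX : 0 < X) (u : ℝ) :
    |Tr X u - CT (AX B X) u| ≤ C4 B * ((1 / 2) * Gm ((u - X) / B) + (1 / 2) * Gm ((u - -X) / B) + Gm ((u - 0) / B)) := by
  have e1 : CT (AX B X) u = ∫ s, Tr X (u - s) * kk B s := by
    rw [CT_AX hB hX, ← integral_sub_left_eq_self (fun s => Tr X (u - s) * kk B s) volume u]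
    congr 1; funext s
    rw [sub_sub_cancel]
  have e2 : Tr X u = ∫ s, Tr X u * kk B s := by rw [integral_const_mul, kk_integral hB, mul_one]
  have iT : Integrable (fun s => Tr X u * kk B s) := (kk_integrable hB).const_mul _
  have hTc : Continuous (Tr X) := by
    unfold Tr
    have := tri_cont
    fun_prop
  have iT2 : Integrable (fun s => Tr X (u - s) * kk B s) := by
    refine ((kk_integrable hB).const_mul X).mono' ((hTc.comp (by fun_prop)).mul (kk_cont B)).aestronglyMeasurable ?_
    filter_upwards with s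
    rw [norm_mul, Real.norm_of_nonneg (kk_nonneg hB s)]
    apply mul_le_mul_of_nonneg_right _ (kk_nonneg hB s)
    unfold Tr
    rw [Real.norm_of_nonneg (mul_nonneg hX.le (tri_nonneg _))]
    exact mul_le_of_le_one_right hX.le (tri_le_one _)
  have e3 : Tr X u - CT (AX B X) u = -(1 / 2) * rr B (u - X) + -(1 / 2) * rr B (u - -X) + rr B (u - 0) := by
    rw [e1]
    nth_rewrite 1 [e2]
    rw [← integral_sub iT iT2]
    unfold rr
    rw [← integral_const_mul, ← integral_const_mul, ← integral_add ((rr_int hB _).const_mul _) ((rr_int hB _).const_mul _)]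
    have i5 : Integrable (fun s => -(1 / 2) * ((|u - X - s| - |u - X|) * kk B s) + -(1 / 2) * ((|u - -X - s| - |u - -X|) * kk B s)) :=
      ((rr_int hB _).const_mul _).add ((rr_int hB _).const_mul _)
    rw [← integral_add i5 (rr_int hB _)]
    congr 1; funext s
    rw [Tr_formula hX, Tr_formula hX]
    have a1 : u - X - s = u - s - X := by ring
    have a2 : u - -X - s = u - s + X := by ring
    have a3 : u - -X = u + X := by ring
    rw [a1, a2, a3, sub_zero]
    ring
  rw [e3]
  have b1 := abs_le.mp (rr_bound hB (u - X))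
  have b2 := abs_le.mp (rr_bound hB (u - -X))
  have b3 := abs_le.mp (rr_bound hB (u - 0))
  rw [abs_le]
  constructor <;> nlinarith [b1.1, b1.2, b2.1, b2.2, b3.1, b3.2]

end Pool.Agent.Helper4.PC
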