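import Pool.Agent.Helper4.PC.NVd

namespace Pool.Agent.Helper4.PC

open Set MeasureTheory Filter Topology
open scoped Convolution
open Pool.Agent.Helper57.LH (sc sc_cont sc_even sc_integrable sc_nonneg sc_le_one sc_integral sc_eq sc_zero sc_decay sc_ae
  Gm Gm_nonneg Gm_even Gm_integral Gm_integrable Gm_cont Gm_le WP WP_mono WP_nonneg WP_add WP_smul WP_neg WP_sum gB gB_cont gB_le gB_nonneg pair_bound ic ic_apply ic_nonneg ic_le_one pairCount_WP)
open Pool.Agent.Helper57.PC
open Pool.Agent.Helper57.Zeta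

lemma WP_neg' (T : ℝ) (φ : ℝ → ℝ) : WP T (fun u => -φ u) = -WP T φ := by
  have := WP_smul T (-1) φ
  simpa using this

/-- pointwise domination by shifted kernels controls EE -/
lemma EE_phys {C₀ : ℝ} {B X c : ℝ} (hB : 0 < B) (hc : 0 ≤ c) {T : ℝ} (hT1 : 1 < T) (hb : WP T (gB B) ≤ SN T * (B + C₀ / B))
    {ψ : ℝ → ℝ} (h : ∀ u, |ψ u| ≤ c * ((1 / 2) * Gm ((u - X) / B) + (1 / 2) * Gm ((u - -X) / B) + Gm ((u - 0) / B))) :
    |EE T ψ| ≤ SN T * (c * (2 * (B + C₀ / B) + 2 + 2 * B)) := by
  have hS := SN_pos hT1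
  set G : ℝ → ℝ := fun u => c * ((1 / 2) * Gm ((u - X) / B) + (1 / 2) * Gm ((u - -X) / B) + Gm ((u - 0) / B)) with hG
  have hGi : Integrable G := by
    rw [hG]
    exact (((Gs_integrable hB X).const_mul _).add ((Gs_integrable hB (-X)).const_mul _) |>.add (Gs_integrable hB 0)).const_mul c
  have hW : WP T G ≤ c * (2 * (SN T * (B + C₀ / B))) := by
    rw [hG, WP_smul, WP_add, WP_add, WP_smul, WP_smul]
    have a1 := (WP_shift hB T X).trans hb
    have a2 := (WP_shift hB T (-X)).trans hb
    have a3 := (WP_shift hB T 0).trans hb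
    gcongr
    linarith
  have hW2 : |WP T ψ| ≤ WP T G := by
    rw [abs_le]
    constructor
    · rw [← WP_neg']
      exact WP_mono fun u => (abs_le.mp (h u)).1
    · exact WP_mono fun u => (abs_le.mp (h u)).2
  have h0 : |ψ 0| ≤ 2 * c := by
    refine (h 0).trans ?_
    have b1 := (Gm_le ((0 - X) / B)).trans Gm_zero_le_one
    have b2 := (Gm_le ((0 - -X) / B)).trans Gm_zero_le_one
    have b3 := (Gm_le ((0 - 0) / B)).trans Gm_zero_le_one
    nlinarith
  have hI : |∫ u, ψ u * pcDensity u| ≤ 2 * B * c := by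
    have h1 := norm_integral_le_integral_norm (μ := volume) (fun u => ψ u * pcDensity u)
    refine h1.trans ?_
    have h2 : ∫ u, ‖ψ u * pcDensity u‖ ≤ ∫ u, G u := by
      apply integral_mono_of_nonneg
      · filter_upwards with u; exact norm_nonneg _
      · exact hGi
      · filter_upwards with u
        rw [norm_mul, Real.norm_of_nonneg (pcDensity_nonneg u)]
        refine (mul_le_of_le_one_right (norm_nonneg _) (pcDensity_le_one u)).trans (h u)
    refine h2.trans (le_of_eq ?_)
    rw [hG, integral_const_mul]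
    have hv : ∀ v : ℝ, ∫ u, Gm ((u - v) / B) = B := by
      intro v
      rw [integral_sub_right_eq_self (fun u => Gm (u / B)) v, Measure.integral_comp_div (fun x => Gm x) B, abs_of_pos hB, smul_eq_mul, Gm_integral, mul_one]
    have i12 : Integrable (fun u => (1 / 2) * Gm ((u - X) / B) + (1 / 2) * Gm ((u - -X) / B)) :=
      ((Gs_integrable hB X).const_mul _).add ((Gs_integrable hB (-X)).const_mul _)
    rw [integral_add i12 (Gs_integrable hB 0), integral_add ((Gs_integrable hB X).const_mul _) ((Gs_integrable hB (-X)).const_mul _),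
      integral_const_mul, integral_const_mul, hv, hv, hv]
    ring
  unfold EE
  have h3 : |WP T ψ - SN T * (ψ 0 + ∫ u, ψ u * pcDensity u)| ≤ |WP T ψ| + SN T * (|ψ 0| + |∫ u, ψ u * pcDensity u|) := by
    refine (abs_sub _ _).trans ?_
    rw [abs_mul, abs_of_pos hS]
    gcongr
    exact abs_add_le _ _
  refine h3.trans ?_
  calc |WP T ψ| + SN T * (|ψ 0| + |∫ u, ψ u * pcDensity u|) ≤ c * (2 * (SN T * (B + C₀ / B))) + SN T * (2 * c + 2 * B * c) := by
        gcongr
        exact hW2.trans hW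
    _ = _ := by ring

/-- the law for the triangle -/
theorem tri_law {C₁ : ℝ} (hC₁ : 0 < C₁) (hK : KernelLaw C₁) : ∃ C : ℝ, 0 < C ∧ ∀ X : ℝ, 19200 < X → ∀ᶠ T : ℝ in atTop, |EE T (Tr X)| ≤ C * SN T := by
  obtain ⟨C₀, hC₀, hpb⟩ := pair_bound
  have hpb' : ∀ B : ℝ, 9600 ≤ B → ∀ᶠ T : ℝ in atTop, WP T (gB B) ≤ SN T * (B + C₀ / B) := hpb
  have hCR := CR_nonneg 19200
  have hC4 := C4_pos (B := 2 * 19200) (by norm_num)
  refine ⟨(2 * C₁ / 19200 + (1 + 8 * CR 19200 / 19200) * (C₀ + 1) / 9600 + 32 * (C₀ + 1) + 1) +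
    C4 (2 * 19200) * (2 * (2 * 19200 + C₀ / (2 * 19200)) + 2 + 2 * (2 * 19200)), by positivity, fun X hX => ?_⟩
  have hX0 : 0 < X := by linarith
  filter_upwards [smooth_law hC₀ hC₁ hpb' hK hX, hpb' (2 * 19200) (by norm_num), eventually_gt_atTop 1] with T h1 h2 hT1
  have hS := SN_pos hT1
  have hB : (0:ℝ) < 2 * 19200 := by norm_num
  have iC := CT_AX_integrable hB hX0
  have iψ : Integrable (fun u => Tr X u - CT (AX (2 * 19200) X) u) := (Tr_integrable hX0).sub iC
  have e : EE T (Tr X) = EE T (CT (AX (2 * 19200) X)) + EE T (fun u => Tr X u - CT (AX (2 * 19200) X) u) := by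
    rw [← EE_add T iC iψ]
    congr 1; funext u; ring
  have h3 := EE_phys (X := X) hB hC4.le hT1 h2 (Tr_close hB hX0)
  rw [e]
  refine (abs_add_le _ _).trans ?_
  calc |EE T (CT (AX (2 * 19200) X))| + |EE T (fun u => Tr X u - CT (AX (2 * 19200) X) u)|
      ≤ SN T * (2 * C₁ / 19200 + (1 + 8 * CR 19200 / 19200) * (C₀ + 1) / 9600 + 32 * (C₀ + 1) + 1) +
        SN T * (C4 (2 * 19200) * (2 * (2 * 19200 + C₀ / (2 * 19200)) + 2 + 2 * (2 * 19200))) := add_le_add h1 h3
    _ = _ := by ring

/-! the integrated form -/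

lemma Tr_int_ic {X : ℝ} (hX : 0 < X) (u : ℝ) : Tr X u = ∫ β in (0:ℝ)..X, ic (Icc (-β) β) u := by
  classical
  have e1 : ∀ β, ic (Icc (-β) β) u = ic (Ici |u|) β := by
    intro β
    rw [ic_apply, ic_apply]
    congr 1
    rw [eq_iff_iff, mem_Icc, mem_Ici, abs_le]
  simp_rw [e1]
  rw [intervalIntegral.integral_of_le hX.le]
  unfold Pool.Agent.Helper57.LH.ic
  rw [integral_indicator measurableSet_Ici, setIntegral_const, smul_eq_mul, mul_one, measureReal_restrict_apply measurableSet_Ici]
  unfold Tr tri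
  have e : |u / X| = |u| / X := by rw [abs_div, abs_of_pos hX]
  rw [e, mul_max_of_nonneg _ _ hX.le, mul_zero, mul_sub, mul_one, mul_div_cancel₀ _ hX.ne']
  rcases (abs_nonneg u).eq_or_lt with h0 | h0
  · have : Ici |u| ∩ Ioc 0 X = Ioc 0 X := by
      apply inter_eq_right.mpr
      intro x hx
      rw [← h0]; exact hx.1.le
    rw [this, ← h0, Real.volume_real_Ioc_of_le hX.le]
    simp [hX.le]
  · have : Ici |u| ∩ Ioc 0 X = Icc |u| X := by
      ext x
      simp only [mem_inter_iff, mem_Ici, mem_Ioc, mem_Icc]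
      constructor
      · rintro ⟨h1, h2, h3⟩; exact ⟨h1, h3⟩
      · rintro ⟨h1, h2⟩; exact ⟨h1, by linarith, h2⟩
    rw [this]
    rcases le_or_gt |u| X with h1 | h1
    · rw [Real.volume_real_Icc_of_le h1, max_eq_right (by linarith)]
    · rw [Icc_eq_empty (not_le.mpr h1), max_eq_left (by linarith)]
      simp

lemma ic_beta_int (u c d : ℝ) : IntervalIntegrable (fun β => ic (Icc (-β) β) u) volume c d := by
  have e1 : (fun β => ic (Icc (-β) β) u) = fun β => ic (Ici |u|) β := by
    classical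
    funext β
    rw [ic_apply, ic_apply]
    congr 1
    rw [eq_iff_iff, mem_Icc, mem_Ici, abs_le]
  rw [e1, intervalIntegrable_iff]
  unfold uIoc
  apply Integrable.of_bound (C := 1)
  · exact (measurable_const.indicator measurableSet_Ici).aestronglyMeasurable
  · filter_upwards with x
    rw [Real.norm_of_nonneg (ic_nonneg _ _)]
    exact ic_le_one _ _

lemma int_ic_F {β : ℝ} (hβ : 0 ≤ β) : ∫ u, ic (Icc (-β) β) u * pcDensity u = ∫ u in (-β)..β, pcDensity u := by
  rw [ii_eq (by linarith)]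

lemma Tr_F {X : ℝ} (hX : 0 < X) : ∫ u, Tr X u * pcDensity u = ∫ β in (0:ℝ)..X, ∫ u in (-β)..β, pcDensity u := by
  have h1 : ∫ β in (0:ℝ)..X, ∫ u in (-β)..β, pcDensity u = ∫ β in (0:ℝ)..X, ∫ u, ic (Icc (-β) β) u * pcDensity u := by
    apply intervalIntegral.integral_congr
    intro β hβ
    rw [uIcc_of_le hX.le] at hβ
    simp only
    rw [int_ic_F hβ.1]
  have h2 : ∀ u, Tr X u * pcDensity u = ∫ β in (0:ℝ)..X, ic (Icc (-β) β) u * pcDensity u := by
    intro u
    rw [intervalIntegral.integral_mul_const, Tr_int_ic hX]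
  rw [h1]
  simp_rw [h2]
  symm
  apply intervalIntegral_integral_swap
  -- integrability
  have hm : Measurable (Function.uncurry fun (β u : ℝ) => ic (Icc (-β) β) u * pcDensity u) := by
    apply Measurable.mul
    · have e : (fun p : ℝ × ℝ => ic (Icc (-p.1) p.1) p.2) = {p : ℝ × ℝ | -p.1 ≤ p.2 ∧ p.2 ≤ p.1}.indicator (fun _ => 1) := by
        classical
        funext p
        rw [ic_apply, indicator_apply]
        congr 1
      rw [e]
      apply measurable_const.indicator
      exact (measurableSet_le measurable_fst.neg measurable_snd).inter (measurableSet_le measurable_snd measurable_fst)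
    · exact pcDensity_measurable.comp measurable_snd
  have hdom : Integrable (fun p : ℝ × ℝ => (1:ℝ) * (Icc (-X) X).indicator (fun _ => (1:ℝ)) p.2) ((volume.restrict (uIoc 0 X)).prod volume) := by
    apply Integrable.mul_prod (f := fun _ : ℝ => (1:ℝ)) (g := (Icc (-X) X).indicator (fun _ => (1:ℝ)))
    · unfold uIoc; exact integrable_const _
    · rw [integrable_indicator_iff measurableSet_Icc]
      exact integrableOn_const (by simp)
  refine hdom.mono' hm.aestronglyMeasurable ?_
  have hae : ∀ᵐ p : ℝ × ℝ ∂((volume.restrict (uIoc 0 X)).prod volume), p.1 ∈ uIoc 0 X := by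
    have h3 : ∀ᵐ x : ℝ ∂(volume.restrict (uIoc 0 X)), x ∈ uIoc 0 X := ae_restrict_mem measurableSet_uIoc
    exact Measure.quasiMeasurePreserving_fst.ae h3
  filter_upwards [hae] with p hp
  rw [uIoc_of_le hX.le] at hp
  simp only [Function.uncurry, one_mul]
  by_cases h4 : p.2 ∈ Icc (-X) X
  · rw [indicator_of_mem h4, norm_mul, Real.norm_of_nonneg (ic_nonneg _ _), Real.norm_of_nonneg (pcDensity_nonneg _)]
    have := ic_le_one (Icc (-p.1) p.1) p.2
    have := ic_nonneg (Icc (-p.1) p.1) p.2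
    have := pcDensity_le_one p.2
    have := pcDensity_nonneg p.2
    nlinarith
  · rw [indicator_of_notMem h4]
    have h5 : ic (Icc (-p.1) p.1) p.2 = 0 := by
      classical
      rw [ic_apply, if_neg]
      intro h6
      exact h4 ⟨by linarith [h6.1, hp.2], h6.2.trans hp.2⟩
    rw [h5, zero_mul, norm_zero]

/-- the error in symmetric windows -/
noncomputable def Er (T β : ℝ) : ℝ := pairCount T (-β) β - SN T * (1 + ∫ u in (-β)..β, pcDensity u)

lemma intF_cont : Continuous (fun β : ℝ => ∫ u in (-β)..β, pcDensity u) := by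
  have e : (fun β : ℝ => ∫ u in (-β)..β, pcDensity u) = fun β => (∫ u in (0:ℝ)..β, pcDensity u) - ∫ u in (0:ℝ)..(-β), pcDensity u := by
    funext β
    rw [intervalIntegral.integral_interval_sub_left (intervalIntegrable_pcDensity _ _) (intervalIntegrable_pcDensity _ _)]
  rw [e]
  have h := intervalIntegral.continuous_primitive (μ := volume) (fun a b => intervalIntegrable_pcDensity a b) 0
  exact h.sub (h.comp continuous_neg)

lemma pc_beta_int (T c d : ℝ) : IntervalIntegrable (fun β => pairCount T (-β) β) volume c d := by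
  have e2 : (fun β => pairCount T (-β) β) = fun β => ∑ p ∈ Zf T ×ˢ Zf T, (mult p.1 : ℝ) * (mult p.2 : ℝ) * ic (Icc (-β) β) (nd T p) := by
    funext s
    rw [pairCount_WP]
    rfl
  rw [e2]
  have h5 := IntervalIntegrable.sum (μ := volume) (a := c) (b := d) (Zf T ×ˢ Zf T) (f := fun (p : ℂ × ℂ) (β : ℝ) => (mult p.1 : ℝ) * (mult p.2 : ℝ) * ic (Icc (-β) β) (nd T p))
    (fun p _ => (ic_beta_int _ _ _).const_mul _)
  refine h5.congr ?_
  intro s _
  simp

lemma Er_int (T c d : ℝ) : IntervalIntegrable (Er T) volume c d := by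
  unfold Er
  exact (pc_beta_int T c d).sub ((Continuous.intervalIntegrable (by have := intF_cont; fun_prop) _ _))

lemma EE_Tr {X : ℝ} (hX : 0 < X) (T : ℝ) : EE T (Tr X) = ∫ β in (0:ℝ)..X, Er T β := by
  have h1 : WP T (Tr X) = ∫ β in (0:ℝ)..X, pairCount T (-β) β := by
    have e1 : ∀ β, pairCount T (-β) β = WP T (fun u => ic (Icc (-β) β) u) := fun β => pairCount_WP T _ _
    simp_rw [e1]
    rw [integral_WP T (fun β u => ic (Icc (-β) β) u) (fun u => ic_beta_int u 0 X)]
    congr 1; funext u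
    exact Tr_int_ic hX u
  have h2 : Tr X 0 = X := by
    unfold Tr tri
    simp
  unfold EE Er
  rw [intervalIntegral.integral_sub (pc_beta_int T 0 X) (Continuous.intervalIntegrable (by have := intF_cont; fun_prop) _ _),
    intervalIntegral.integral_const_mul, intervalIntegral.integral_add intervalIntegrable_const (intF_cont.intervalIntegrable _ _),
    intervalIntegral.integral_const, smul_eq_mul, mul_one, sub_zero, h1, h2, Tr_F hX]

end Pool.Agent.Helper4.PC
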