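import Pool.Agent.Helper4.PC.NVe

namespace Pool.Agent.Helper4.PC

open Set MeasureTheory Filter Topology
open Pool.Agent.Helper57.LH (WP WP_mono WP_nonneg WP_add WP_smul WP_neg WP_sum ic ic_apply ic_nonneg ic_le_one pairCount_WP int_pc_split pc_even)
open Pool.Agent.Helper57.PC
open Pool.Agent.Helper57.Zeta

lemma int_F_sym (β : ℝ) : ∫ u in (-β)..β, pcDensity u = 2 * ∫ u in (0:ℝ)..β, pcDensity u := by
  rw [int_pc_split, neg_neg]; ring

/-- symmetric windows have bounded error -/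
lemma Er_bound : ∃ C : ℝ, 0 < C ∧ ∀ R : ℝ, ∀ᶠ T : ℝ in atTop, ∀ β : ℝ, 0 ≤ β → β ≤ R → |Er T β| ≤ C * SN T := by
  obtain ⟨C, hC, h⟩ := bounded_error_unif
  refine ⟨C + 2, by linarith, fun R => ?_⟩
  filter_upwards [h R, eventually_gt_atTop 1] with T hT hT1 β hβ0 hβ
  have hS := SN_pos hT1
  have h1 := abs_le.mp (hT (-β) β (by linarith) (by linarith) hβ)
  have h2 := abs_le.mp (int_F_close le_rfl hβ0)
  unfold Er
  rw [int_F_sym, abs_le]
  constructor
  · nlinarith [h1.1, h1.2, h2.1, h2.2]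
  · nlinarith [h1.1, h1.2, h2.1, h2.2]

/-- integrated law, uniform in X -/
theorem int_law {C₁ : ℝ} (hC₁ : 0 < C₁) (hK : KernelLaw C₁) : ∃ C : ℝ, 0 < C ∧ ∀ R : ℝ, ∀ᶠ T : ℝ in atTop, ∀ X : ℝ, 0 ≤ X → X ≤ R →
    |∫ β in (0:ℝ)..X, Er T β| ≤ C * SN T := by
  obtain ⟨C, hC, h⟩ := tri_law hC₁ hK
  obtain ⟨C', hC', h'⟩ := Er_bound
  refine ⟨C + 19202 * C', by positivity, fun R => ?_⟩
  obtain ⟨n, hn⟩ := exists_nat_gt R
  have hall : ∀ᶠ T : ℝ in atTop, ∀ i ∈ Finset.range (n + 2), (19200:ℝ) < i → |EE T (Tr i)| ≤ C * SN T := by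
    rw [Filter.eventually_all_finset]
    intro i _
    by_cases hi : (19200:ℝ) < i
    · filter_upwards [h i hi] with T hT _ using hT
    · filter_upwards with T hT using absurd hT hi
  filter_upwards [hall, h' (R + 1), eventually_gt_atTop 1] with T h1 h2 hT1 X hX0 hXR
  have hS := SN_pos hT1
  have hbd : ∀ c d : ℝ, 0 ≤ c → c ≤ d → d ≤ R + 1 → |∫ β in c..d, Er T β| ≤ C' * SN T * (d - c) := by
    intro c d hc hcd hd
    have := intervalIntegral.norm_integral_le_of_norm_le_const (a := c) (b := d) (f := Er T) (C := C' * SN T) (by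
      intro β hβ
      rw [uIoc_of_le hcd] at hβ
      exact h2 β (by linarith [hβ.1]) (by linarith [hβ.2]))
    rwa [abs_of_nonneg (by linarith)] at this
  rcases le_or_gt X 19201 with h3 | h3
  · have h4 := hbd 0 X le_rfl hX0 (by linarith)
    refine h4.trans ?_
    have : C' * SN T * (X - 0) ≤ C' * SN T * 19202 := by
      gcongr
      linarith
    have : 0 < C * SN T := by positivity
    nlinarith
  · set m := ⌈X⌉₊ with hm
    have hm1 : X ≤ m := Nat.le_ceil X
    have hm2 : (m:ℝ) < X + 1 := Nat.ceil_lt_add_one hX0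
    have hmr : m ∈ Finset.range (n + 2) := by
      rw [Finset.mem_range]
      have : (m:ℝ) < (n + 2 : ℕ) := by push_cast; linarith
      exact_mod_cast this
    have h4 := h1 m hmr (by linarith)
    rw [EE_Tr (by linarith)] at h4
    have h5 := hbd X m hX0 hm1 (by linarith)
    have h6 := intervalIntegral.integral_add_adjacent_intervals (Er_int T 0 X) (Er_int T X m)
    have h7 : C' * SN T * ((m:ℝ) - X) ≤ C' * SN T * 1 := by
      gcongr
      linarith
    have a1 := abs_le.mp h4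
    have a2 := abs_le.mp (h5.trans h7)
    have h8 : 0 < C' * SN T := by positivity
    rw [abs_le]
    constructor <;> nlinarith [a1.1, a1.2, a2.1, a2.2]

lemma ic_ae (a X ℓ u : ℝ) (ha : 0 ≤ a) (hX : 0 ≤ X) (hℓ : 0 ≤ ℓ) :
    ∫ s in a..(a + X), (ic (Icc s (s + ℓ)) u + ic (Icc s (s + ℓ)) (-u)) = ∫ s in a..(a + X), (ic (Icc (-(s + ℓ)) (s + ℓ)) u - ic (Icc (-s) s) u) := by
  classical
  apply intervalIntegral.integral_congr_ae
  have h : ∀ᵐ s : ℝ, s ≠ |u| := by
    rw [ae_iff]; simp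
  filter_upwards [h] with s hs hs2
  rw [uIoc_of_le (by linarith)] at hs2
  have hs0 : 0 < s := lt_of_le_of_lt ha hs2.1
  rw [ic_apply, ic_apply, ic_apply, ic_apply]
  simp only [mem_Icc]
  rcases abs_cases u with ⟨h1, h2⟩ | ⟨h1, h2⟩
  · rw [h1] at hs
    have e1 : ¬ (s ≤ -u ∧ -u ≤ s + ℓ) := fun h => by linarith [h.1]
    rw [if_neg e1]
    rcases lt_or_gt_of_ne hs with h3 | h3
    · have e2 : ¬ (-s ≤ u ∧ u ≤ s) := fun h => by linarith [h.2]
      rw [if_neg e2]
      by_cases h4 : u ≤ s + ℓ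
      · rw [if_pos ⟨h3.le, h4⟩, if_pos ⟨by linarith, h4⟩]; ring
      · rw [if_neg (fun h => h4 h.2), if_neg (fun h => h4 h.2)]; ring
    · have e2 : ¬ (s ≤ u ∧ u ≤ s + ℓ) := fun h => by linarith [h.1]
      rw [if_neg e2, if_pos ⟨by linarith, by linarith⟩, if_pos ⟨by linarith, h3.le⟩]; ring
  · rw [h1] at hs
    have e1 : ¬ (s ≤ u ∧ u ≤ s + ℓ) := fun h => by linarith [h.1]
    rw [if_neg e1]
    rcases lt_or_gt_of_ne hs with h3 | h3
    · have e2 : ¬ (-s ≤ u ∧ u ≤ s) := fun h => by linarith [h.1]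
      rw [if_neg e2]
      by_cases h4 : -u ≤ s + ℓ
      · rw [if_pos ⟨h3.le, h4⟩, if_pos ⟨by linarith, by linarith⟩]; ring
      · rw [if_neg (fun h => h4 h.2), if_neg (fun h => h4 (by linarith [h.1]))]; ring
    · have e2 : ¬ (s ≤ -u ∧ -u ≤ s + ℓ) := fun h => by linarith [h.1]
      rw [if_neg e2, if_pos ⟨by linarith, by linarith⟩, if_pos ⟨by linarith, by linarith⟩]; ring

lemma pc_pos_int (T ℓ c d : ℝ) : IntervalIntegrable (fun s => pairCount T s (s + ℓ)) volume c d := by
  have e2 : (fun s => pairCount T s (s + ℓ)) = fun s => ∑ p ∈ Zf T ×ˢ Zf T, (mult p.1 : ℝ) * (mult p.2 : ℝ) * ic (Icc 0 ℓ) (nd T p - s) := by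
    funext s
    rw [pairCount_WP]
    unfold Pool.Agent.Helper57.LH.WP
    apply Finset.sum_congr rfl
    intro p _
    rw [ic_shift]
  rw [e2]
  have h5 := IntervalIntegrable.sum (μ := volume) (a := c) (b := d) (Zf T ×ˢ Zf T) (f := fun (p : ℂ × ℂ) (s : ℝ) => (mult p.1 : ℝ) * (mult p.2 : ℝ) * ic (Icc 0 ℓ) (nd T p - s))
    (fun p _ => (ic_ii _ _ _).const_mul _)
  refine h5.congr ?_
  intro s _
  simp

/-- averages of one-sided windows from symmetric windows -/
lemma pos_avg {a X ℓ : ℝ} (ha : 0 ≤ a) (hX : 0 ≤ X) (hℓ : 0 ≤ ℓ) (T : ℝ) :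
    2 * ∫ s in a..(a + X), pairCount T s (s + ℓ) = (∫ s in a..(a + X), pairCount T (-(s + ℓ)) (s + ℓ)) - ∫ s in a..(a + X), pairCount T (-s) s := by
  have iA : ∀ u, IntervalIntegrable (fun s => ic (Icc s (s + ℓ)) u) volume a (a + X) := by
    intro u
    have e : (fun s => ic (Icc s (s + ℓ)) u) = fun s => ic (Icc 0 ℓ) (u - s) := by
      funext s; rw [ic_shift]
    rw [e]
    exact ic_ii _ _ _
  have iB : ∀ u, IntervalIntegrable (fun s => ic (Icc (-s) s) u) volume a (a + X) := fun u => ic_beta_int u _ _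
  have iC : ∀ u, IntervalIntegrable (fun s => ic (Icc (-(s + ℓ)) (s + ℓ)) u) volume a (a + X) := by
    intro u
    have := (ic_beta_int u (a + ℓ) (a + X + ℓ)).comp_add_right ℓ
    simpa using this
  have e1 : ∀ s, pairCount T s (s + ℓ) = WP T (fun u => ic (Icc s (s + ℓ)) u) := fun s => pairCount_WP T _ _
  have e2 : ∀ s, pairCount T (-s) s = WP T (fun u => ic (Icc (-s) s) u) := fun s => pairCount_WP T _ _
  have e3 : ∀ s, pairCount T (-(s + ℓ)) (s + ℓ) = WP T (fun u => ic (Icc (-(s + ℓ)) (s + ℓ)) u) := fun s => pairCount_WP T _ _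
  simp_rw [e3, e2, e1]
  rw [integral_WP T (fun s u => ic (Icc s (s + ℓ)) u) iA, integral_WP T (fun s u => ic (Icc (-s) s) u) iB,
    integral_WP T (fun s u => ic (Icc (-(s + ℓ)) (s + ℓ)) u) iC, two_mul]
  nth_rewrite 2 [← WP_neg]
  rw [← WP_add, sub_eq_add_neg, ← WP_neg', ← WP_add]
  congr 1; funext u
  rw [← sub_eq_add_neg, ← intervalIntegral.integral_sub (iC u) (iB u), ← intervalIntegral.integral_add (iA u) (iA (-u))]
  exact ic_ae a X ℓ u ha hX hℓ

/-- the final statement -/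
theorem nv_final {C₁ : ℝ} (hC₁ : 0 < C₁) (hK : KernelLaw C₁) : ∃ C : ℝ, 0 < C ∧
    (∀ R : ℝ, ∀ᶠ T : ℝ in atTop, ∀ X : ℝ, 0 < X → X ≤ R →
      |∫ β in (0:ℝ)..X, (pairCount T (-β) β - SN T * (1 + ∫ u in (-β)..β, pcDensity u))| ≤ C * SN T) ∧
    (∀ R : ℝ, ∀ᶠ T : ℝ in atTop, ∀ a X ℓ : ℝ, 0 < a → 0 < X → 0 < ℓ → a + X + ℓ ≤ R →
      |(∫ s in a..(a + X), pairCount T s (s + ℓ)) / X -
        SN T * ((∫ s in a..(a + X), ∫ u in s..(s + ℓ), pcDensity u) / X)| ≤ C / X * SN T) := by
  obtain ⟨C, hC, h⟩ := int_law hC₁ hK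
  refine ⟨2 * C, by linarith, fun R => ?_, fun R => ?_⟩
  · filter_upwards [h R, eventually_gt_atTop 1] with T hT hT1 X hX0 hX
    have hS := SN_pos hT1
    have := hT X hX0.le hX
    unfold Er at this
    refine this.trans ?_
    nlinarith
  · filter_upwards [h R, eventually_gt_atTop 1] with T hT hT1 a X ℓ ha hX hℓ hR
    have hS := SN_pos hT1
    have b1 := abs_le.mp (hT a ha.le (by linarith))
    have b2 := abs_le.mp (hT (a + X) (by linarith) (by linarith))
    have b3 := abs_le.mp (hT (a + ℓ) (by linarith) (by linarith))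
    have b4 := abs_le.mp (hT (a + ℓ + X) (by linarith) (by linarith))
    have c1 := intervalIntegral.integral_add_adjacent_intervals (Er_int T 0 a) (Er_int T a (a + X))
    have c2 := intervalIntegral.integral_add_adjacent_intervals (Er_int T 0 (a + ℓ)) (Er_int T (a + ℓ) (a + ℓ + X))
    have iS : IntervalIntegrable (fun s => pairCount T (-(s + ℓ)) (s + ℓ)) volume a (a + X) := by
      have := (pc_beta_int T (a + ℓ) (a + X + ℓ)).comp_add_right ℓ
      simpa using this
    have cF : Continuous (fun s => ∫ u in (-(s + ℓ))..(s + ℓ), pcDensity u) := intF_cont.comp (by fun_prop)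
    have c3 : ∫ s in (a + ℓ)..(a + ℓ + X), Er T s = (∫ s in a..(a + X), pairCount T (-(s + ℓ)) (s + ℓ)) - SN T * ∫ s in a..(a + X), (1 + ∫ u in (-(s + ℓ))..(s + ℓ), pcDensity u) := by
      have := intervalIntegral.integral_comp_add_right (a := a) (b := a + X) (fun s => Er T s) ℓ
      have e : a + ℓ + X = a + X + ℓ := by ring
      rw [e, ← this]
      unfold Er
      rw [intervalIntegral.integral_sub iS (Continuous.intervalIntegrable (by fun_prop) _ _), intervalIntegral.integral_const_mul]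
    have c4 : ∫ s in a..(a + X), Er T s = (∫ s in a..(a + X), pairCount T (-s) s) - SN T * ∫ s in a..(a + X), (1 + ∫ u in (-s)..s, pcDensity u) := by
      unfold Er
      rw [intervalIntegral.integral_sub (pc_beta_int T _ _) (Continuous.intervalIntegrable (by have := intF_cont; fun_prop) _ _), intervalIntegral.integral_const_mul]
    have c5 : (∫ s in a..(a + X), (1 + ∫ u in (-(s + ℓ))..(s + ℓ), pcDensity u)) - (∫ s in a..(a + X), (1 + ∫ u in (-s)..s, pcDensity u)) =
        2 * ∫ s in a..(a + X), ∫ u in s..(s + ℓ), pcDensity u := by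
      rw [← intervalIntegral.integral_sub (Continuous.intervalIntegrable (by fun_prop) _ _) (Continuous.intervalIntegrable (by have := intF_cont; fun_prop) _ _),
        ← intervalIntegral.integral_const_mul]
      apply intervalIntegral.integral_congr
      intro s _
      simp only
      rw [int_F_sym, int_F_sym, ← intervalIntegral.integral_add_adjacent_intervals (a := 0) (b := s) (c := s + ℓ) (intervalIntegrable_pcDensity _ _) (intervalIntegrable_pcDensity _ _)]
      ring
    have c6 := pos_avg ha.le hX.le hℓ.le T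
    set I := ∫ s in a..(a + X), pairCount T s (s + ℓ) with hI
    set J := ∫ s in a..(a + X), ∫ u in s..(s + ℓ), pcDensity u with hJ
    have key : |I - SN T * J| ≤ 2 * C * SN T := by
      have e : 2 * (I - SN T * J) = (∫ s in (a + ℓ)..(a + ℓ + X), Er T s) - ∫ s in a..(a + X), Er T s := by
        rw [c3, c4]
        have : 2 * (I - SN T * J) = 2 * I - SN T * (2 * J) := by ring
        rw [this, c6, ← c5]
        ring
      rw [abs_le]
      constructor <;> linarith [b1.1, b1.2, b2.1, b2.2, b3.1, b3.2, b4.1, b4.2]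
    have e3 : I / X - SN T * (J / X) = (I - SN T * J) / X := by ring
    rw [e3, abs_div, abs_of_pos hX]
    have e4 : 2 * C / X * SN T = (2 * C * SN T) / X := by ring
    rw [e4]
    exact div_le_div_of_nonneg_right key hX.le

end Pool.Agent.Helper4.PC
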