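import Pool.Agent.Helper4.PC.NVf
import Pool.Agent.Helper57.LS.Bridge

namespace Pool.Agent.Helper4.PC

open Set MeasureTheory Filter Topology
open Pool.Agent.Helper57.LH (sc sc_cont sc_even sc_integrable sc_nonneg sc_le_one sc_integral sc_eq sc_zero sc_interval sc_ae)
open Pool.Agent.Helper57.PC
open Pool.Agent.Helper57.Zeta

lemma int_inv_sq {X Y : ℝ} (hX : 0 < X) (hXY : X ≤ Y) : ∫ u in X..Y, 1 / u ^ 2 = 1 / X - 1 / Y := by
  have h0 : ∀ x ∈ uIcc X Y, x ≠ 0 := by
    intro x hx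
    rw [uIcc_of_le hXY] at hx
    linarith [hx.1, hx.2]
  have := intervalIntegral.integral_eq_sub_of_hasDerivAt (a := X) (b := Y) (f := fun u => -(1 / u)) (f' := fun u => 1 / u ^ 2) (by
    intro x hx
    have h1 := h0 x hx
    have h2 := (hasDerivAt_inv h1).neg
    have h3 : HasDerivAt (fun u : ℝ => -(1 / u)) (- -(x ^ 2)⁻¹) x := by
      simp only [one_div]
      exact h2
    rwa [neg_neg, ← one_div] at h3) (ContinuousOn.intervalIntegrable (by
      apply ContinuousOn.div continuousOn_const (by fun_prop)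
      intro x hx
      exact pow_ne_zero 2 (h0 x hx)))
  rw [this]; ring

lemma inv_sq_ii {X Y : ℝ} (hX : 0 < X) (hXY : X ≤ Y) : IntervalIntegrable (fun u : ℝ => 1 / u ^ 2) volume X Y := by
  apply ContinuousOn.intervalIntegrable
  apply ContinuousOn.div continuousOn_const (by fun_prop)
  intro x hx
  rw [uIcc_of_le hXY] at hx
  have : 0 < x := by linarith [hx.1]
  positivity

lemma sc_le_inv_sq {u : ℝ} (hu : 0 < u) : sc u ≤ 1 / Real.pi ^ 2 * (1 / u ^ 2) := by
  have h := sc_mul u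
  have hpi := Real.pi_pos
  have h3 : sc u * (Real.pi * u) ^ 2 ≤ 1 := by rw [h]; exact Real.sin_sq_le_one _
  have e : 1 / Real.pi ^ 2 * (1 / u ^ 2) = 1 / (Real.pi * u) ^ 2 := by field_simp
  rw [e, le_div_iff₀ (by positivity)]
  exact h3

lemma int_sc_tail {X Y : ℝ} (hX : 0 < X) (hXY : X ≤ Y) : ∫ u in X..Y, sc u ≤ 1 / (Real.pi ^ 2 * X) := by
  have hpi := Real.pi_pos
  calc ∫ u in X..Y, sc u ≤ ∫ u in X..Y, 1 / Real.pi ^ 2 * (1 / u ^ 2) := by
        apply intervalIntegral.integral_mono_on hXY (sc_cont.intervalIntegrable _ _) ((inv_sq_ii hX hXY).const_mul _)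
        intro u hu
        exact sc_le_inv_sq (by linarith [hu.1])
    _ = 1 / Real.pi ^ 2 * (1 / X - 1 / Y) := by
        rw [intervalIntegral.integral_const_mul, int_inv_sq hX hXY]
    _ ≤ 1 / Real.pi ^ 2 * (1 / X) := by
        have : 0 < 1 / Y := by
          have : 0 < Y := by linarith
          positivity
        gcongr
        linarith
    _ = 1 / (Real.pi ^ 2 * X) := by field_simp

lemma int_sc_sym (Y : ℝ) : ∫ u in (-Y)..Y, sc u = 2 * ∫ u in (0:ℝ)..Y, sc u := by
  rw [← intervalIntegral.integral_add_adjacent_intervals (a := -Y) (b := 0) (c := Y) (sc_cont.intervalIntegrable _ _) (sc_cont.intervalIntegrable _ _), two_mul]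
  congr 1
  have := intervalIntegral.integral_comp_neg (a := 0) (b := Y) (f := sc)
  simp only [sc_even, neg_zero] at this
  exact this.symm

lemma sc_half_tail {X : ℝ} (hX : 0 < X) : |1 - 2 * ∫ u in (0:ℝ)..X, sc u| ≤ 2 / (Real.pi ^ 2 * X) := by
  have hpi := Real.pi_pos
  have ht : Tendsto (fun Y : ℝ => 2 * ∫ u in X..Y, sc u) atTop (𝓝 (1 - 2 * ∫ u in (0:ℝ)..X, sc u)) := by
    have h1 : Tendsto (fun Y : ℝ => ∫ u in (-Y)..Y, sc u) atTop (𝓝 1) := by
      rw [← sc_integral]
      exact intervalIntegral_tendsto_integral sc_integrable tendsto_neg_atTop_atBot tendsto_id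
    have h2 := h1.sub_const (2 * ∫ u in (0:ℝ)..X, sc u)
    refine h2.congr fun Y => ?_
    rw [int_sc_sym, ← intervalIntegral.integral_add_adjacent_intervals (a := 0) (b := X) (c := Y) (sc_cont.intervalIntegrable _ _) (sc_cont.intervalIntegrable _ _)]
    ring
  rw [abs_le]
  constructor
  · have : 0 ≤ 1 - 2 * ∫ u in (0:ℝ)..X, sc u := by
      apply ge_of_tendsto ht
      filter_upwards [eventually_ge_atTop X] with Y hY
      have := intervalIntegral.integral_nonneg (μ := volume) hY (fun u _ => sc_nonneg u)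
      linarith
    have : 0 < 2 / (Real.pi ^ 2 * X) := by positivity
    linarith
  · apply le_of_tendsto ht
    filter_upwards [eventually_ge_atTop X] with Y hY
    have := int_sc_tail hX hY
    calc 2 * ∫ u in X..Y, sc u ≤ 2 * (1 / (Real.pi ^ 2 * X)) := by linarith
      _ = _ := by ring

lemma int_cos_div {X : ℝ} (hX : 1 ≤ X) : |∫ u in (1:ℝ)..X, 1 / u * Real.cos (2 * Real.pi * u)| ≤ 1 := by
  have hpi := Real.pi_pos
  have hpi3 := Real.pi_gt_three
  have h0 : ∀ x ∈ uIcc 1 X, x ≠ 0 := by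
    intro x hx
    rw [uIcc_of_le hX] at hx
    linarith [hx.1, hx.2]
  have hc1 : ContinuousOn (fun u : ℝ => -(u ^ 2)⁻¹) (uIcc 1 X) := by
    apply ContinuousOn.neg
    apply ContinuousOn.inv₀ (by fun_prop)
    intro x hx
    exact pow_ne_zero 2 (h0 x hx)
  have key := intervalIntegral.integral_mul_deriv_eq_deriv_mul (a := (1:ℝ)) (b := X)
    (u := fun u => u⁻¹) (v := fun u => Real.sin (2 * Real.pi * u) / (2 * Real.pi)) (u' := fun u => -(u ^ 2)⁻¹)
    (v' := fun u => Real.cos (2 * Real.pi * u)) (fun x hx => hasDerivAt_inv (h0 x hx)) (by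
      intro x _
      have h1 : HasDerivAt (fun u : ℝ => 2 * Real.pi * u) (2 * Real.pi) x := by
        simpa using (hasDerivAt_id x).const_mul (2 * Real.pi)
      have h2 := (h1.sin).div_const (2 * Real.pi)
      convert h2 using 1
      field_simp) hc1.intervalIntegrable (Continuous.intervalIntegrable (by fun_prop) _ _)
  simp only [one_div]
  rw [key]
  have hs : ∀ x : ℝ, |Real.sin (2 * Real.pi * x) / (2 * Real.pi)| ≤ 1 / (2 * Real.pi) := by
    intro x
    rw [abs_div, abs_of_pos (by positivity : (0:ℝ) < 2 * Real.pi)]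
    gcongr
    exact Real.abs_sin_le_one _
  have h16 : 1 / (2 * Real.pi) ≤ 1 / 6 := by
    gcongr
    linarith
  have hI : |∫ x in (1:ℝ)..X, -(x ^ 2)⁻¹ * (Real.sin (2 * Real.pi * x) / (2 * Real.pi))| ≤ 1 / 6 := by
    have h2 : |∫ x in (1:ℝ)..X, -(x ^ 2)⁻¹ * (Real.sin (2 * Real.pi * x) / (2 * Real.pi))| ≤ ∫ x in (1:ℝ)..X, 1 / 6 * (1 / x ^ 2) := by
      rw [← Real.norm_eq_abs]
      apply intervalIntegral.norm_integral_le_of_norm_le hX
      · filter_upwards with x hx
        rw [Real.norm_eq_abs, abs_mul, abs_neg]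
        have h3 : 0 < x := by linarith [hx.1]
        rw [abs_of_pos (by positivity : 0 < (x ^ 2)⁻¹)]
        calc (x ^ 2)⁻¹ * |Real.sin (2 * Real.pi * x) / (2 * Real.pi)| ≤ (x ^ 2)⁻¹ * (1 / 6) := by
              gcongr
              exact (hs x).trans h16
          _ = 1 / 6 * (1 / x ^ 2) := by ring
      · exact (inv_sq_ii one_pos hX).const_mul _
    rw [intervalIntegral.integral_const_mul, int_inv_sq one_pos hX] at h2
    have : 0 < 1 / X := by
      have : 0 < X := by linarith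
      positivity
    linarith
  have hX1 : |X⁻¹ * (Real.sin (2 * Real.pi * X) / (2 * Real.pi))| ≤ 1 / 6 := by
    rw [abs_mul]
    have h1 : |X⁻¹| ≤ 1 := by
      rw [abs_inv, abs_of_pos (by linarith : 0 < X)]
      exact inv_le_one_of_one_le₀ hX
    calc |X⁻¹| * |Real.sin (2 * Real.pi * X) / (2 * Real.pi)| ≤ 1 * (1 / (2 * Real.pi)) := by
          gcongr
          exact hs X
      _ ≤ 1 / 6 := by linarith
  have h11 : |(1:ℝ)⁻¹ * (Real.sin (2 * Real.pi * 1) / (2 * Real.pi))| ≤ 1 / 6 := by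
    rw [inv_one, one_mul]
    exact (hs 1).trans h16
  have a1 := abs_le.mp hI
  have a2 := abs_le.mp hX1
  have a3 := abs_le.mp h11
  rw [abs_le]
  constructor <;> linarith [a1.1, a1.2, a2.1, a2.2, a3.1, a3.2]

/-- logarithmic term -/
lemma int_u_sc {X : ℝ} (hX : 1 ≤ X) : |(∫ u in (0:ℝ)..X, u * sc u) - Real.log X / (2 * Real.pi ^ 2)| ≤ 2 := by
  have hpi := Real.pi_pos
  have hpi3 := Real.pi_gt_three
  have hc : Continuous (fun u => u * sc u) := continuous_id.mul sc_cont
  rw [← intervalIntegral.integral_add_adjacent_intervals (a := 0) (b := 1) (c := X) (hc.intervalIntegrable _ _) (hc.intervalIntegrable _ _)]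
  have h01 : |∫ u in (0:ℝ)..1, u * sc u| ≤ 1 := by
    have := intervalIntegral.norm_integral_le_of_norm_le_const (a := (0:ℝ)) (b := 1) (f := fun u => u * sc u) (C := 1) (by
      intro u hu
      rw [uIoc_of_le zero_le_one] at hu
      rw [norm_mul, Real.norm_of_nonneg (sc_nonneg u), Real.norm_of_nonneg hu.1.le]
      have h1 := sc_le_one u
      have h2 := sc_nonneg u
      calc u * sc u ≤ 1 * 1 := by
            gcongr
            exact hu.2
        _ = 1 := one_mul 1)
    simpa using this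
  have h1X : ∫ u in (1:ℝ)..X, u * sc u = 1 / (2 * Real.pi ^ 2) * (Real.log X - ∫ u in (1:ℝ)..X, 1 / u * Real.cos (2 * Real.pi * u)) := by
    have h0 : ∀ x ∈ uIcc 1 X, x ≠ 0 := by
      intro x hx
      rw [uIcc_of_le hX] at hx
      linarith [hx.1, hx.2]
    have i1 : IntervalIntegrable (fun u : ℝ => 1 / u) volume 1 X := by
      apply ContinuousOn.intervalIntegrable
      exact ContinuousOn.div continuousOn_const continuousOn_id h0
    have i2 : IntervalIntegrable (fun u : ℝ => 1 / u * Real.cos (2 * Real.pi * u)) volume 1 X := by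
      apply ContinuousOn.intervalIntegrable
      exact (ContinuousOn.div continuousOn_const continuousOn_id h0).mul (by fun_prop)
    have hlog : ∫ u in (1:ℝ)..X, 1 / u = Real.log X := by
      rw [integral_one_div_of_pos one_pos (by linarith), div_one]
    rw [← hlog, ← intervalIntegral.integral_sub i1 i2, ← intervalIntegral.integral_const_mul]
    apply intervalIntegral.integral_congr
    intro u hu
    simp only
    have hu0 := h0 u hu
    rw [sc_eq hu0]
    unfold Pool.Agent.Helper57.PC.sq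
    have h2 : Real.cos (2 * Real.pi * u) = 1 - 2 * Real.sin (Real.pi * u) ^ 2 := by
      rw [show 2 * Real.pi * u = 2 * (Real.pi * u) by ring, Real.cos_two_mul, Real.cos_sq']
      ring
    rw [h2]
    field_simp
    ring
  rw [h1X]
  have h3 := int_cos_div hX
  set Q := ∫ u in (1:ℝ)..X, 1 / u * Real.cos (2 * Real.pi * u)
  have e : (∫ u in (0:ℝ)..1, u * sc u) + 1 / (2 * Real.pi ^ 2) * (Real.log X - Q) - Real.log X / (2 * Real.pi ^ 2) =
      (∫ u in (0:ℝ)..1, u * sc u) - 1 / (2 * Real.pi ^ 2) * Q := by ring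
  rw [e]
  refine (abs_sub _ _).trans ?_
  rw [abs_mul, abs_of_pos (by positivity : 0 < 1 / (2 * Real.pi ^ 2))]
  have h4 : 1 / (2 * Real.pi ^ 2) ≤ 1 := by
    rw [div_le_one (by positivity)]
    nlinarith
  calc |∫ u in (0:ℝ)..1, u * sc u| + 1 / (2 * Real.pi ^ 2) * |Q| ≤ 1 + 1 * 1 := by gcongr
    _ = 2 := by norm_num

lemma int_int_sc (X : ℝ) : ∫ β in (0:ℝ)..X, (∫ u in (0:ℝ)..β, sc u) = X * (∫ u in (0:ℝ)..X, sc u) - ∫ u in (0:ℝ)..X, u * sc u := by
  have hd : ∀ x : ℝ, HasDerivAt (fun β => ∫ u in (0:ℝ)..β, sc u) (sc x) x := fun x =>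
    (sc_cont.integral_hasStrictDerivAt 0 x).hasDerivAt
  have key := intervalIntegral.integral_mul_deriv_eq_deriv_mul (a := (0:ℝ)) (b := X)
    (u := fun β => ∫ u in (0:ℝ)..β, sc u) (v := fun β => β) (u' := sc) (v' := fun _ => 1)
    (fun x _ => hd x) (fun x _ => hasDerivAt_id x) (sc_cont.intervalIntegrable _ _) (continuous_const.intervalIntegrable _ _)
  simp only [mul_one, mul_zero, sub_zero] at key
  rw [key, mul_comm]
  congr 1
  apply intervalIntegral.integral_congr
  intro u _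
  simp only
  ring

/-- the predicted number variance -/
lemma nv_pred {X : ℝ} (hX : 1 ≤ X) : |(∫ β in (0:ℝ)..X, (1 + ∫ u in (-β)..β, pcDensity u)) - (X ^ 2 + Real.log X / Real.pi ^ 2)| ≤ 5 := by
  have hpi := Real.pi_pos
  have hpi3 := Real.pi_gt_three
  have hX0 : 0 < X := by linarith
  have hG : Continuous (fun β => ∫ u in (0:ℝ)..β, sc u) := by
    rw [continuous_iff_continuousAt]
    intro x
    exact (sc_cont.integral_hasStrictDerivAt 0 x).hasDerivAt.continuousAt
  have e1 : ∀ β : ℝ, 1 + ∫ u in (-β)..β, pcDensity u = 2 * β + 1 - 2 * ∫ u in (0:ℝ)..β, sc u := by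
    intro β
    have h3 : ∫ u in (-β)..β, pcDensity u = ∫ u in (-β)..β, (1 - sc u) := by
      apply intervalIntegral.integral_congr_ae
      filter_upwards [sc_ae] with u hu _
      rw [pcDensity_eq u, hu]
    rw [h3, intervalIntegral.integral_sub intervalIntegrable_const (sc_cont.intervalIntegrable _ _), int_sc_sym]
    simp
    ring
  simp_rw [e1]
  have e2 : ∫ β in (0:ℝ)..X, (2 * β + 1 - 2 * ∫ u in (0:ℝ)..β, sc u) = X ^ 2 + X - 2 * (∫ β in (0:ℝ)..X, ∫ u in (0:ℝ)..β, sc u) := by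
    rw [intervalIntegral.integral_sub (Continuous.intervalIntegrable (by fun_prop) _ _) ((hG.const_mul 2).intervalIntegrable _ _),
      intervalIntegral.integral_add (Continuous.intervalIntegrable (by fun_prop) _ _) (Continuous.intervalIntegrable (by fun_prop) _ _),
      intervalIntegral.integral_const_mul, intervalIntegral.integral_const_mul, integral_id]
    simp
    ring
  rw [e2, int_int_sc]
  have h1 := abs_le.mp (sc_half_tail hX0)
  have h2 := abs_le.mp (int_u_sc hX)
  set G := ∫ u in (0:ℝ)..X, sc u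
  set U := ∫ u in (0:ℝ)..X, u * sc u
  have h3 : |X * (1 - 2 * G)| ≤ 1 := by
    rw [abs_mul, abs_of_pos hX0]
    calc X * |1 - 2 * G| ≤ X * (2 / (Real.pi ^ 2 * X)) := by
          gcongr
          exact sc_half_tail hX0
      _ = 2 / Real.pi ^ 2 := by field_simp
      _ ≤ 1 := by
          rw [div_le_one (by positivity)]
          nlinarith
  have h3' := abs_le.mp h3
  have e3 : X ^ 2 + X - 2 * (X * G - U) - (X ^ 2 + Real.log X / Real.pi ^ 2) = X * (1 - 2 * G) + 2 * (U - Real.log X / (2 * Real.pi ^ 2)) := by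
    field_simp
    ring
  rw [e3, abs_le]
  constructor <;> linarith [h2.1, h2.2, h3'.1, h3'.2]

/-- number variance, unconditional -/
theorem number_variance : ∃ C : ℝ, 0 < C ∧ ∀ R : ℝ, ∀ᶠ T : ℝ in atTop, ∀ X : ℝ, 1 ≤ X → X ≤ R →
    |(∫ β in (0:ℝ)..X, pairCount T (-β) β) - (T * Real.log T / (2 * Real.pi)) * ∫ β in (0:ℝ)..X, (1 + ∫ u in (-β)..β, pcDensity u)| ≤
      C * (T * Real.log T / (2 * Real.pi)) ∧
    |(∫ β in (0:ℝ)..X, pairCount T (-β) β) - (T * Real.log T / (2 * Real.pi)) * (X ^ 2 + Real.log X / Real.pi ^ 2)| ≤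
      C * (T * Real.log T / (2 * Real.pi)) := by
  obtain ⟨C₁, hC₁, hK⟩ := Pool.Agent.Helper57.LS.kernelLaw
  obtain ⟨C, hC, h, -⟩ := nv_final hC₁ hK
  refine ⟨C + 5, by linarith, fun R => ?_⟩
  filter_upwards [h R, eventually_gt_atTop 1] with T hT hT1 X hX1 hXR
  have hS := SN_pos hT1
  change |(∫ β in (0:ℝ)..X, pairCount T (-β) β) - SN T * ∫ β in (0:ℝ)..X, (1 + ∫ u in (-β)..β, pcDensity u)| ≤ (C + 5) * SN T ∧
    |(∫ β in (0:ℝ)..X, pairCount T (-β) β) - SN T * (X ^ 2 + Real.log X / Real.pi ^ 2)| ≤ (C + 5) * SN T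
  have h1 := hT X (by linarith) hXR
  have h2 : ∫ β in (0:ℝ)..X, (pairCount T (-β) β - SN T * (1 + ∫ u in (-β)..β, pcDensity u)) =
      (∫ β in (0:ℝ)..X, pairCount T (-β) β) - SN T * ∫ β in (0:ℝ)..X, (1 + ∫ u in (-β)..β, pcDensity u) := by
    rw [intervalIntegral.integral_sub (pc_beta_int T _ _) (Continuous.intervalIntegrable (by have := intF_cont; fun_prop) _ _), intervalIntegral.integral_const_mul]
  rw [h2] at h1
  have h3 := nv_pred hX1
  set V := ∫ β in (0:ℝ)..X, pairCount T (-β) β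
  set P := ∫ β in (0:ℝ)..X, (1 + ∫ u in (-β)..β, pcDensity u)
  refine ⟨h1.trans (by nlinarith), ?_⟩
  have e : V - SN T * (X ^ 2 + Real.log X / Real.pi ^ 2) = (V - SN T * P) + SN T * (P - (X ^ 2 + Real.log X / Real.pi ^ 2)) := by ring
  rw [e]
  refine (abs_add_le _ _).trans ?_
  rw [abs_mul, abs_of_pos hS]
  calc |V - SN T * P| + SN T * |P - (X ^ 2 + Real.log X / Real.pi ^ 2)| ≤ C * SN T + SN T * 5 := by gcongr
    _ = (C + 5) * SN T := by ring

/-- bounded error law and mean law, improved form -/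
theorem final_min : ∃ C : ℝ, 0 < C ∧
    (∀ R : ℝ, ∀ᶠ T : ℝ in atTop, ∀ α β : ℝ, 0 < α → α < β → β ≤ R →
      |pairCount T α β - (T * Real.log T / (2 * Real.pi)) * ∫ u in α..β, pcDensity u| ≤
        C * (T * Real.log T / (2 * Real.pi))) ∧
    (∀ R : ℝ, ∀ᶠ T : ℝ in atTop, ∀ a X ℓ : ℝ, 0 < a → 0 < X → 0 < ℓ → a + X + ℓ ≤ R →
      |(∫ s in a..(a + X), pairCount T s (s + ℓ)) / X -
        (T * Real.log T / (2 * Real.pi)) * ((∫ s in a..(a + X), ∫ u in s..(s + ℓ), pcDensity u) / X)| ≤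
        C * (min 1 ℓ / X) * (T * Real.log T / (2 * Real.pi))) := by
  obtain ⟨C₁, hC₁, hK⟩ := Pool.Agent.Helper57.LS.kernelLaw
  obtain ⟨C, hC, -, h⟩ := nv_final hC₁ hK
  obtain ⟨C', hC', h1, h2⟩ := final
  refine ⟨C + C', by linarith, fun R => ?_, fun R => ?_⟩
  · filter_upwards [h1 R, eventually_gt_atTop 1] with T hT hT1 α β hα hαβ hβ
    have hS := SN_pos hT1
    refine (hT α β hα hαβ hβ).trans ?_
    change C' * SN T ≤ (C + C') * SN T
    nlinarith
  · filter_upwards [h R, h2 R, eventually_gt_atTop 1] with T hT hT' hT1 a X ℓ ha hX hℓ hR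
    have hS := SN_pos hT1
    have b1 := hT a X ℓ ha hX hℓ hR
    have b2 := hT' a X ℓ ha hX hℓ hR
    rcases le_total ℓ 1 with h3 | h3
    · rw [min_eq_right h3]
      refine b2.trans ?_
      change C' * (ℓ / X) * SN T ≤ (C + C') * (ℓ / X) * SN T
      gcongr
      linarith
    · rw [min_eq_left h3]
      refine b1.trans ?_
      change C / X * SN T ≤ (C + C') * (1 / X) * SN T
      have : C / X = C * (1 / X) := by ring
      rw [this]
      gcongr
      linarith

end Pool.Agent.Helper4.PC
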