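import Pool.Agent.Helper4.PC.CT

namespace Pool.Agent.Helper4.PC

open Set MeasureTheory Filter Topology

/-- bilinear sums over two measures -/
noncomputable def II (μ ν : Measure ℝ) (φ : ℝ → ℝ) : ℝ := ∫ x, ∫ y, φ (x - y) ∂ν ∂μ

noncomputable def cm (μ : Measure ℝ) (ξ : ℝ) : ℝ := ∫ x, Real.cos (2 * Real.pi * x * ξ) ∂μ
noncomputable def sm (μ : Measure ℝ) (ξ : ℝ) : ℝ := ∫ x, Real.sin (2 * Real.pi * x * ξ) ∂μ

section
variable (μ ν : Measure ℝ) [IsFiniteMeasure μ] [IsFiniteMeasure ν]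

lemma cos_int (ξ : ℝ) : Integrable (fun x => Real.cos (2 * Real.pi * x * ξ)) μ := by
  apply Integrable.of_bound (C := 1)
  · apply Continuous.aestronglyMeasurable; fun_prop
  · filter_upwards with x; exact norm_cos_le _

lemma sin_int (ξ : ℝ) : Integrable (fun x => Real.sin (2 * Real.pi * x * ξ)) μ := by
  apply Integrable.of_bound (C := 1)
  · apply Continuous.aestronglyMeasurable; fun_prop
  · filter_upwards with x; exact Real.abs_sin_le_one _

lemma cm_cont : Continuous (cm μ) := by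
  unfold cm
  apply continuous_of_dominated (bound := fun _ => 1)
  · intro u; exact (cos_int μ u).aestronglyMeasurable
  · intro u; filter_upwards with x; exact norm_cos_le _
  · exact integrable_const _
  · filter_upwards with x; fun_prop

lemma sm_cont : Continuous (sm μ) := by
  unfold sm
  apply continuous_of_dominated (bound := fun _ => 1)
  · intro u; exact (sin_int μ u).aestronglyMeasurable
  · intro u; filter_upwards with x; exact Real.abs_sin_le_one _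
  · exact integrable_const _
  · filter_upwards with x; fun_prop

lemma cm_le (ξ : ℝ) : |cm μ ξ| ≤ μ.real univ := by
  unfold cm
  have h := norm_integral_le_of_norm_le_const (μ := μ) (f := fun x => Real.cos (2 * Real.pi * x * ξ)) (C := 1)
    (by filter_upwards with x; exact norm_cos_le _)
  rwa [one_mul] at h

lemma sm_le (ξ : ℝ) : |sm μ ξ| ≤ μ.real univ := by
  unfold sm
  have h := norm_integral_le_of_norm_le_const (μ := μ) (f := fun x => Real.sin (2 * Real.pi * x * ξ)) (C := 1)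
    (by filter_upwards with x; exact Real.abs_sin_le_one _)
  rwa [one_mul] at h

lemma cc_eq (ξ : ℝ) : cm μ ξ * cm ν ξ + sm μ ξ * sm ν ξ = ∫ p : ℝ × ℝ, Real.cos (2 * Real.pi * (p.1 - p.2) * ξ) ∂(μ.prod ν) := by
  unfold cm sm
  rw [← integral_prod_mul, ← integral_prod_mul, ← integral_add]
  · congr 1; funext p
    rw [← Real.cos_sub]; congr 1; ring
  · exact (cos_int μ ξ).mul_prod (cos_int ν ξ)
  · exact (sin_int μ ξ).mul_prod (sin_int ν ξ)

lemma phi_int {φ : ℝ → ℝ} (hc : Continuous φ) {C : ℝ} (hb : ∀ x, |φ x| ≤ C) :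
    Integrable (fun p : ℝ × ℝ => φ (p.1 - p.2)) (μ.prod ν) := by
  apply Integrable.of_bound (C := C)
  · apply Continuous.aestronglyMeasurable; fun_prop
  · filter_upwards with x; exact hb _

lemma II_prod {φ : ℝ → ℝ} (hc : Continuous φ) {C : ℝ} (hb : ∀ x, |φ x| ≤ C) :
    II μ ν φ = ∫ p : ℝ × ℝ, φ (p.1 - p.2) ∂(μ.prod ν) := by
  unfold II
  rw [integral_prod _ (phi_int μ ν hc hb)]

lemma CT_II {A : ℝ → ℝ} (hA : Integrable A) :
    II μ ν (CT A) = ∫ ξ, A ξ * (cm μ ξ * cm ν ξ + sm μ ξ * sm ν ξ) := by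
  rw [II_prod μ ν (CT_cont hA) (CT_abs_le hA)]
  have e1 : ∀ ξ, A ξ * (cm μ ξ * cm ν ξ + sm μ ξ * sm ν ξ) = ∫ p : ℝ × ℝ, A ξ * Real.cos (2 * Real.pi * (p.1 - p.2) * ξ) ∂(μ.prod ν) := by
    intro ξ
    rw [cc_eq, integral_const_mul]
  simp_rw [e1]
  unfold CT
  rw [integral_integral_swap]
  have h0 : Integrable (fun q : (ℝ × ℝ) × ℝ => (1:ℝ) * A q.2) ((μ.prod ν).prod volume) :=
    (integrable_const (1:ℝ)).mul_prod hA
  refine h0.norm.mono' ?_ ?_
  · have : (Function.uncurry fun (p : ℝ × ℝ) (ξ : ℝ) => A ξ * Real.cos (2 * Real.pi * (p.1 - p.2) * ξ)) =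
      fun q : (ℝ × ℝ) × ℝ => ((1:ℝ) * A q.2) * Real.cos (2 * Real.pi * (q.1.1 - q.1.2) * q.2) := by
      funext q; simp only [Function.uncurry]; ring
    rw [this]
    exact h0.aestronglyMeasurable.mul (Continuous.aestronglyMeasurable (by fun_prop))
  · filter_upwards with q
    simp only [Function.uncurry, one_mul]
    rw [norm_mul]
    exact mul_le_of_le_one_right (norm_nonneg _) (norm_cos_le _)

/-- the quadratic form of the signed measure μ - ν -/
noncomputable def QQ (φ : ℝ → ℝ) : ℝ := II μ μ φ - 2 * II μ ν φ + II ν ν φ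

noncomputable def DD (ξ : ℝ) : ℝ := (cm μ ξ - cm ν ξ) ^ 2 + (sm μ ξ - sm ν ξ) ^ 2

lemma cmm_int {A : ℝ → ℝ} (hA : Integrable A) : Integrable (fun ξ => A ξ * (cm μ ξ * cm ν ξ + sm μ ξ * sm ν ξ)) := by
  refine (hA.norm.mul_const (2 * (μ.real univ * ν.real univ))).mono' ?_ ?_
  · exact hA.aestronglyMeasurable.mul (((cm_cont μ).mul (cm_cont ν)).add ((sm_cont μ).mul (sm_cont ν))).aestronglyMeasurable
  · filter_upwards with ξ
    rw [norm_mul]
    apply mul_le_mul_of_nonneg_left _ (norm_nonneg _)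
    refine (norm_add_le _ _).trans ?_
    rw [norm_mul, norm_mul]
    have h1 : ‖cm μ ξ‖ * ‖cm ν ξ‖ ≤ μ.real univ * ν.real univ :=
      mul_le_mul (cm_le μ ξ) (cm_le ν ξ) (norm_nonneg _) measureReal_nonneg
    have h2 : ‖sm μ ξ‖ * ‖sm ν ξ‖ ≤ μ.real univ * ν.real univ :=
      mul_le_mul (sm_le μ ξ) (sm_le ν ξ) (norm_nonneg _) measureReal_nonneg
    linarith

lemma QQ_eq {A : ℝ → ℝ} (hA : Integrable A) : QQ μ ν (CT A) = ∫ ξ, A ξ * DD μ ν ξ := by
  unfold QQ
  have i12 : Integrable (fun ξ => A ξ * (cm μ ξ * cm μ ξ + sm μ ξ * sm μ ξ) - 2 * (A ξ * (cm μ ξ * cm ν ξ + sm μ ξ * sm ν ξ))) :=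
    (cmm_int μ μ hA).sub ((cmm_int μ ν hA).const_mul 2)
  rw [CT_II μ μ hA, CT_II μ ν hA, CT_II ν ν hA, ← integral_const_mul, ← integral_sub (cmm_int μ μ hA) ((cmm_int μ ν hA).const_mul 2),
    ← integral_add i12 (cmm_int ν ν hA)]
  congr 1; funext ξ
  unfold DD
  ring

omit [IsFiniteMeasure μ] [IsFiniteMeasure ν] in
lemma DD_nonneg (ξ : ℝ) : 0 ≤ DD μ ν ξ := by unfold DD; positivity

lemma DD_int {A : ℝ → ℝ} (hA : Integrable A) : Integrable (fun ξ => A ξ * DD μ ν ξ) := by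
  have h := ((cmm_int μ μ hA).sub ((cmm_int μ ν hA).const_mul 2)).add (cmm_int ν ν hA)
  refine h.congr ?_
  filter_upwards with ξ
  simp only [Pi.add_apply, Pi.sub_apply]
  unfold DD
  ring

/-- domination -/
theorem QQ_dom {A A' : ℝ → ℝ} (hA : Integrable A) (hA' : Integrable A') (h : ∀ ξ, |A ξ| ≤ A' ξ) :
    |QQ μ ν (CT A)| ≤ QQ μ ν (CT A') := by
  rw [QQ_eq μ ν hA, QQ_eq μ ν hA']
  have h0 := norm_integral_le_integral_norm (μ := volume) (fun ξ => A ξ * DD μ ν ξ)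
  refine h0.trans ?_
  apply integral_mono (DD_int μ ν hA).norm (DD_int μ ν hA')
  intro ξ
  simp only
  rw [norm_mul, Real.norm_of_nonneg (DD_nonneg μ ν ξ)]
  exact mul_le_mul_of_nonneg_right (h ξ) (DD_nonneg μ ν ξ)

omit [IsFiniteMeasure μ] in
lemma QQ_zero (φ : ℝ → ℝ) : QQ μ 0 φ = II μ μ φ := by
  unfold QQ II
  simp

theorem II_dom {A A' : ℝ → ℝ} (hA : Integrable A) (hA' : Integrable A') (h : ∀ ξ, |A ξ| ≤ A' ξ) :
    |II μ μ (CT A)| ≤ II μ μ (CT A') := by
  have := QQ_dom μ 0 hA hA' h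
  rwa [QQ_zero, QQ_zero] at this

end

end Pool.Agent.Helper4.PC
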