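import Pool.Agent.Helper4.PC.Tri

namespace Pool.Agent.Helper4.PC

open Set MeasureTheory Filter Topology
open Pool.Agent.Helper57.LH (sc sc_cont sc_even sc_integrable sc_nonneg sc_le_one sc_integral sc_eq sc_zero sc_decay Gm Gm_nonneg Gm_zero_pos Gm_even scsc_integrable)
open Pool.Agent.Helper57

lemma sc_mul (t : ℝ) : sc t * (Real.pi * t) ^ 2 = Real.sin (Real.pi * t) ^ 2 := by
  by_cases h : t = 0
  · rw [h]; simp
  · rw [sc_eq h]
    unfold PC.sq
    have : Real.pi * t ≠ 0 := mul_ne_zero Real.pi_ne_zero h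
    field_simp

lemma sc_lower {x : ℝ} (hx : |x| ≤ 1 / 2) : (2 / Real.pi) ^ 2 ≤ sc x := by
  have hpi := Real.pi_pos
  by_cases h : x = 0
  · rw [h, sc_zero]
    have h3 : 2 / Real.pi ≤ 1 := by
      rw [div_le_one hpi]; linarith [Real.pi_gt_three]
    have h4 : 0 ≤ 2 / Real.pi := by positivity
    nlinarith
  · have h0 : 0 < |x| := abs_pos.mpr h
    have h1 : sc x = sc |x| := by
      rcases abs_choice x with h | h
      · rw [h]
      · rw [h, sc_even]
    rw [h1, sc_eq h0.ne']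
    unfold PC.sq
    have h2 : 2 / Real.pi * (Real.pi * |x|) ≤ Real.sin (Real.pi * |x|) := by
      apply Real.mul_le_sin (by positivity)
      nlinarith
    have h3 : 2 / Real.pi ≤ Real.sin (Real.pi * |x|) / (Real.pi * |x|) := by
      rw [le_div_iff₀ (by positivity)]; exact h2
    have h4 : 0 ≤ 2 / Real.pi := by positivity
    gcongr

lemma int_sin_sq (a : ℝ) : ∫ t in (a - 1 / 2)..(a + 1 / 2), Real.sin (Real.pi * t) ^ 2 = 1 / 2 := by
  have hpi := Real.pi_pos
  have h := intervalIntegral.integral_comp_mul_left (a := a - 1 / 2) (b := a + 1 / 2) (fun t => Real.sin t ^ 2) hpi.ne'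
  rw [h, integral_sin_sq, smul_eq_mul]
  have e1 : Real.pi * (a - 1 / 2) = Real.pi * a - Real.pi / 2 := by ring
  have e2 : Real.pi * (a + 1 / 2) = Real.pi * a + Real.pi / 2 := by ring
  rw [e1, e2, Real.sin_sub_pi_div_two, Real.cos_sub_pi_div_two, Real.sin_add_pi_div_two, Real.cos_add_pi_div_two]
  field_simp
  ring

lemma Gm_lower (y : ℝ) : 1 / (Real.pi ^ 4 * (1 + y ^ 2)) ≤ Gm y := by
  have hpi := Real.pi_pos
  have h1 : ∫ x in Icc (-(1/2):ℝ) (1/2), sc x * sc (y - x) ≤ Gm y := by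
    unfold Pool.Agent.Helper57.LH.Gm
    exact setIntegral_le_integral (scsc_integrable y) (by filter_upwards with x; exact mul_nonneg (sc_nonneg _) (sc_nonneg _))
  refine le_trans ?_ h1
  have hsi : ∀ a b, IntervalIntegrable sc volume a b := fun a b => sc_cont.intervalIntegrable a b
  have h2 : ∫ x in Icc (-(1/2):ℝ) (1/2), (2 / Real.pi) ^ 2 * sc (y - x) ≤ ∫ x in Icc (-(1/2):ℝ) (1/2), sc x * sc (y - x) := by
    apply setIntegral_mono_on
    · exact ((sc_integrable.comp_sub_left y).const_mul _).integrableOn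
    · exact (scsc_integrable y).integrableOn
    · exact measurableSet_Icc
    · intro x hx
      exact mul_le_mul_of_nonneg_right (sc_lower (abs_le.mpr hx)) (sc_nonneg _)
  refine le_trans ?_ h2
  rw [integral_const_mul]
  have h3 : ∫ x in Icc (-(1/2):ℝ) (1/2), sc (y - x) = ∫ t in (y - 1 / 2)..(y + 1 / 2), sc t := by
    rw [integral_Icc_eq_integral_Ioc, ← intervalIntegral.integral_of_le (by norm_num), intervalIntegral.integral_comp_sub_left (fun x => sc x) y]
    congr 1; ring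
  rw [h3]
  have h4 : ∫ t in (y - 1 / 2)..(y + 1 / 2), (1 / (Real.pi * (|y| + 1 / 2)) ^ 2) * Real.sin (Real.pi * t) ^ 2 ≤ ∫ t in (y - 1 / 2)..(y + 1 / 2), sc t := by
    apply intervalIntegral.integral_mono_on (by linarith) (Continuous.intervalIntegrable (by fun_prop) _ _) (hsi _ _)
    intro t ht
    rw [← sc_mul, one_div, ← div_eq_inv_mul, div_le_iff₀ (by positivity)]
    apply mul_le_mul_of_nonneg_left _ (sc_nonneg _)
    rw [mul_pow, mul_pow, ← sq_abs t]
    have h5 : |t| ≤ |y| + 1 / 2 := by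
      rw [abs_le]
      constructor
      · linarith [neg_abs_le y, ht.1]
      · linarith [le_abs_self y, ht.2]
    gcongr
  rw [intervalIntegral.integral_const_mul, int_sin_sq] at h4
  have h6 : (2 / Real.pi) ^ 2 * (1 / (Real.pi * (|y| + 1 / 2)) ^ 2 * (1 / 2)) ≤ (2 / Real.pi) ^ 2 * ∫ t in (y - 1 / 2)..(y + 1 / 2), sc t := by gcongr
  refine le_trans ?_ h6
  have h7 : (2 / Real.pi) ^ 2 * (1 / (Real.pi * (|y| + 1 / 2)) ^ 2 * (1 / 2)) = 2 / (Real.pi ^ 4 * (|y| + 1 / 2) ^ 2) := by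
    field_simp
  rw [h7, div_le_div_iff₀ (by positivity) (by positivity)]
  have h8 : (|y| + 1 / 2) ^ 2 ≤ 2 * (1 + y ^ 2) := by
    rw [← sq_abs y]
    nlinarith [sq_nonneg (|y| - 1 / 2)]
  have h9 : 0 < Real.pi ^ 4 := by positivity
  nlinarith

/-- the normalising constant -/
noncomputable def g0 : ℝ := ∫ x, sc x ^ 2

lemma g0_eq : g0 = Gm 0 := by
  unfold g0 Pool.Agent.Helper57.LH.Gm
  congr 1; funext x
  rw [zero_sub, sc_even, pow_two]

lemma g0_pos : 0 < g0 := by rw [g0_eq]; exact Gm_zero_pos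

/-- the smoothing kernel -/
noncomputable def kk (B u : ℝ) : ℝ := (1 / (g0 * B)) * sc (u / B) ^ 2

lemma kk_nonneg {B : ℝ} (hB : 0 < B) (u : ℝ) : 0 ≤ kk B u := by
  have := g0_pos
  unfold kk; positivity

lemma kk_cont (B : ℝ) : Continuous (kk B) := by
  unfold kk
  exact continuous_const.mul ((sc_cont.comp (by fun_prop)).pow 2)

lemma kk_even (B u : ℝ) : kk B (-u) = kk B u := by unfold kk; rw [neg_div, sc_even]

lemma kk_integrable {B : ℝ} (hB : 0 < B) : Integrable (kk B) := by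
  unfold kk
  exact (scsq_integrable.comp_div hB.ne').const_mul _

lemma kk_integral {B : ℝ} (hB : 0 < B) : ∫ u, kk B u = 1 := by
  unfold kk
  rw [integral_const_mul, Measure.integral_comp_div (fun x => sc x ^ 2) B, abs_of_pos hB, smul_eq_mul]
  change 1 / (g0 * B) * (B * g0) = 1
  have := g0_pos
  field_simp

/-- the tail of the kernel -/
lemma kk_tail {B : ℝ} (hB : 0 < B) {d : ℝ} (hd : 0 ≤ d) : ∫ u in Ici d, kk B u ≤ 5 * Real.pi ^ 4 / g0 * Gm (d / B) := by
  have hpi := Real.pi_pos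
  have hg := g0_pos
  have h1 : ∀ u ∈ Ici d, kk B u ≤ 5 / (g0 * (1 + (d / B) ^ 2)) * ((1 / B) * sc (u / B)) := by
    intro u hu
    have hu' : d ≤ u := hu
    unfold kk
    have h2 : sc (u / B) ≤ 5 / (1 + (d / B) ^ 2) := by
      refine (sc_decay _).trans ?_
      unfold Pool.Agent.Helper57.LH.Kd
      rw [← div_eq_mul_inv]
      have h3 : (d / B) ^ 2 ≤ (2 * Real.pi * (u / B)) ^ 2 := by
        apply pow_le_pow_left₀ (by positivity)
        have h4 : d / B ≤ u / B := by gcongr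
        have h5 : 0 ≤ u / B := le_trans (by positivity) h4
        have h6 : 1 ≤ 2 * Real.pi := by linarith [Real.pi_gt_three]
        nlinarith
      gcongr
    have h7 := sc_nonneg (u / B)
    calc 1 / (g0 * B) * sc (u / B) ^ 2 = (1 / (g0 * B)) * (sc (u / B) * sc (u / B)) := by ring
      _ ≤ (1 / (g0 * B)) * (5 / (1 + (d / B) ^ 2) * sc (u / B)) := by gcongr
      _ = _ := by field_simp
  have hsi : Integrable (fun u => (1 / B) * sc (u / B)) := (sc_integrable.comp_div hB.ne').const_mul _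
  have h2 : ∫ u in Ici d, kk B u ≤ ∫ u in Ici d, 5 / (g0 * (1 + (d / B) ^ 2)) * ((1 / B) * sc (u / B)) :=
    setIntegral_mono_on (kk_integrable hB).integrableOn (hsi.const_mul _).integrableOn measurableSet_Ici h1
  rw [integral_const_mul] at h2
  have h3 : ∫ u in Ici d, (1 / B) * sc (u / B) ≤ 1 := by
    have h4 : ∫ u, (1 / B) * sc (u / B) = 1 := by
      rw [integral_const_mul, Measure.integral_comp_div (fun x => sc x) B, abs_of_pos hB, smul_eq_mul, sc_integral]
      field_simp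
    refine le_trans (setIntegral_le_integral hsi ?_) h4.le
    filter_upwards with u
    have := sc_nonneg (u / B)
    positivity
  have h4 : 5 / (g0 * (1 + (d / B) ^ 2)) * ∫ u in Ici d, (1 / B) * sc (u / B) ≤ 5 / (g0 * (1 + (d / B) ^ 2)) * 1 := by gcongr
  refine h2.trans (h4.trans ?_)
  have h5 := Gm_lower (d / B)
  calc 5 / (g0 * (1 + (d / B) ^ 2)) * 1 = 5 * Real.pi ^ 4 / g0 * (1 / (Real.pi ^ 4 * (1 + (d / B) ^ 2))) := by field_simp
    _ ≤ _ := by gcongr

end Pool.Agent.Helper4.PC
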