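import Pool.Agent.Helper4.PC.Tail

namespace Pool.Agent.Helper4.PC

open Set MeasureTheory Filter Topology
open Pool.Agent.Helper57.LH (Gm Gm_nonneg Gm_even ic ic_apply Gm_integrable)
open Pool.Agent.Helper57
open scoped Convolution

/-- indicator of the window -/
noncomputable def Sw (α β : ℝ) : ℝ → ℝ := (Icc α β).indicator (fun _ => 1)

lemma Sw_integrable (α β : ℝ) : Integrable (Sw α β) := by
  unfold Sw
  rw [integrable_indicator_iff measurableSet_Icc]
  exact integrableOn_const (by simp)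

lemma Sw_integral {α β : ℝ} (h : α ≤ β) : ∫ s, Sw α β s = β - α := by
  unfold Sw
  rw [integral_indicator measurableSet_Icc, setIntegral_const]
  simp [Measure.real, h]

/-- the smoothed window -/
noncomputable def Wf (B α β u : ℝ) : ℝ := ∫ s, Sw α β s * kk B (u - s)

lemma Wf_eq (B α β u : ℝ) : Wf B α β u = ∫ s in Icc (u - β) (u - α), kk B s := by
  unfold Wf Sw
  have h1 : (fun s => (Icc α β).indicator (fun _ => (1:ℝ)) s * kk B (u - s)) = (Icc α β).indicator (fun s => kk B (u - s)) := by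
    funext s
    by_cases hs : s ∈ Icc α β
    · rw [indicator_of_mem hs, indicator_of_mem hs, one_mul]
    · rw [indicator_of_notMem hs, indicator_of_notMem hs, zero_mul]
  rw [h1, integral_indicator measurableSet_Icc]
  have h : MeasurePreserving (fun y : ℝ => u - y) volume volume := Measure.measurePreserving_sub_left volume u
  have h2 := h.setIntegral_preimage_emb (MeasurableEquiv.subLeft u).measurableEmbedding (kk B) (Icc (u - β) (u - α))
  rw [← h2]
  congr 2
  ext y
  simp only [mem_Icc, mem_preimage]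
  constructor
  · rintro ⟨h1, h2⟩; constructor <;> linarith
  · rintro ⟨h1, h2⟩; constructor <;> linarith

lemma kk_neg_set (B : ℝ) (s : Set ℝ) : ∫ x in (fun x => -x) ⁻¹' s, kk B x = ∫ x in s, kk B x := by
  have h : MeasurePreserving (fun y : ℝ => -y) volume volume := Measure.measurePreserving_neg volume
  have h2 := h.setIntegral_preimage_emb (MeasurableEquiv.neg ℝ).measurableEmbedding (kk B) s
  simp only [kk_even] at h2
  exact h2

/-- the constant -/
noncomputable def C3 : ℝ := 5 * Real.pi ^ 4 / g0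

lemma C3_pos : 0 < C3 := by
  have := g0_pos
  unfold C3
  positivity

/-- the smoothed window is close to the window -/
theorem Wf_close {B : ℝ} (hB : 0 < B) (α β u : ℝ) :
    |ic (Icc α β) u - Wf B α β u| ≤ C3 * Gm ((u - α) / B) + C3 * Gm ((u - β) / B) := by
  classical
  have hk0 := kk_nonneg hB
  have hki := kk_integrable hB
  have hc3 := C3_pos
  have hnn : ∀ s : Set ℝ, 0 ≤ ∫ x in s, kk B x := fun s => integral_nonneg fun x => hk0 x
  have hmono : ∀ s t : Set ℝ, s ⊆ t → ∫ x in s, kk B x ≤ ∫ x in t, kk B x := by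
    intro s t hst
    apply setIntegral_mono_set hki.integrableOn
    · filter_upwards with x; exact hk0 x
    · apply LE.le.eventuallyLE; exact hst
  have hG1 := Gm_nonneg ((u - α) / B)
  have hG2 := Gm_nonneg ((u - β) / B)
  have hGe : ∀ a b : ℝ, Gm ((a - b) / B) = Gm ((b - a) / B) := by
    intro a b
    rw [← Gm_even]
    congr 1; ring
  rw [Wf_eq, ic_apply]
  by_cases h1 : u < α
  · rw [if_neg (fun h => absurd h.1 (not_le.mpr h1)), zero_sub, abs_neg, abs_of_nonneg (hnn _)]
    have h2 : ∫ x in Icc (u - β) (u - α), kk B x ≤ ∫ x in Ici (α - u), kk B x := by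
      rw [← kk_neg_set B (Ici (α - u))]
      apply hmono
      intro x hx
      simp only [mem_preimage, mem_Ici]
      linarith [hx.2]
    have h3 := kk_tail hB (show 0 ≤ α - u by linarith)
    rw [hGe α u] at h3
    change _ ≤ C3 * _ at h3
    have h4 : 0 ≤ C3 * Gm ((u - β) / B) := by positivity
    linarith
  · by_cases h2 : β < u
    · rw [if_neg (fun h => absurd h.2 (not_le.mpr h2)), zero_sub, abs_neg, abs_of_nonneg (hnn _)]
      have h3 : ∫ x in Icc (u - β) (u - α), kk B x ≤ ∫ x in Ici (u - β), kk B x := by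
        apply hmono
        intro x hx
        exact hx.1
      have h4 := kk_tail hB (show 0 ≤ u - β by linarith)
      change _ ≤ C3 * _ at h4
      have h5 : 0 ≤ C3 * Gm ((u - α) / B) := by positivity
      linarith
    · push Not at h1 h2
      rw [if_pos ⟨h1, h2⟩]
      have h3 := integral_add_compl (measurableSet_Icc (a := u - β) (b := u - α)) hki
      rw [kk_integral hB] at h3
      have h4 : 1 - ∫ x in Icc (u - β) (u - α), kk B x = ∫ x in (Icc (u - β) (u - α))ᶜ, kk B x := by linarith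
      rw [h4, abs_of_nonneg (hnn _)]
      have h5 : ∫ x in (Icc (u - β) (u - α))ᶜ, kk B x ≤ ∫ x in ((fun x => -x) ⁻¹' (Ici (β - u)) ∪ Ici (u - α)), kk B x := by
        apply hmono
        intro x hx
        rw [mem_compl_iff, mem_Icc, not_and_or, not_le, not_le] at hx
        rcases hx with hx | hx
        · left
          simp only [mem_preimage, mem_Ici]; linarith
        · right; exact hx.le
      have h6 : ∫ x in ((fun x => -x) ⁻¹' (Ici (β - u)) ∪ Ici (u - α)), kk B x ≤ (∫ x in (fun x => -x) ⁻¹' (Ici (β - u)), kk B x) + ∫ x in Ici (u - α), kk B x := by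
        have hu : ((fun x : ℝ => -x) ⁻¹' (Ici (β - u)) ∪ Ici (u - α)) = ((fun x : ℝ => -x) ⁻¹' (Ici (β - u)) ∪ (Ici (u - α) \ ((fun x : ℝ => -x) ⁻¹' (Ici (β - u))))) := by
          rw [union_diff_self]
        have hm1 : MeasurableSet ((fun x : ℝ => -x) ⁻¹' (Ici (β - u))) := measurableSet_Ici.preimage measurable_neg
        rw [hu, setIntegral_union disjoint_sdiff_right (measurableSet_Ici.diff hm1) hki.integrableOn hki.integrableOn]
        have := hmono _ _ (diff_subset (s := Ici (u - α)) (t := ((fun x : ℝ => -x) ⁻¹' (Ici (β - u)))))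
        linarith
      rw [kk_neg_set] at h6
      have h7 := kk_tail hB (show 0 ≤ β - u by linarith)
      have h8 := kk_tail hB (show 0 ≤ u - α by linarith)
      rw [hGe β u] at h7
      change _ ≤ C3 * _ at h7
      change _ ≤ C3 * _ at h8
      linarith

lemma Wf_conv (B α β : ℝ) : Wf B α β = (Sw α β ⋆[ContinuousLinearMap.mul ℝ ℝ, volume] kk B) := by
  funext y
  rw [convolution_def]
  rfl

lemma Wf_integrable {B : ℝ} (hB : 0 < B) (α β : ℝ) : Integrable (Wf B α β) := by
  rw [Wf_conv]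
  exact Integrable.integrable_convolution _ (Sw_integrable α β) (kk_integrable hB)

lemma Wf_integral {B : ℝ} (hB : 0 < B) {α β : ℝ} (h : α ≤ β) : ∫ y, Wf B α β y = β - α := by
  rw [Wf_conv, integral_convolution _ (Sw_integrable α β) (kk_integrable hB), Sw_integral h, kk_integral hB]
  simp

/-- the kernel on the Fourier side -/
noncomputable def Ak (B ξ : ℝ) : ℝ := (1 / g0) * tri2 (B * ξ)

lemma Ak_integrable {B : ℝ} (hB : 0 < B) : Integrable (Ak B) := by
  unfold Ak
  exact (tri2_integrable.comp_mul_left' hB.ne').const_mul _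

lemma CT_Ak {B : ℝ} (hB : 0 < B) (u : ℝ) : CT (Ak B) u = kk B u := by
  unfold Ak kk
  rw [CT_const_mul, CT_scale tri2 hB, CT_tri2, ← mul_assoc]
  congr 1
  have := g0_pos
  field_simp

lemma CT_Ak_fun {B : ℝ} (hB : 0 < B) : CT (Ak B) = kk B := funext (CT_Ak hB)

/-- Fourier side of the smoothed window -/
noncomputable def Aw (B α β ξ : ℝ) : ℝ := Ak B ξ * CT (Sw α β) ξ

lemma Aw_integrable {B : ℝ} (hB : 0 < B) (α β : ℝ) : Integrable (Aw B α β) := by
  refine ((Ak_integrable hB).norm.mul_const (∫ ξ, |Sw α β ξ|)).mono'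
    ((Ak_integrable hB).aestronglyMeasurable.mul (CT_cont (Sw_integrable α β)).aestronglyMeasurable) ?_
  filter_upwards with ξ
  unfold Aw
  rw [norm_mul]
  exact mul_le_mul_of_nonneg_left (CT_abs_le (Sw_integrable α β) _) (norm_nonneg _)

lemma CT_Aw {B : ℝ} (hB : 0 < B) (α β u : ℝ) : CT (Aw B α β) u = (1 / 2) * (Wf B α β u + Wf B α β (-u)) := by
  unfold Aw
  rw [CT_mul_CT (Ak_integrable hB) (Sw_integrable α β), CT_Ak_fun hB]
  rfl

lemma CT_Aw_integrable {B : ℝ} (hB : 0 < B) (α β : ℝ) : Integrable (CT (Aw B α β)) := by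
  have h : CT (Aw B α β) = fun u => (1 / 2) * (Wf B α β u + Wf B α β (-u)) := funext (CT_Aw hB α β)
  rw [h]
  exact ((Wf_integrable hB α β).add (Wf_integrable hB α β).comp_neg).const_mul _

lemma CT_Aw_integral {B : ℝ} (hB : 0 < B) {α β : ℝ} (hab : α ≤ β) : ∫ u, CT (Aw B α β) u = β - α := by
  have h : CT (Aw B α β) = fun u => (1 / 2) * (Wf B α β u + Wf B α β (-u)) := funext (CT_Aw hB α β)
  rw [h, integral_const_mul, integral_add (Wf_integrable hB α β) (Wf_integrable hB α β).comp_neg,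
    integral_neg_eq_self (Wf B α β) volume, Wf_integral hB hab]
  ring

lemma CT_Sw {α β : ℝ} (hab : α ≤ β) (ξ : ℝ) : CT (Sw α β) ξ = ∫ s in α..β, Real.cos (2 * Real.pi * ξ * s) := by
  unfold CT Sw
  have h1 : (fun s => (Icc α β).indicator (fun _ => (1:ℝ)) s * Real.cos (2 * Real.pi * ξ * s)) = (Icc α β).indicator (fun s => Real.cos (2 * Real.pi * ξ * s)) := by
    funext s
    by_cases hs : s ∈ Icc α β
    · rw [indicator_of_mem hs, indicator_of_mem hs, one_mul]
    · rw [indicator_of_notMem hs, indicator_of_notMem hs, zero_mul]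
  rw [h1, integral_indicator measurableSet_Icc, integral_Icc_eq_integral_Ioc, ← intervalIntegral.integral_of_le hab]

lemma CT_Sw_le {α β : ℝ} (hab : α ≤ β) (ξ : ℝ) : |CT (Sw α β) ξ| ≤ β - α := by
  refine (CT_abs_le (Sw_integrable α β) ξ).trans (le_of_eq ?_)
  rw [← Sw_integral hab]
  congr 1; funext s
  apply abs_of_nonneg
  exact indicator_nonneg (fun _ _ => zero_le_one) _

lemma CT_Sw_le' {α β : ℝ} (hab : α ≤ β) (ξ : ℝ) : |CT (Sw α β) ξ| * |ξ| ≤ 1 / Real.pi := by
  have hpi := Real.pi_pos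
  by_cases h : ξ = 0
  · rw [h, abs_zero, mul_zero]; positivity
  · rw [CT_Sw hab]
    have hc : 2 * Real.pi * ξ ≠ 0 := by positivity
    have h1 := intervalIntegral.integral_comp_mul_left (a := α) (b := β) Real.cos hc
    rw [h1, integral_cos, smul_eq_mul, abs_mul]
    have h2 : |Real.sin (2 * Real.pi * ξ * β) - Real.sin (2 * Real.pi * ξ * α)| ≤ 2 := by
      refine (abs_sub _ _).trans ?_
      linarith [Real.abs_sin_le_one (2 * Real.pi * ξ * β), Real.abs_sin_le_one (2 * Real.pi * ξ * α)]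
    have h3 : |(2 * Real.pi * ξ)⁻¹| = (2 * Real.pi * |ξ|)⁻¹ := by
      rw [abs_inv, abs_mul, abs_of_pos (show 0 < 2 * Real.pi by positivity)]
    rw [h3]
    have h4 : 0 < |ξ| := abs_pos.mpr h
    calc (2 * Real.pi * |ξ|)⁻¹ * |Real.sin (2 * Real.pi * ξ * β) - Real.sin (2 * Real.pi * ξ * α)| * |ξ|
        ≤ (2 * Real.pi * |ξ|)⁻¹ * 2 * |ξ| := by gcongr
      _ = 1 / Real.pi := by field_simp

/-- dyadic domination -/
lemma dyad {B₀ : ℝ} (hB : 0 < B₀) (J : ℕ) : ∀ ξ a : ℝ, |ξ| ≤ 1 / (2 * B₀) → a ≤ 2 * (2 ^ J * B₀) → a * |ξ| ≤ 1 / Real.pi → 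
    a ≤ 8 * ∑ i ∈ Finset.range (J + 1), gh (2 ^ i * B₀) ξ := by
  induction J with
  | zero =>
    intro ξ a h1 h2 _
    have h3 := gh_lower hB h1
    simp only [zero_add, Finset.range_one, Finset.sum_singleton, pow_zero, one_mul] at h2 ⊢
    linarith
  | succ J ih =>
    intro ξ a h1 h2 h3
    have hpos : ∀ i : ℕ, 0 < 2 ^ i * B₀ := fun i => by positivity
    have hsum : 0 ≤ ∑ i ∈ Finset.range (J + 1), gh (2 ^ i * B₀) ξ := Finset.sum_nonneg fun i _ => gh_nonneg (hpos i).le ξ
    rw [Finset.sum_range_succ]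
    by_cases h4 : |ξ| ≤ 1 / (2 * (2 ^ (J + 1) * B₀))
    · have h5 := gh_lower (hpos (J + 1)) h4
      linarith
    · push Not at h4
      have h6 := gh_nonneg (hpos (J + 1)).le ξ
      have h7 := ih ξ a h1 ?_ h3
      · linarith
      · by_contra hc
        push Not at hc
        have h8 : 2 * (2 ^ J * B₀) * (1 / (2 * (2 ^ (J + 1) * B₀))) < a * |ξ| := by
          apply mul_lt_mul'' hc h4 (by positivity) (by positivity)
        have h9 : 2 * (2 ^ J * B₀) * (1 / (2 * (2 ^ (J + 1) * B₀))) = 1 / 2 := by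
          rw [pow_succ]; field_simp
        have h10 : 1 / Real.pi < 1 / 2 := by
          apply one_div_lt_one_div_of_lt (by norm_num); linarith [Real.pi_gt_three]
        linarith

/-- domination of the window -/
lemma Aw_dom {B₀ : ℝ} (hB : 0 < B₀) {α β : ℝ} (hab : α ≤ β) (J : ℕ) (hJ : β - α ≤ 2 * (2 ^ J * B₀)) (ξ : ℝ) :
    |Aw (4 * B₀) α β ξ| ≤ ∑ i ∈ Finset.range (J + 1), (8 / g0) * gh (2 ^ i * B₀) ξ := by
  have hg := g0_pos
  have hpos : ∀ i : ℕ, 0 < 2 ^ i * B₀ := fun i => by positivity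
  rw [← Finset.mul_sum]
  have hsum : 0 ≤ ∑ i ∈ Finset.range (J + 1), gh (2 ^ i * B₀) ξ := Finset.sum_nonneg fun i _ => gh_nonneg (hpos i).le ξ
  unfold Aw Ak
  rw [abs_mul, abs_mul, abs_of_pos (show 0 < 1 / g0 by positivity), abs_of_nonneg (tri2_nonneg _)]
  by_cases h : |ξ| ≤ 1 / (2 * B₀)
  · have h1 := dyad hB J ξ (|CT (Sw α β) ξ|) h ((CT_Sw_le hab ξ).trans hJ) (CT_Sw_le' hab ξ)
    have h2 := tri2_le_one (4 * B₀ * ξ)
    have h3 := tri2_nonneg (4 * B₀ * ξ)
    calc 1 / g0 * tri2 (4 * B₀ * ξ) * |CT (Sw α β) ξ| ≤ 1 / g0 * 1 * (8 * ∑ i ∈ Finset.range (J + 1), gh (2 ^ i * B₀) ξ) := by gcongr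
      _ = _ := by ring
  · push Not at h
    have h2 : tri2 (4 * B₀ * ξ) = 0 := by
      apply tri2_zero_of
      rw [abs_mul, abs_of_pos (by positivity)]
      rw [div_lt_iff₀ (by positivity)] at h
      linarith
    rw [h2, mul_zero, zero_mul]
    positivity

end Pool.Agent.Helper4.PC
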